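import Mathlib
import Pool.Agent.H67.SG.Def

/-! # AS.Def : definitions for the theorem on trees which are not nearly dominated by `s` vertices

`C` is always the graph of the red edges, `Cᶜ` the blue graph, `T` a tree on `Fin n`; `dg`, `nd`, `deg` as in `H67.SG.Def`.
Vertices `x` of `T` with `n ≤ Θ * deg T x` are called big, those with `D ≤ deg T x` hubs. A partial placement of `T` is a set
`X` of vertices of `T` together with a map `φ` (only its values on `X` matter) into the vertices (positions) of the coloured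
graph. `V` = main set of positions, `U` = a bounded set of exceptional positions outside `V`, `G ⊆ V` = positions of very small red
degree in `V`. -/

namespace H67.AS

open SimpleGraph Pool.Agent.H62.Decomp H67.SG

open Classical in
/-- the vertices outside the closed neighbourhood of `S` -/
noncomputable def outs {n : ℕ} (T : SimpleGraph (Fin n)) (S : Finset (Fin n)) : Finset (Fin n) :=
  Finset.univ.filter (fun x => x ∉ S ∧ ∀ y ∈ S, ¬ T.Adj y x)

/-- for every set `S` of at most `s` vertices at least a `K`-th part of all vertices is neither in `S` nor adjacent to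
a vertex of `S` -/
def Undom {n : ℕ} (T : SimpleGraph (Fin n)) (s K : ℕ) : Prop :=
  ∀ S : Finset (Fin n), S.card ≤ s → n ≤ K * (outs T S).card

/-- `s` vertices of `V` never have `m` common red neighbours in `V` -/
def KFree {W : Type} (C : SimpleGraph W) (V : Finset W) (s m : ℕ) : Prop :=
  ∀ S Z : Finset W, S ⊆ V → S.card = s → Z ⊆ V → (∀ x ∈ S, ∀ z ∈ Z, C.Adj x z) → Z.card < m

open Classical in
/-- the vertices of degree at least `D` -/
noncomputable def hubs {n : ℕ} (T : SimpleGraph (Fin n)) (D : ℕ) : Finset (Fin n) :=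
  Finset.univ.filter (fun x => D ≤ deg T x)

open Classical in
/-- the big vertices whose positions are red neighbours of `v` -/
noncomputable def bigRed {n : ℕ} {W : Type} (T : SimpleGraph (Fin n)) (C : SimpleGraph W) (V : Finset W) (Θ : ℕ)
    (X : Finset (Fin n)) (φ : Fin n → W) (v : W) : Finset (Fin n) :=
  X.filter (fun x => φ x ∈ V ∧ n ≤ Θ * deg T x ∧ C.Adj (φ x) v)

open Classical in
/-- the vertices which are not big and whose positions are red neighbours of `v` -/
noncomputable def medRed {n : ℕ} {W : Type} (T : SimpleGraph (Fin n)) (C : SimpleGraph W) (V : Finset W) (Θ : ℕ)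
    (X : Finset (Fin n)) (φ : Fin n → W) (v : W) : Finset (Fin n) :=
  X.filter (fun x => φ x ∈ V ∧ Θ * deg T x < n ∧ C.Adj (φ x) v)

/-- their total degree -/
noncomputable def wt {n : ℕ} {W : Type} (T : SimpleGraph (Fin n)) (C : SimpleGraph W) (V : Finset W) (Θ : ℕ)
    (X : Finset (Fin n)) (φ : Fin n → W) (v : W) : ℕ :=
  ∑ x ∈ medRed T C V Θ X φ v, deg T x

open Classical in
/-- the vertices which could be placed on `v` -/
noncomputable def avail {n : ℕ} {W : Type} (T : SimpleGraph (Fin n)) (C : SimpleGraph W) (X : Finset (Fin n))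
    (φ : Fin n → W) (v : W) : Finset (Fin n) :=
  Finset.univ.filter (fun y => y ∉ X ∧ ∀ x ∈ X, T.Adj x y → ¬ C.Adj (φ x) v)

/-- a partial placement: injective, positions in `V ∪ U`, all positions of `U` are used and the vertices placed there have all
their neighbours in `X`, no edge of `T` inside `X` is red, hubs are placed in `G`, no position of `V` is red to more than `s` big
vertices -/
structure Pl {n : ℕ} {W : Type} (T : SimpleGraph (Fin n)) (C : SimpleGraph W) (V U G : Finset W) (s Θ D : ℕ)
    (X : Finset (Fin n)) (φ : Fin n → W) : Prop where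
  inj : ∀ x ∈ X, ∀ y ∈ X, φ x = φ y → x = y
  mem : ∀ x ∈ X, φ x ∈ V ∨ φ x ∈ U
  usedU : ∀ u ∈ U, ∃ x ∈ X, φ x = u
  closed : ∀ x ∈ X, φ x ∈ U → ∀ y, T.Adj x y → y ∈ X
  blue : ∀ x ∈ X, ∀ y ∈ X, T.Adj x y → ¬ C.Adj (φ x) (φ y)
  hub : ∀ x ∈ X, D ≤ deg T x → φ x ∈ G
  few : ∀ v ∈ V, (bigRed T C V Θ X φ v).card ≤ s

/-- no unused position of `V` is critical -/
def Calm {n : ℕ} {W : Type} (T : SimpleGraph (Fin n)) (C : SimpleGraph W) (V : Finset W) (Θ K : ℕ)
    (X : Finset (Fin n)) (φ : Fin n → W) : Prop :=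
  ∀ v ∈ V, (∀ x ∈ X, φ x ≠ v) → 8 * K * wt T C V Θ X φ v < n

/-- all vertices of `Z` lie on critical positions of `V` -/
def Crit {n : ℕ} {W : Type} (T : SimpleGraph (Fin n)) (C : SimpleGraph W) (V : Finset W) (Θ K : ℕ)
    (X : Finset (Fin n)) (φ : Fin n → W) (Z : Finset (Fin n)) : Prop :=
  ∀ z ∈ Z, z ∈ X ∧ φ z ∈ V ∧ n ≤ 8 * K * wt T C V Θ X φ (φ z)

theorem Undom.pos {n : ℕ} {T : SimpleGraph (Fin n)} {s K : ℕ} (h : Undom T s K) (hn : 1 ≤ n) : 1 ≤ K := by
  rcases Nat.eq_zero_or_pos K with h0 | h0
  · subst h0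
    have := h ∅ (by simp)
    omega
  · exact h0

end H67.AS
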