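import Pool.Agent.H67.AS.UpperS
import Pool.Agent.H57.SD.ContS
import Pool.Agent.H57.SD.MemS
import Pool.Agent.H57.SD.LowR
import Pool.Agent.H57.SD.LowC
import Pool.Agent.H57.SD.Fin1

/-! # AS.MainA : the values for trees which are not nearly dominated by `s(G)` vertices (assembly, compare `H57.SD.PartD`) -/

namespace H67.AS

open SimpleGraph Pool.Agent.H62.Decomp H67.SG H57.SD

theorem undominated {V : Type} [Fintype V] (G : SimpleGraph V) (k : ℕ) (hk2 : 2 ≤ k)
    (hk : G.chromaticNumber = k) (K : ℕ) :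
    ∃ n₀ : ℕ, ∀ n : ℕ, n₀ ≤ n → ∀ T : SimpleGraph (Fin n), T.IsTree → Undom T (surplus G) K →
      ramsey G T = (k - 1) * (n - 1) + surplus G ∧ classRamsey G T = n - 1 + surplus G := by
  classical
  have hne : Nonempty V := by
    by_contra hV
    rw [not_nonempty_iff] at hV
    have h0 : G.chromaticNumber ≤ (0 : ℕ) := by
      rw [chromaticNumber_le_iff_colorable]
      exact ⟨⟨fun x => hV.elim x, fun {x} => hV.elim x⟩⟩
    rw [hk] at h0
    have h1 : k ≤ 0 := by exact_mod_cast h0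
    omega
  rcases Nat.eq_zero_or_pos K with hK0 | hK0
  · refine ⟨1, fun n hn T _ hU => ?_⟩
    have := hU.pos hn
    omega
  obtain ⟨f, i, hfi⟩ := surplus_spec G k hk2 hk
  have hs := surplus_pos G k hk2 hk
  have hm : 1 ≤ Fintype.card V := Fintype.card_pos
  obtain ⟨n1, h1⟩ := upper_s (k - 1) (Fintype.card V) (surplus G) K (by omega) hm hs hK0
  obtain ⟨n2, h2⟩ := upper_s 1 (Fintype.card V) (surplus G) K le_rfl hm hs hK0
  refine ⟨max (max n1 n2) (Fintype.card V), fun n hn T hT hU => ⟨?_, ?_⟩⟩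
  · refine le_antisymm (ramsey_le G T _ fun C => ?_)
      (ramsey_low G k hk2 hk T hT (le_trans (le_max_right _ _) hn))
    by_cases hS : HasS (k - 1) (Fintype.card V) (surplus G) C
    · left
      obtain ⟨q, rfl⟩ : ∃ q, k = q + 1 := ⟨k - 1, by omega⟩
      exact cont_S G q (surplus G) f i hfi.le C hS
    · exact Or.inr (h1 n (le_trans (le_trans (le_max_left _ _) (le_max_left _ _)) hn) T hT hU (Fin _) C
        (by simp) hS)
  · refine le_antisymm (class_le G T _ fun C => ?_)
      (class_low G k hk2 hk T hT (le_trans (le_max_right _ _) hn))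
    by_cases hS : HasS 1 (Fintype.card V) (surplus G) C
    · exact Or.inl (member_S G k hk2 hk (surplus G) f i hfi.le C hS)
    · exact Or.inr (h2 n (le_trans (le_trans (le_max_right _ _) (le_max_left _ _)) hn) T hT hU (Fin _) C
        (by simp) hS)

open Classical in
/-- the same with a real number `ε` -/
theorem undominated_real {V : Type} [Fintype V] (G : SimpleGraph V) (k : ℕ) (hk2 : 2 ≤ k)
    (hk : G.chromaticNumber = k) (ε : ℝ) (hε : 0 < ε) :
    ∃ n₀ : ℕ, ∀ n : ℕ, n₀ ≤ n → ∀ T : SimpleGraph (Fin n), T.IsTree →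
      (∀ S : Finset (Fin n), S.card ≤ surplus G → ε * n ≤ ({x | x ∉ S ∧ ∀ y ∈ S, ¬ T.Adj y x}.ncard : ℝ)) →
      ramsey G T = (k - 1) * (n - 1) + surplus G ∧ classRamsey G T = n - 1 + surplus G := by
  obtain ⟨K, hK⟩ := exists_nat_ge (1 / ε)
  obtain ⟨n₀, h⟩ := undominated G k hk2 hk K
  refine ⟨n₀, fun n hn T hT hU => h n hn T hT fun S hS => ?_⟩
  have h1 := hU S hS
  have h2 : ({x | x ∉ S ∧ ∀ y ∈ S, ¬ T.Adj y x}.ncard : ℝ) = ((outs T S).card : ℝ) := by
    rw [Set.ncard_eq_toFinset_card']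
    congr 2
    ext x
    simp [outs]
  rw [h2] at h1
  have h3 : (n : ℝ) ≤ K * (outs T S).card := by
    have h4 : 1 ≤ K * ε := by
      rw [div_le_iff₀ hε] at hK
      exact hK
    have h5 : (K : ℝ) * (ε * n) ≤ K * (outs T S).card := mul_le_mul_of_nonneg_left h1 (Nat.cast_nonneg _)
    have h6 : (1 : ℝ) * n ≤ K * ε * n := mul_le_mul_of_nonneg_right h4 (Nat.cast_nonneg _)
    linarith
  exact_mod_cast h3

end H67.AS
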