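import Mathlib

/-! # AS.Few : iterated averaging (about 120 lines)

Induction over `j ≤ s`: there are `S ⊆ X` with `j` elements and `Z ⊆ A` with `m (4 N)^(s - j) ≤ |Z|` and `R x z` for all `x ∈ S`, `z ∈ Z`. Step: for `v ∈ Z` let `Y v` be the set given by `hA`.
`Θ Σ_{S} w ≤ j n ≤ s n` and `2 N s ≤ Θ` give `2 N Σ_{S} w ≤ n` (for `s ≥ 1`), so `2 N Σ_{Y v \ S} w ≥ 2 n - n = n`. Double counting: `Σ_{x ∈ X \ S} w x * |{v ∈ Z : x ∈ Y v}| = Σ_{v ∈ Z} Σ_{Y v \ S} w`, so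
`2 N Σ_{x ∈ X \ S} w x * |{v ∈ Z : x ∈ Y v}| ≥ |Z| n ≥ m (4 N)^(s - j) n = 4 N a n` with `a = m (4 N)^(s - j - 1)` (`N ≥ 1` because `hA` holds for some `v`: `A` is not empty as `m (4N)^s ≥ 1`, or `s = 0`). If all `|{v ∈ Z : x ∈ Y v}| ≤ a - 1` the left side would be at most
`2 N (a - 1) 2 n < 4 N a n`. So some `x ∈ X \ S` has `a ≤ |{v ∈ Z : x ∈ Y v}|`: add it to `S`. -/

namespace H67.AS

private theorem Few_step {α β : Type} (X : Finset α) (A : Finset β) (w : α → ℕ)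
    (s m n N Θ : ℕ) (hn : 1 ≤ n) (hm : 1 ≤ m) (hN : 1 ≤ N) (hw : ∑ x ∈ X, w x ≤ 2 * n) (hmax : ∀ x ∈ X, Θ * w x ≤ n)
    (hΘ : 2 * N * s ≤ Θ) (Y : β → Finset α) (hYX : ∀ v ∈ A, Y v ⊆ X) (hYw : ∀ v ∈ A, n ≤ N * ∑ x ∈ Y v, w x)
    (j : ℕ) (hj : j < s) (S : Finset α) (hS : S ⊆ X) (hSc : S.card = j) (Z : Finset β) (hZ : Z ⊆ A)
    (hZc : m * (4 * N) ^ (s - j) ≤ Z.card) :
    ∃ x ∈ X, x ∉ S ∧ ∃ Z' ⊆ Z, m * (4 * N) ^ (s - (j + 1)) ≤ Z'.card ∧ ∀ v ∈ Z', x ∈ Y v := by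
  classical
  by_contra hcon
  push Not at hcon
  set a := m * (4 * N) ^ (s - (j + 1)) with ha
  have hapos : 1 ≤ a := Nat.mul_pos hm (Nat.pow_pos (by omega))
  have hsj : s - j = s - (j + 1) + 1 := by omega
  have hZa : 4 * N * a ≤ Z.card := by
    refine le_trans (le_of_eq ?_) hZc
    rw [hsj, pow_succ, ha]
    ring
  have hd : ∀ x ∈ X \ S, (Z.filter (fun v => x ∈ Y v)).card ≤ a - 1 := by
    intro x hx
    rw [Finset.mem_sdiff] at hx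
    by_contra hlt
    obtain ⟨v, hv, hxv⟩ := hcon x hx.1 hx.2 (Z.filter (fun v => x ∈ Y v)) (Finset.filter_subset _ _) (by omega)
    exact hxv (Finset.mem_filter.1 hv).2
  have hSw : 2 * N * ∑ x ∈ S, w x ≤ n := by
    have h1 : Θ * ∑ x ∈ S, w x ≤ S.card * n := by
      rw [Finset.mul_sum, ← smul_eq_mul (S.card)]
      exact Finset.sum_le_card_nsmul _ _ _ (fun x hx => hmax x (hS hx))
    have h2 : 2 * N * s * ∑ x ∈ S, w x ≤ s * n := by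
      calc 2 * N * s * ∑ x ∈ S, w x ≤ Θ * ∑ x ∈ S, w x := Nat.mul_le_mul_right _ hΘ
        _ ≤ S.card * n := h1
        _ ≤ s * n := Nat.mul_le_mul_right _ (by omega)
    have h3 : s * (2 * N * ∑ x ∈ S, w x) ≤ s * n := by
      calc s * (2 * N * ∑ x ∈ S, w x) = 2 * N * s * ∑ x ∈ S, w x := by ring
        _ ≤ s * n := h2
    exact Nat.le_of_mul_le_mul_left h3 (by omega)
  have hrow : ∀ v ∈ Z, n ≤ 2 * N * ∑ x ∈ Y v \ S, w x := by
    intro v hv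
    have h1 := hYw v (hZ hv)
    have h2 : ∑ x ∈ Y v, w x ≤ ∑ x ∈ Y v \ S, w x + ∑ x ∈ S, w x := by
      have h3 : ∑ x ∈ Y v ∩ S, w x + ∑ x ∈ Y v \ S, w x = ∑ x ∈ Y v, w x :=
        Finset.sum_inter_add_sum_sdiff (Y v) S w
      have h4 : ∑ x ∈ Y v ∩ S, w x ≤ ∑ x ∈ S, w x :=
        Finset.sum_le_sum_of_subset Finset.inter_subset_right
      omega
    have h5 : N * ∑ x ∈ Y v, w x ≤ N * ∑ x ∈ Y v \ S, w x + N * ∑ x ∈ S, w x := by
      rw [← Nat.mul_add]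
      exact Nat.mul_le_mul_left _ h2
    have h6 : 2 * N * ∑ x ∈ S, w x = 2 * (N * ∑ x ∈ S, w x) := by ring
    have h7 : 2 * N * ∑ x ∈ Y v \ S, w x = 2 * (N * ∑ x ∈ Y v \ S, w x) := by ring
    omega
  have hdc : ∑ v ∈ Z, ∑ x ∈ Y v \ S, w x = ∑ x ∈ X \ S, w x * (Z.filter (fun v => x ∈ Y v)).card := by
    have h1 : ∀ v ∈ Z, ∑ x ∈ Y v \ S, w x = ∑ x ∈ X \ S, if x ∈ Y v then w x else 0 := by
      intro v hv
      rw [← Finset.sum_filter]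
      congr 1
      ext x
      simp only [Finset.mem_sdiff, Finset.mem_filter]
      have h2 := hYX v (hZ hv)
      constructor
      · rintro ⟨hx, hxS⟩
        exact ⟨⟨h2 hx, hxS⟩, hx⟩
      · rintro ⟨⟨_, hxS⟩, hx⟩
        exact ⟨hx, hxS⟩
    rw [Finset.sum_congr rfl h1, Finset.sum_comm]
    refine Finset.sum_congr rfl ?_
    intro x _
    rw [← Finset.sum_filter, Finset.sum_const, smul_eq_mul, mul_comm]
  have hlow : Z.card * n ≤ 2 * N * ∑ x ∈ X \ S, w x * (Z.filter (fun v => x ∈ Y v)).card := by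
    rw [← hdc, Finset.mul_sum, ← smul_eq_mul (Z.card)]
    exact Finset.card_nsmul_le_sum _ _ _ hrow
  have hup : ∑ x ∈ X \ S, w x * (Z.filter (fun v => x ∈ Y v)).card ≤ (a - 1) * (2 * n) := by
    calc ∑ x ∈ X \ S, w x * (Z.filter (fun v => x ∈ Y v)).card
        ≤ ∑ x ∈ X \ S, w x * (a - 1) := Finset.sum_le_sum (fun x hx => Nat.mul_le_mul_left _ (hd x hx))
      _ = (a - 1) * ∑ x ∈ X \ S, w x := by rw [← Finset.sum_mul, mul_comm]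
      _ ≤ (a - 1) * ∑ x ∈ X, w x :=
          Nat.mul_le_mul_left _ (Finset.sum_le_sum_of_subset Finset.sdiff_subset)
      _ ≤ (a - 1) * (2 * n) := Nat.mul_le_mul_left _ hw
  have h1 : 4 * N * a * n ≤ 4 * N * (a - 1) * n := by
    calc 4 * N * a * n ≤ Z.card * n := Nat.mul_le_mul_right _ hZa
      _ ≤ 2 * N * ∑ x ∈ X \ S, w x * (Z.filter (fun v => x ∈ Y v)).card := hlow
      _ ≤ 2 * N * ((a - 1) * (2 * n)) := Nat.mul_le_mul_left _ hup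
      _ = 4 * N * (a - 1) * n := by ring
  have h2 : 4 * N * a ≤ 4 * N * (a - 1) := Nat.le_of_mul_le_mul_right h1 hn
  have h3 : a ≤ a - 1 := Nat.le_of_mul_le_mul_left h2 (by omega)
  omega

theorem few_crit {α β : Type} (X : Finset α) (A : Finset β) (R : α → β → Prop) (w : α → ℕ)
    (s m n N Θ : ℕ) (hn : 1 ≤ n) (hm : 1 ≤ m) (hN : 1 ≤ N) (hw : ∑ x ∈ X, w x ≤ 2 * n) (hmax : ∀ x ∈ X, Θ * w x ≤ n)
    (hΘ : 2 * N * s ≤ Θ) (hA : ∀ v ∈ A, ∃ Y ⊆ X, (∀ x ∈ Y, R x v) ∧ n ≤ N * ∑ x ∈ Y, w x)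
    (hc : m * (4 * N) ^ s ≤ A.card) :
    ∃ S ⊆ X, S.card = s ∧ ∃ Z ⊆ A, m ≤ Z.card ∧ ∀ x ∈ S, ∀ z ∈ Z, R x z := by
  classical
  have hch : ∀ v, ∃ Y : Finset α, v ∈ A → (Y ⊆ X ∧ (∀ x ∈ Y, R x v) ∧ n ≤ N * ∑ x ∈ Y, w x) := by
    intro v
    by_cases hv : v ∈ A
    · obtain ⟨Y, h1, h2⟩ := hA v hv
      exact ⟨Y, fun _ => ⟨h1, h2⟩⟩
    · exact ⟨∅, fun h => absurd h hv⟩
  choose Y hY using hch
  have key : ∀ j, j ≤ s → ∃ S ⊆ X, S.card = j ∧ ∃ Z ⊆ A, m * (4 * N) ^ (s - j) ≤ Z.card ∧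
      ∀ x ∈ S, ∀ z ∈ Z, R x z := by
    intro j
    induction j with
    | zero =>
      intro _
      refine ⟨∅, Finset.empty_subset _, Finset.card_empty, A, Finset.Subset.refl _, by simpa using hc, ?_⟩
      intro x hx
      exact absurd hx (Finset.notMem_empty x)
    | succ j ih =>
      intro hj
      obtain ⟨S, hS, hSc, Z, hZ, hZc, hR⟩ := ih (by omega)
      obtain ⟨x, hxX, hxS, Z', hZ', hZc', hY'⟩ := Few_step X A w s m n N Θ hn hm hN hw hmax hΘ Y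
        (fun v hv => (hY v hv).1) (fun v hv => (hY v hv).2.2) j (by omega) S hS hSc Z hZ hZc
      refine ⟨insert x S, ?_, ?_, Z', hZ'.trans hZ, hZc', ?_⟩
      · intro y hy
        rcases Finset.mem_insert.1 hy with rfl | hy
        · exact hxX
        · exact hS hy
      · rw [Finset.card_insert_of_notMem hxS, hSc]
      · intro y hy z hz
        rcases Finset.mem_insert.1 hy with rfl | hy
        · exact (hY z (hZ (hZ' hz))).2.1 y (hY' z hz)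
        · exact hR y hy z (hZ' hz)
  obtain ⟨S, hS, hSc, Z, hZ, hZc, hR⟩ := key s le_rfl
  refine ⟨S, hS, hSc, Z, hZ, ?_, hR⟩
  simpa using hZc

end H67.AS
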