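import Pool.Agent.H67.AS.Def
import Pool.Agent.H67.AS.Few
import Pool.Agent.H67.SG.TDeg

/-! # AS.Bnd : numbers of critical positions, hubs and big vertices (about 120 lines)

`crit_bound`: suppose `m (32 K)^s ≤ |Z|`. `few_crit` with `X' = {x ∈ X | φ x ∈ V ∧ Θ deg x < n}`, `A = Z.image φ` (as many elements as `Z`, by `hP.inj`), `R x v = C.Adj (φ x) v`, `w = deg T`, `N = 8 K`;
`Y = medRed … v`; `Σ deg ≤ 2 n` by `sum_deg`. The result `S` has `φ(S) ⊆ V` with `s` elements (injective) and the `m ≤ |Z'|` elements of `Z' ⊆ V` are common red neighbours: contradiction to `KFree`.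
`hubs_card`: `D |hubs| ≤ Σ deg ≤ 2 n`. `big_card`: `n |{x | n ≤ Θ deg x}| ≤ Θ Σ deg ≤ 2 Θ n`.
`avail_bound`: `S = bigRed … v`, `|S| ≤ s` by `hP.few`. Every `y ∈ outs T S` lies in `avail \ hubs`, in `X`, in `hubs` or is a neighbour of some `x ∈ medRed … v` (if `y ∉ X` and `x ∈ X`, `T.Adj x y`, `C.Adj (φ x) v`
then `φ x ∈ V` by `closed`; if `x` is big it is in `S`, excluded; otherwise `x ∈ medRed`). So `4 n ≤ 4 K |outs| ≤ 4 K |avail \ hubs| + n + n`. -/

namespace H67.AS

open SimpleGraph Pool.Agent.H62.Decomp H67.SG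

private theorem Bnd_sum_le {n : ℕ} (T : SimpleGraph (Fin n)) (hT : T.IsTree) (A : Finset (Fin n)) :
    ∑ x ∈ A, deg T x ≤ 2 * n := by
  have h1 := sum_deg T hT
  have h2 : ∑ x ∈ A, deg T x ≤ ∑ x, deg T x := Finset.sum_le_sum_of_subset (Finset.subset_univ A)
  omega

theorem crit_bound {n : ℕ} {W : Type} {T : SimpleGraph (Fin n)} (hT : T.IsTree) {C : SimpleGraph W}
    {V U G : Finset W} {s Θ D : ℕ} {X : Finset (Fin n)} {φ : Fin n → W} (hP : Pl T C V U G s Θ D X φ) (m K : ℕ)
    (hm : 1 ≤ m) (hK : 1 ≤ K) (hKF : KFree C V s m) (hΘ : 16 * K * s ≤ Θ) (Z : Finset (Fin n))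
    (hZ : Crit T C V Θ K X φ Z) : Z.card < m * (32 * K) ^ s := by
  classical
  by_contra hcon
  rw [not_lt] at hcon
  have hpos : 0 < m * (32 * K) ^ s := Nat.mul_pos hm (Nat.pow_pos (by omega))
  have hn : 1 ≤ n := by
    rcases Nat.eq_zero_or_pos n with h0 | h0
    · subst h0
      have h1 := Finset.card_le_univ Z
      rw [Fintype.card_fin] at h1
      omega
    · exact h0
  have hinj : Set.InjOn φ (Z : Set (Fin n)) := by
    intro x hx y hy hxy
    exact hP.inj x (hZ x hx).1 y (hZ y hy).1 hxy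
  have hA : (Z.image φ).card = Z.card := Finset.card_image_of_injOn hinj
  obtain ⟨S, hS, hSc, Z', hZ', hZc, hR⟩ := few_crit (X.filter (fun x => φ x ∈ V ∧ Θ * deg T x < n))
    (Z.image φ) (fun x v => C.Adj (φ x) v) (fun x => deg T x) s m n (8 * K) Θ hn hm (by omega)
    (Bnd_sum_le T hT _) (by
      intro x hx
      exact (Finset.mem_filter.1 hx).2.2.le)
    (by
      have h1 : 2 * (8 * K) * s = 16 * K * s := by ring
      rw [h1]
      exact hΘ)
    (by
      intro v hv
      obtain ⟨z, hz, rfl⟩ := Finset.mem_image.1 hv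
      refine ⟨medRed T C V Θ X φ (φ z), ?_, ?_, (hZ z hz).2.2⟩
      · intro x hx
        unfold medRed at hx
        rw [Finset.mem_filter] at hx ⊢
        exact ⟨hx.1, hx.2.1, hx.2.2.1⟩
      · intro x hx
        unfold medRed at hx
        rw [Finset.mem_filter] at hx
        exact hx.2.2.2)
    (by
      rw [hA]
      have h1 : 4 * (8 * K) = 32 * K := by ring
      rw [h1]
      exact hcon)
  have hSX : ∀ x ∈ S, x ∈ X ∧ φ x ∈ V := by
    intro x hx
    have h1 := Finset.mem_filter.1 (hS hx)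
    exact ⟨h1.1, h1.2.1⟩
  have h1 := hKF (S.image φ) Z' (by
      intro w hw
      obtain ⟨x, hx, rfl⟩ := Finset.mem_image.1 hw
      exact (hSX x hx).2)
    (by
      rw [Finset.card_image_of_injOn, hSc]
      intro x hx y hy hxy
      exact hP.inj x (hSX x hx).1 y (hSX y hy).1 hxy)
    (by
      intro w hw
      obtain ⟨z, hz, rfl⟩ := Finset.mem_image.1 (hZ' hw)
      exact (hZ z hz).2.1)
    (by
      intro w hw z hz
      obtain ⟨x, hx, rfl⟩ := Finset.mem_image.1 hw
      exact hR x hx z hz)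
  omega

theorem hubs_card {n : ℕ} (T : SimpleGraph (Fin n)) (hT : T.IsTree) (D : ℕ) :
    D * (hubs T D).card ≤ 2 * n := by
  classical
  refine le_trans ?_ (Bnd_sum_le T hT (hubs T D))
  rw [mul_comm, ← smul_eq_mul]
  refine Finset.card_nsmul_le_sum _ _ _ ?_
  intro x hx
  unfold hubs at hx
  exact (Finset.mem_filter.1 hx).2

open Classical in
theorem big_card {n : ℕ} (T : SimpleGraph (Fin n)) (hT : T.IsTree) (hn : 1 ≤ n) (Θ : ℕ) :
    (Finset.univ.filter (fun x : Fin n => n ≤ Θ * deg T x)).card ≤ 2 * Θ := by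
  set B := Finset.univ.filter (fun x : Fin n => n ≤ Θ * deg T x) with hB
  have h1 : B.card * n ≤ ∑ x ∈ B, Θ * deg T x := by
    rw [← smul_eq_mul]
    refine Finset.card_nsmul_le_sum _ _ _ ?_
    intro x hx
    exact (Finset.mem_filter.1 hx).2
  rw [← Finset.mul_sum] at h1
  have h2 : Θ * ∑ x ∈ B, deg T x ≤ Θ * (2 * n) := Nat.mul_le_mul_left _ (Bnd_sum_le T hT B)
  have h3 : B.card * n ≤ 2 * Θ * n := by
    calc B.card * n ≤ Θ * (2 * n) := h1.trans h2
      _ = 2 * Θ * n := by ring
  exact Nat.le_of_mul_le_mul_right h3 hn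

open Classical in
theorem avail_bound {n : ℕ} {W : Type} {T : SimpleGraph (Fin n)} {C : SimpleGraph W} {V U G : Finset W} {s Θ D : ℕ}
    {X : Finset (Fin n)} {φ : Fin n → W} (hP : Pl T C V U G s Θ D X φ) (K : ℕ) (hU : Undom T s K) (v : W)
    (hv : v ∈ V) (hw : 4 * K * wt T C V Θ X φ v ≤ n) (hX : 4 * K * (X.card + (hubs T D).card) ≤ n) :
    n ≤ 2 * K * ((avail T C X φ v) \ hubs T D).card := by
  have h0 := hU (bigRed T C V Θ X φ v) (hP.few v hv)
  have hsub : outs T (bigRed T C V Θ X φ v) ⊆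
      (((avail T C X φ v) \ hubs T D) ∪ (X ∪ hubs T D)) ∪
        (medRed T C V Θ X φ v).biUnion (fun x => Finset.univ.filter (fun y => T.Adj x y)) := by
    intro y hy
    unfold outs at hy
    rw [Finset.mem_filter] at hy
    by_contra hcon
    simp only [Finset.mem_union, not_or, Finset.mem_sdiff, not_and, not_not] at hcon
    obtain ⟨⟨h1, hX, hH⟩, hN⟩ := hcon
    have hna : y ∉ avail T C X φ v := fun h => hH (h1 h)
    unfold avail at hna
    rw [Finset.mem_filter] at hna
    push Not at hna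
    obtain ⟨x, hx, hxy, hC⟩ := hna (Finset.mem_univ _) hX
    have hV : φ x ∈ V := by
      rcases hP.mem x hx with h | h
      · exact h
      · exact absurd (hP.closed x hx h y hxy) hX
    rcases Nat.lt_or_ge (Θ * deg T x) n with hb | hb
    · apply hN
      rw [Finset.mem_biUnion]
      refine ⟨x, ?_, ?_⟩
      · unfold medRed
        rw [Finset.mem_filter]
        exact ⟨hx, hV, hb, hC⟩
      · rw [Finset.mem_filter]
        exact ⟨Finset.mem_univ _, hxy⟩
    · refine hy.2.2 x ?_ hxy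
      unfold bigRed
      rw [Finset.mem_filter]
      exact ⟨hx, hV, hb, hC⟩
  have hcard := Finset.card_le_card hsub
  have h1 := Finset.card_union_le (((avail T C X φ v) \ hubs T D) ∪ (X ∪ hubs T D))
    ((medRed T C V Θ X φ v).biUnion (fun x => Finset.univ.filter (fun y => T.Adj x y)))
  have h2 := Finset.card_union_le ((avail T C X φ v) \ hubs T D) (X ∪ hubs T D)
  have h3 := Finset.card_union_le X (hubs T D)
  have h4 : ((medRed T C V Θ X φ v).biUnion (fun x => Finset.univ.filter (fun y => T.Adj x y))).card ≤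
      wt T C V Θ X φ v := by
    refine Finset.card_biUnion_le.trans ?_
    unfold wt
    refine Finset.sum_le_sum ?_
    intro x _
    unfold deg dg
    exact le_of_eq rfl
  have h5 : (outs T (bigRed T C V Θ X φ v)).card ≤ ((avail T C X φ v) \ hubs T D).card +
      (X.card + (hubs T D).card) + wt T C V Θ X φ v := by omega
  have h6 : 4 * (K * (outs T (bigRed T C V Θ X φ v)).card) ≤
      4 * K * ((avail T C X φ v) \ hubs T D).card + 4 * K * (X.card + (hubs T D).card) +
        4 * K * wt T C V Θ X φ v := by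
    calc 4 * (K * (outs T (bigRed T C V Θ X φ v)).card)
        ≤ 4 * (K * (((avail T C X φ v) \ hubs T D).card + (X.card + (hubs T D).card) +
            wt T C V Θ X φ v)) := Nat.mul_le_mul_left _ (Nat.mul_le_mul_left _ h5)
      _ = _ := by ring
  have h7 : 4 * K * ((avail T C X φ v) \ hubs T D).card =
      2 * (2 * K * ((avail T C X φ v) \ hubs T D).card) := by ring
  omega

end H67.AS
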