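import Pool.Agent.H67.AS.Hall

/-! # AS.Fill : removing the conflicts by transpositions (about 200 lines; compare `H67.SG.Switch`)

Among the maps `φ` as in `hall` (injective, `= φ₀` on `X`, `φ y ∈ Q` and no red edge to `X` for `y ∉ X`) take one with the least number of conflicts, ordered pairs `(x, y)`, `x, y ∉ X`, with `T.Adj x y` and `C.Adj (φ x) (φ y)`. Suppose `(y, u)` is a conflict, `v = φ y`. `φ` is a bijection of the vertices outside `X` onto `Q`
(`hQ`). Choose `z` among the at least `A` vertices allowed for `v` (`h3`), but outside: `{y}`, the neighbours of `y` (`≤ D`), the `z ∉ X` with `C.Adj (φ u') (φ z)` for some neighbour `u'` of `y` (at most `D` neighbours, each at most `ρ` positions in `Q`: `h1` for `u' ∈ X`, `h2` for `u' ∉ X`), and the neighbours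
`z` of the vertices `φ⁻¹ b`, `b ∈ Q` a red neighbour of `v` (at most `ρ` of them, each with at most `D` neighbours). Possible by `h4`. `φ' = φ ∘ swap y z`: `φ' y = φ z`, `φ' z = v`. It is again of the allowed kind (`z` is allowed for `v`; `y` for `φ z` because the neighbours of `y` in `X` are among the `u'`), an edge at `y` is not a
conflict any more, an edge `z u''` neither, all other pairs are unchanged: fewer conflicts. So the minimum has no conflicts, and with `hX` the map is a copy of `T` in `Cᶜ` (`contained_of_map`). -/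

namespace H67.AS

open SimpleGraph Pool.Agent.H62.Decomp H67.SG

open Classical in
private noncomputable def conf {n : ℕ} {W : Type} (T : SimpleGraph (Fin n)) (C : SimpleGraph W)
    (X : Finset (Fin n)) (φ : Fin n → W) : Finset (Fin n × Fin n) :=
  Finset.univ.filter (fun p => p.1 ∉ X ∧ p.2 ∉ X ∧ T.Adj p.1 p.2 ∧ C.Adj (φ p.1) (φ p.2))

private def Ok {n : ℕ} {W : Type} (T : SimpleGraph (Fin n)) (C : SimpleGraph W)
    (X : Finset (Fin n)) (φ₀ : Fin n → W) (Q : Finset W) (φ : Fin n → W) : Prop :=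
  Function.Injective φ ∧ (∀ x ∈ X, φ x = φ₀ x) ∧ (∀ y, y ∉ X → φ y ∈ Q) ∧
    ∀ y, y ∉ X → ∀ x ∈ X, T.Adj x y → ¬ C.Adj (φ x) (φ y)

open Classical in
private theorem count {n : ℕ} {W : Type} (C : SimpleGraph W) (X : Finset (Fin n)) (Q : Finset W)
    (φ : Fin n → W) (hφ : Function.Injective φ) (hQ : ∀ y, y ∉ X → φ y ∈ Q) (w : W) (ρ : ℕ)
    (h : dg C w Q ≤ ρ) :
    (Finset.univ.filter (fun z => z ∉ X ∧ C.Adj w (φ z))).card ≤ ρ := by
  refine le_trans ?_ h
  unfold dg
  apply Finset.card_le_card_of_injOn φ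
  · intro z hz
    have hz' := (Finset.mem_filter.mp (Finset.mem_coe.mp hz)).2
    exact Finset.mem_coe.mpr (Finset.mem_filter.mpr ⟨hQ z hz'.1, hz'.2⟩)
  · exact fun a _ b _ hab => hφ hab

open Classical in
private theorem step {n : ℕ} {W : Type} (T : SimpleGraph (Fin n)) (C : SimpleGraph W)
    (X : Finset (Fin n)) (φ₀ : Fin n → W) (Q : Finset W) (D ρ A : ℕ)
    (hD : ∀ y, y ∉ X → deg T y ≤ D)
    (h1 : ∀ x ∈ X, ∀ y, y ∉ X → T.Adj x y → dg C (φ₀ x) Q ≤ ρ) (h2 : ∀ v ∈ Q, dg C v Q ≤ ρ)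
    (h3 : ∀ v ∈ Q, A ≤ (Finset.univ.filter (fun y => y ∉ X ∧ ∀ x ∈ X, T.Adj x y → ¬ C.Adj (φ₀ x) v)).card)
    (h4 : 2 * (D * ρ) + D + 1 < A) (φ : Fin n → W) (hφ : Ok T C X φ₀ Q φ) (y u : Fin n)
    (hyX : y ∉ X) (huX : u ∉ X) (hyu : T.Adj y u) (hc : C.Adj (φ y) (φ u)) :
    ∃ φ' : Fin n → W, Ok T C X φ₀ Q φ' ∧ (conf T C X φ').card < (conf T C X φ).card := by
  obtain ⟨hinj, hX0, hQ, hcr⟩ := hφ
  have hv : φ y ∈ Q := hQ y hyX
  let E2 : Finset (Fin n) := Finset.univ.filter (fun z => T.Adj y z)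
  let E3 : Finset (Fin n) :=
    E2.biUnion (fun w => Finset.univ.filter (fun z => z ∉ X ∧ C.Adj (φ w) (φ z)))
  let B4 : Finset (Fin n) := Finset.univ.filter (fun w => w ∉ X ∧ C.Adj (φ y) (φ w))
  let E4 : Finset (Fin n) := B4.biUnion (fun w => Finset.univ.filter (fun z => T.Adj w z))
  have c2 : E2.card ≤ D := hD y hyX
  have c3 : E3.card ≤ D * ρ := by
    refine le_trans (Finset.card_biUnion_le_card_mul _ _ ρ ?_) (Nat.mul_le_mul_right ρ c2)
    intro w hw
    have hw' : T.Adj y w := (Finset.mem_filter.mp hw).2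
    apply count C X Q φ hinj hQ
    by_cases hwX : w ∈ X
    · rw [hX0 w hwX]
      exact h1 w hwX y hyX hw'.symm
    · exact h2 _ (hQ w hwX)
  have c4 : E4.card ≤ D * ρ := by
    have hB : B4.card ≤ ρ := count C X Q φ hinj hQ (φ y) ρ (h2 _ hv)
    refine le_trans (Finset.card_biUnion_le_card_mul _ _ D ?_) ?_
    · intro w hw
      exact hD w (Finset.mem_filter.mp hw).2.1
    · rw [Nat.mul_comm]
      exact Nat.mul_le_mul_left D hB
  have hE : (insert y (E2 ∪ (E3 ∪ E4))).card < A := by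
    have a1 := Finset.card_insert_le y (E2 ∪ (E3 ∪ E4))
    have a2 := Finset.card_union_le E2 (E3 ∪ E4)
    have a3 := Finset.card_union_le E3 E4
    omega
  obtain ⟨z, hzP, hzE⟩ := Finset.exists_mem_notMem_of_card_lt_card (lt_of_lt_of_le hE (h3 _ hv))
  have hzP' := (Finset.mem_filter.mp hzP).2
  have hzX : z ∉ X := hzP'.1
  simp only [Finset.mem_insert, Finset.mem_union, not_or] at hzE
  obtain ⟨hzy, hz2, hz3, hz4⟩ := hzE
  have n2 : ¬ T.Adj y z := fun h => hz2 (Finset.mem_filter.mpr ⟨Finset.mem_univ _, h⟩)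
  have n3 : ∀ w, T.Adj y w → ¬ C.Adj (φ w) (φ z) := by
    intro w hw hcw
    exact hz3 (Finset.mem_biUnion.mpr ⟨w, Finset.mem_filter.mpr ⟨Finset.mem_univ _, hw⟩,
      Finset.mem_filter.mpr ⟨Finset.mem_univ _, hzX, hcw⟩⟩)
  have n4 : ∀ w, w ∉ X → C.Adj (φ y) (φ w) → ¬ T.Adj w z := by
    intro w hw hcw ht
    exact hz4 (Finset.mem_biUnion.mpr ⟨w, Finset.mem_filter.mpr ⟨Finset.mem_univ _, hw, hcw⟩,
      Finset.mem_filter.mpr ⟨Finset.mem_univ _, ht⟩⟩)
  have sy : (Equiv.swap y z) y = z := Equiv.swap_apply_left y z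
  have sz : (Equiv.swap y z) z = y := Equiv.swap_apply_right y z
  have sn : ∀ w, w ≠ y → w ≠ z → (Equiv.swap y z) w = w := fun w => Equiv.swap_apply_of_ne_of_ne
  refine ⟨φ ∘ Equiv.swap y z, ⟨hinj.comp (Equiv.injective _), ?_, ?_, ?_⟩, ?_⟩
  · intro x hx
    have e1 : x ≠ y := fun h => hyX (h ▸ hx)
    have e2 : x ≠ z := fun h => hzX (h ▸ hx)
    rw [Function.comp_apply, sn x e1 e2]
    exact hX0 x hx
  · intro w hw
    rw [Function.comp_apply]
    by_cases e1 : w = y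
    · rw [e1, sy]
      exact hQ z hzX
    · by_cases e2 : w = z
      · rw [e2, sz]
        exact hv
      · rw [sn w e1 e2]
        exact hQ w hw
  · intro w hw x hx hxw
    have e3 : x ≠ y := fun h => hyX (h ▸ hx)
    have e4 : x ≠ z := fun h => hzX (h ▸ hx)
    rw [Function.comp_apply, Function.comp_apply, sn x e3 e4]
    by_cases e1 : w = y
    · rw [e1, sy]
      rw [e1] at hxw
      exact n3 x hxw.symm
    · by_cases e2 : w = z
      · rw [e2, sz, hX0 x hx]
        rw [e2] at hxw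
        exact hzP'.2 x hx hxw
      · rw [sn w e1 e2]
        exact hcr w hw x hx hxw
  · -- a conflict of the new map does not involve `y`, `z`
    have key : ∀ a b, a ∉ X → b ∉ X → T.Adj a b →
        C.Adj (φ ((Equiv.swap y z) a)) (φ ((Equiv.swap y z) b)) →
        (a ≠ y ∧ a ≠ z) ∧ (b ≠ y ∧ b ≠ z) := by
      have half : ∀ a b, a ∉ X → b ∉ X → T.Adj a b →
          C.Adj (φ ((Equiv.swap y z) a)) (φ ((Equiv.swap y z) b)) → a ≠ y ∧ a ≠ z := by
        intro a b ha hb hab hcab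
        constructor
        · intro e
          rw [e] at hab hcab
          have b1 : b ≠ y := fun h => T.irrefl (h ▸ hab)
          have b2 : b ≠ z := fun h => n2 (h ▸ hab)
          rw [sy, sn b b1 b2] at hcab
          exact n3 b hab hcab.symm
        · intro e
          rw [e] at hab hcab
          have b1 : b ≠ y := fun h => n2 (h ▸ hab.symm)
          have b2 : b ≠ z := fun h => T.irrefl (h ▸ hab)
          rw [sz, sn b b1 b2] at hcab
          exact n4 b hb hcab hab.symm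
      intro a b ha hb hab hcab
      exact ⟨half a b ha hb hab hcab, half b a hb ha hab.symm hcab.symm⟩
    apply Finset.card_lt_card
    rw [Finset.ssubset_iff_of_subset]
    · refine ⟨(y, u), Finset.mem_filter.mpr ⟨Finset.mem_univ _, hyX, huX, hyu, hc⟩, ?_⟩
      intro hmem
      obtain ⟨-, -, -, -, hcc⟩ := Finset.mem_filter.mp hmem
      exact (key y u hyX huX hyu hcc).1.1 rfl
    · rintro ⟨a, b⟩ hab
      obtain ⟨-, ha, hb, hab', hcc⟩ := Finset.mem_filter.mp hab
      obtain ⟨⟨a1, a2⟩, b1, b2⟩ := key a b ha hb hab' hcc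
      simp only [Function.comp_apply] at hcc
      rw [sn a a1 a2, sn b b1 b2] at hcc
      exact Finset.mem_filter.mpr ⟨Finset.mem_univ _, ha, hb, hab', hcc⟩

open Classical in
theorem fill {n : ℕ} {W : Type} (T : SimpleGraph (Fin n)) (C : SimpleGraph W) (X : Finset (Fin n))
    (φ₀ : Fin n → W) (Q : Finset W) (D ρ A : ℕ) (hinj : ∀ x ∈ X, ∀ y ∈ X, φ₀ x = φ₀ y → x = y)
    (hdis : ∀ x ∈ X, φ₀ x ∉ Q) (hQ : Q.card + X.card = n) (hD : ∀ y, y ∉ X → deg T y ≤ D)
    (h1 : ∀ x ∈ X, ∀ y, y ∉ X → T.Adj x y → dg C (φ₀ x) Q ≤ ρ) (h2 : ∀ v ∈ Q, dg C v Q ≤ ρ)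
    (h3 : ∀ v ∈ Q, A ≤ (Finset.univ.filter (fun y => y ∉ X ∧ ∀ x ∈ X, T.Adj x y → ¬ C.Adj (φ₀ x) v)).card)
    (h4 : 2 * (D * ρ) + D + 1 < A)
    (hX : ∀ x ∈ X, ∀ y ∈ X, T.Adj x y → ¬ C.Adj (φ₀ x) (φ₀ y)) : T ⊑ Cᶜ := by
  have main : ∀ (N : ℕ) (φ : Fin n → W), Ok T C X φ₀ Q φ → (conf T C X φ).card = N → T ⊑ Cᶜ := by
    intro N
    induction N using Nat.strong_induction_on with
    | _ N ih =>
      intro φ hφ hN
      by_cases hconf : ∃ y u, y ∉ X ∧ u ∉ X ∧ T.Adj y u ∧ C.Adj (φ y) (φ u)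
      · obtain ⟨y, u, hy, hu, hyu, hc⟩ := hconf
        obtain ⟨φ', hφ', hlt⟩ := step T C X φ₀ Q D ρ A hD h1 h2 h3 h4 φ hφ y u hy hu hyu hc
        exact ih _ (hN ▸ hlt) φ' hφ' rfl
      · push Not at hconf
        obtain ⟨hi, h0, hq, hcr⟩ := hφ
        refine contained_of_map φ hi (fun x y hxy => ?_)
        rw [SimpleGraph.compl_adj]
        refine ⟨fun h => hxy.ne (hi h), ?_⟩
        by_cases hx : x ∈ X
        · by_cases hy : y ∈ X
          · rw [h0 x hx, h0 y hy]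
            exact hX x hx y hy hxy
          · exact hcr y hy x hx hxy
        · by_cases hy : y ∈ X
          · exact fun h => hcr x hx y hy hxy.symm h.symm
          · exact hconf x y hx hy hxy
  obtain ⟨φ, hφ⟩ := hall T C X φ₀ Q D ρ A hinj hdis hQ hD h1 h3 (by omega)
  exact main _ φ hφ rfl

end H67.AS
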