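import Pool.Agent.H67.AS.Def
import Pool.Agent.H57.SD.Def

/-! # AS.KFr : no `s` vertices of a class have `m` common red neighbours in the class (about 120 lines; compare `H57.SD.Cover`)

Suppose `S, Z' ⊆ V`, `|S| = s`, `m ≤ |Z'|`, all pairs red; shrink `Z'` to `m` elements, `Z i = Z'`. Choose `Z j ⊆ P j` (`j ≠ i`) with `m` elements one after the other (induction over a finset of indices not containing `i`), all elements joined in `C` to the `s + m` vertices of `S ∪ Z'` (at most `g` non-neighbours each in `P j`, `hV`) and to the elements of the sets `Z l`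
already chosen (at most `q m` elements, at most `e` non-neighbours each, `hcr`): at least `n - e - (s + m) g - q m e ≥ m` elements are available. This is `HasS q m s C` (the pairs in `S × Z'` are red by assumption), excluded. -/

namespace H67.AS

open SimpleGraph Pool.Agent.H62.Decomp H67.SG H57.SD

/-- the step of the choice of the sets `Z j` -/
private lemma choose_auxS {W : Type} (C : SimpleGraph W) (q m r n e g : ℕ) (P : Fin q → Finset W) (i : Fin q)
    (V : Finset W) (hsz : ∀ j, n ≤ (P j).card + e)
    (hcr : ∀ j l, j ≠ l → ∀ x ∈ P j, nd C x (P l) ≤ e)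
    (hV : ∀ y ∈ V, ∀ j, j ≠ i → nd C y (P j) ≤ g) (hn : r * g + q * m * e + e + m ≤ n)
    (Y : Finset W) (hYV : Y ⊆ V) (hY : Y.card ≤ r) (J : Finset (Fin q)) :
    i ∉ J → ∃ Z : Fin q → Finset W, (∀ j ∈ J, Z j ⊆ P j ∧ (Z j).card = m ∧
      ∀ z ∈ Z j, ∀ x ∈ Y, C.Adj x z) ∧
      ∀ j ∈ J, ∀ l ∈ J, j ≠ l → ∀ y ∈ Z j, ∀ z ∈ Z l, C.Adj y z := by
  classical
  refine Finset.induction_on J ?_ ?_
  · intro _
    exact ⟨fun _ => ∅, by simp, by simp⟩
  · intro j J hjJ ih hi
    rw [Finset.mem_insert, not_or] at hi
    obtain ⟨hij, hiJ⟩ := hi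
    have hji : j ≠ i := fun h => hij h.symm
    obtain ⟨Z, hZ1, hZ2⟩ := ih hiJ
    let A : Finset W := Y.biUnion (fun x => (P j).filter (fun y => ¬ C.Adj x y))
    let D : Finset W := J.biUnion (fun l => (Z l).biUnion (fun z => (P j).filter (fun y => ¬ C.Adj z y)))
    have hA : A.card ≤ r * g := by
      calc A.card ≤ ∑ x ∈ Y, ((P j).filter (fun y => ¬ C.Adj x y)).card := Finset.card_biUnion_le
        _ ≤ ∑ x ∈ Y, g := Finset.sum_le_sum (fun x hx => hV x (hYV hx) j hji)
        _ = Y.card * g := by rw [Finset.sum_const, smul_eq_mul]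
        _ ≤ r * g := Nat.mul_le_mul_right g hY
    have hD : D.card ≤ q * m * e := by
      calc D.card ≤ ∑ l ∈ J, ((Z l).biUnion (fun z => (P j).filter (fun y => ¬ C.Adj z y))).card :=
            Finset.card_biUnion_le
        _ ≤ ∑ l ∈ J, m * e := by
            apply Finset.sum_le_sum
            intro l hl
            have hlj : l ≠ j := fun h => hjJ (h ▸ hl)
            calc ((Z l).biUnion (fun z => (P j).filter (fun y => ¬ C.Adj z y))).card
                ≤ ∑ z ∈ Z l, ((P j).filter (fun y => ¬ C.Adj z y)).card := Finset.card_biUnion_le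
              _ ≤ ∑ z ∈ Z l, e := Finset.sum_le_sum (fun z hz => hcr l j hlj z ((hZ1 l hl).1 hz))
              _ = m * e := by rw [Finset.sum_const, smul_eq_mul, (hZ1 l hl).2.1]
        _ = J.card * (m * e) := by rw [Finset.sum_const, smul_eq_mul]
        _ ≤ q * (m * e) := by
            apply Nat.mul_le_mul_right
            have := Finset.card_le_univ J
            simpa using this
        _ = q * m * e := by ring
    have hbad : (A ∪ D).card ≤ r * g + q * m * e := by
      have h1 := Finset.card_union_le A D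
      omega
    have hgood : m ≤ ((P j) \ (A ∪ D)).card := by
      have h1 := Finset.le_card_sdiff (A ∪ D) (P j)
      have h2 := hsz j
      omega
    obtain ⟨S, hS, hSc⟩ := Finset.exists_subset_card_eq hgood
    have hSP : ∀ y ∈ S, y ∈ P j := fun y hy => (Finset.mem_sdiff.1 (hS hy)).1
    have hSA : ∀ y ∈ S, ∀ x ∈ Y, C.Adj x y := by
      intro y hy x hx
      by_contra h
      exact (Finset.mem_sdiff.1 (hS hy)).2 (Finset.mem_union_left _ (Finset.mem_biUnion.2
        ⟨x, hx, Finset.mem_filter.2 ⟨hSP y hy, h⟩⟩))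
    have hSD : ∀ y ∈ S, ∀ l ∈ J, ∀ z ∈ Z l, C.Adj z y := by
      intro y hy l hl z hz
      by_contra h
      exact (Finset.mem_sdiff.1 (hS hy)).2 (Finset.mem_union_right _
        (Finset.mem_biUnion.2 ⟨l, hl, Finset.mem_biUnion.2 ⟨z, hz,
          Finset.mem_filter.2 ⟨hSP y hy, h⟩⟩⟩))
    have hupd : ∀ l ∈ J, Function.update Z j S l = Z l := by
      intro l hl
      have hlj : l ≠ j := fun h => hjJ (h ▸ hl)
      exact Function.update_of_ne hlj S Z
    refine ⟨Function.update Z j S, ?_, ?_⟩
    · intro l hl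
      rw [Finset.mem_insert] at hl
      rcases hl with rfl | hl
      · rw [Function.update_self]
        exact ⟨hSP, hSc, fun z hz x hx => hSA z hz x hx⟩
      · rw [hupd l hl]
        exact hZ1 l hl
    · intro l hl k hk hlk y hy z hz
      rw [Finset.mem_insert] at hl hk
      rcases hl with rfl | hl
      · rcases hk with rfl | hk
        · exact absurd rfl hlk
        · rw [Function.update_self] at hy
          rw [hupd k hk] at hz
          exact (hSD y hy k hk z hz).symm
      · rcases hk with rfl | hk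
        · rw [Function.update_self] at hz
          rw [hupd l hl] at hy
          exact hSD z hz l hl y hy
        · rw [hupd l hl] at hy
          rw [hupd k hk] at hz
          exact hZ2 l hl k hk hlk y hy z hz

theorem kfree_of_noS {W : Type} (C : SimpleGraph W) (q m s n e g : ℕ) (P : Fin q → Finset W) (i : Fin q)
    (V : Finset W) (hsz : ∀ j, n ≤ (P j).card + e) (hcr : ∀ j l, j ≠ l → ∀ x ∈ P j, nd C x (P l) ≤ e)
    (hV : ∀ y ∈ V, ∀ j, j ≠ i → nd C y (P j) ≤ g) (hn : (s + m) * g + q * m * e + e + m ≤ n)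
    (hS : ¬ HasS q m s C) : KFree C V s m := by
  classical
  intro S Z' hSV hSc hZV hadj
  by_contra hlt
  push Not at hlt
  obtain ⟨Z0, hZ0, hZ0c⟩ := Finset.exists_subset_card_eq hlt
  have hYV : S ∪ Z0 ⊆ V := Finset.union_subset hSV (hZ0.trans hZV)
  have hY : (S ∪ Z0).card ≤ s + m := by
    have := Finset.card_union_le S Z0
    omega
  obtain ⟨Z, hZ1, hZ2⟩ := choose_auxS C q m (s + m) n e g P i V hsz hcr hV hn (S ∪ Z0) hYV hY
    (Finset.univ.erase i) (Finset.notMem_erase i _)
  have hmem : ∀ j, j ≠ i → j ∈ Finset.univ.erase i := fun j hj =>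
    Finset.mem_erase.2 ⟨hj, Finset.mem_univ _⟩
  have hupd : ∀ j, j ≠ i → Function.update Z i Z0 j = Z j := fun j hj => Function.update_of_ne hj Z0 Z
  refine hS ⟨S, Function.update Z i Z0, hSc, ?_, ?_, ?_⟩
  · intro j
    by_cases hj : j = i
    · subst hj; rw [Function.update_self]; exact hZ0c
    · rw [hupd j hj]; exact (hZ1 j (hmem j hj)).2.1
  · intro j z hz x hx
    by_cases hj : j = i
    · subst hj; rw [Function.update_self] at hz; exact hadj x hx z (hZ0 hz)
    · rw [hupd j hj] at hz
      exact (hZ1 j (hmem j hj)).2.2 z hz x (Finset.mem_union_left _ hx)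
  · intro j l hjl y hy z hz
    by_cases hj : j = i
    · subst hj
      have hl : l ≠ j := fun h => hjl h.symm
      rw [Function.update_self] at hy
      rw [hupd l hl] at hz
      exact (hZ1 l (hmem l hl)).2.2 z hz y (Finset.mem_union_right _ hy)
    · by_cases hl : l = i
      · subst hl
        rw [Function.update_self] at hz
        rw [hupd j hj] at hy
        exact ((hZ1 j (hmem j hj)).2.2 y hy z (Finset.mem_union_right _ hz)).symm
      · rw [hupd j hj] at hy
        rw [hupd l hl] at hz
        exact hZ2 j (hmem j hj) l (hmem l hl) hjl y hy z hz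

end H67.AS
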