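import Pool.Agent.H57.SD.Pop

/-! # AS.Typ : a typical tuple (about 150 lines)

`κ = (1/2)^(q+1)`, `popular q m s L κ` gives `δ`, `n₁`. `M ≥ L q 2^(q+1)`, `M ≥ 1`, `n₀ = max n₁ 1`. `Y` = the tuples `z` with `z i ∈ P i` such that `n ≤ M nd C u (P i)` whenever `u ∈ B`, `¬ C.Adj u (z i)`. The other tuples of `Fintype.piFinset P` lie, for some `u ∈ B` and `i`, in the set of tuples with `z i` in a set of less than `n / M` elements
(`M nd C u (P i) < n`): at most `L q (n / M) n^(q-1) ≤ (1/2)^(q+1) n^q` tuples together. All tuples: at least `(n/2)^q`. So `|Y| ≥ (1/2)^(q+1) n^q`. If all `z ∈ Y` had `s ≤ |{u ∈ B | ∀ i, C.Adj u (z i)}|`, `popular` would give `HasS`. -/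

namespace H67.AS

open SimpleGraph Pool.Agent.H62.Decomp H67.SG H57.SD

open Classical in
theorem card_bad_le {q : ℕ} {W : Type} (P : Fin q → Finset W) (i : Fin q) (N : Finset W) (n : ℕ)
    (hP : ∀ j, (P j).card ≤ n) :
    ((Fintype.piFinset P).filter (fun z => z i ∈ N)).card ≤ N.card * n ^ (q - 1) := by
  have h1 : (Fintype.piFinset P).filter (fun z => z i ∈ N) ⊆ Fintype.piFinset (Function.update P i N) := by
    intro z hz
    rw [Finset.mem_filter, Fintype.mem_piFinset] at hz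
    rw [Fintype.mem_piFinset]
    intro j
    by_cases hj : j = i
    · subst hj
      rw [Function.update_self]
      exact hz.2
    · rw [Function.update_of_ne hj]
      exact hz.1 j
  refine (Finset.card_le_card h1).trans ?_
  rw [Fintype.card_piFinset, ← Finset.mul_prod_erase Finset.univ _ (Finset.mem_univ i), Function.update_self]
  refine Nat.mul_le_mul_left _ ?_
  have h2 : ∀ x ∈ Finset.univ.erase i, (Function.update P i N x).card ≤ n := by
    intro x hx
    rw [Function.update_of_ne (Finset.ne_of_mem_erase hx)]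
    exact hP x
  have h3 := Finset.prod_le_pow_card (Finset.univ.erase i) (fun x => (Function.update P i N x).card) n h2
  rwa [Finset.card_erase_of_mem (Finset.mem_univ i), Finset.card_univ, Fintype.card_fin] at h3

open Classical in
theorem typical (q m s L : ℕ) (hq : 1 ≤ q) (hm : 1 ≤ m) : ∃ (M : ℕ) (δ : ℝ), 0 < δ ∧ ∃ n₀ : ℕ, ∀ n : ℕ, n₀ ≤ n →
    ∀ (W : Type) [Fintype W] (C : SimpleGraph W) (P : Fin q → Finset W) (B : Finset W),
      n ≤ Fintype.card W → Fintype.card W ≤ (q + 1) * n → (∀ i, (P i).card ≤ n) → (∀ i, n ≤ 2 * (P i).card) →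
      (∀ i j, i ≠ j → ∀ x ∈ P i, (nd C x (P j) : ℝ) ≤ δ * n) → B.card ≤ L → ¬ HasS q m s C →
      ∃ w : Fin q → W, (∀ i, w i ∈ P i) ∧ (B.filter (fun u => ∀ i, C.Adj u (w i))).card < s ∧
        ∀ u ∈ B, ∀ i, ¬ C.Adj u (w i) → n ≤ M * nd C u (P i) := by
  obtain ⟨δ, hδ, n₁, hpop⟩ := popular q m s L hq hm ((1 / 2) ^ (q + 1)) (by positivity)
  refine ⟨L * q * 2 ^ (q + 1) + 1, δ, hδ, n₁, ?_⟩
  intro n hn W _ C P B hW1 hW2 hP1 hP2 hnd hB hS
  set M : ℕ := L * q * 2 ^ (q + 1) + 1 with hM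
  by_contra hcon
  have key : ∀ w : Fin q → W, (∀ i, w i ∈ P i) → (∀ u ∈ B, ∀ i, ¬ C.Adj u (w i) → n ≤ M * nd C u (P i)) →
      s ≤ (B.filter (fun u => ∀ i, C.Adj u (w i))).card := by
    intro w h1 h2
    by_contra h3
    exact hcon ⟨w, h1, not_le.1 h3, h2⟩
  apply hS
  set Y : Set (Fin q → W) := {z | (∀ i, z i ∈ P i) ∧
    ∀ u ∈ B, ∀ i, ¬ C.Adj u (z i) → n ≤ M * nd C u (P i)} with hY
  refine hpop n hn W C P B Y hW1 hW2 hP1 hnd hB (fun z hz => ⟨hz.1, key z hz.1 hz.2⟩) ?_
  -- the count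
  set T : Finset (Fin q → W) := Fintype.piFinset P with hT
  set N : W → Fin q → Finset W := fun u i =>
    if M * nd C u (P i) < n then (P i).filter (fun y => ¬ C.Adj u y) else ∅ with hN
  have hNc : ∀ u i, M * (N u i).card ≤ n := by
    intro u i
    by_cases hc : M * nd C u (P i) < n
    · have e : N u i = (P i).filter (fun y => ¬ C.Adj u y) := if_pos hc
      rw [e]
      exact hc.le
    · have e : N u i = ∅ := if_neg hc
      rw [e]
      simp
  have hcov : T ⊆ Y.toFinset ∪ B.biUnion (fun u => Finset.univ.biUnion (fun i =>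
      T.filter (fun z => z i ∈ N u i))) := by
    intro z hz
    by_cases hzY : z ∈ Y
    · exact Finset.mem_union_left _ (Set.mem_toFinset.2 hzY)
    · refine Finset.mem_union_right _ ?_
      have hz1 : ∀ i, z i ∈ P i := Fintype.mem_piFinset.1 hz
      have h1 : ¬ ∀ u ∈ B, ∀ i, ¬ C.Adj u (z i) → n ≤ M * nd C u (P i) := fun h => hzY ⟨hz1, h⟩
      by_contra h2
      refine h1 fun u hu i hadj => ?_
      by_contra h3
      refine h2 ?_
      rw [Finset.mem_biUnion]
      refine ⟨u, hu, ?_⟩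
      rw [Finset.mem_biUnion]
      refine ⟨i, Finset.mem_univ i, ?_⟩
      rw [Finset.mem_filter]
      refine ⟨hz, ?_⟩
      have e : N u i = (P i).filter (fun y => ¬ C.Adj u y) := if_pos (not_le.1 h3)
      rw [e, Finset.mem_filter]
      exact ⟨hz1 i, hadj⟩
  have h1 : T.card ≤ Y.toFinset.card + ∑ u ∈ B, ∑ i : Fin q, (N u i).card * n ^ (q - 1) := by
    refine (Finset.card_le_card hcov).trans ((Finset.card_union_le _ _).trans ?_)
    refine Nat.add_le_add_left ?_ _
    refine Finset.card_biUnion_le.trans (Finset.sum_le_sum fun u _ => ?_)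
    refine Finset.card_biUnion_le.trans (Finset.sum_le_sum fun i _ => ?_)
    exact card_bad_le P i (N u i) n hP1
  have hnq : n * n ^ (q - 1) = n ^ q := by
    rw [← pow_succ', Nat.sub_add_cancel hq]
  have h2 : M * (∑ u ∈ B, ∑ i : Fin q, (N u i).card * n ^ (q - 1)) ≤ L * q * n ^ q := by
    rw [Finset.mul_sum]
    calc ∑ u ∈ B, M * ∑ i : Fin q, (N u i).card * n ^ (q - 1) ≤ ∑ u ∈ B, q * n ^ q := by
          refine Finset.sum_le_sum fun u _ => ?_
          rw [Finset.mul_sum]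
          calc ∑ i : Fin q, M * ((N u i).card * n ^ (q - 1)) ≤ ∑ i : Fin q, n ^ q := by
                refine Finset.sum_le_sum fun i _ => ?_
                rw [← mul_assoc, ← hnq]
                exact Nat.mul_le_mul_right _ (hNc u i)
            _ = q * n ^ q := by
                rw [Finset.sum_const, Finset.card_univ, Fintype.card_fin, smul_eq_mul]
      _ = B.card * (q * n ^ q) := by rw [Finset.sum_const, smul_eq_mul]
      _ ≤ L * (q * n ^ q) := Nat.mul_le_mul_right _ hB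
      _ = L * q * n ^ q := by ring
  have h3 : n ^ q ≤ 2 ^ q * T.card := by
    rw [hT, Fintype.card_piFinset]
    have e : 2 ^ q * ∏ i : Fin q, (P i).card = ∏ i : Fin q, (2 * (P i).card) := by
      rw [Finset.prod_mul_distrib, Finset.prod_const, Finset.card_univ, Fintype.card_fin]
    rw [e]
    have e2 : n ^ q = ∏ _i : Fin q, n := by
      rw [Finset.prod_const, Finset.card_univ, Fintype.card_fin]
    rw [e2]
    exact Finset.prod_le_prod (fun _ _ => Nat.zero_le _) fun i _ => hP2 i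
  have hYc : Y.ncard = Y.toFinset.card := Set.ncard_eq_toFinset_card' Y
  rw [hYc]
  set S : ℕ := ∑ u ∈ B, ∑ i : Fin q, (N u i).card * n ^ (q - 1) with hSdef
  -- in `ℕ`: `2 ^ (q + 1) * S ≤ n ^ q`
  have h4 : 2 ^ (q + 1) * S ≤ n ^ q := by
    by_contra h5
    have h5' : n ^ q < 2 ^ (q + 1) * S := not_le.1 h5
    have h6 : M * S = L * q * (2 ^ (q + 1) * S) + S := by rw [hM]; ring
    have h7 : L * q * n ^ q ≤ L * q * (2 ^ (q + 1) * S) := Nat.mul_le_mul_left _ h5'.le
    have h8 : S = 0 := by omega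
    rw [h8, mul_zero] at h5'
    exact absurd h5' (Nat.not_lt_zero _)
  have h1' : (T.card : ℝ) ≤ (Y.toFinset.card : ℝ) + (S : ℝ) := by exact_mod_cast h1
  have h3' : ((n : ℝ) ^ q) ≤ 2 ^ q * (T.card : ℝ) := by exact_mod_cast h3
  have h4' : (2 : ℝ) ^ (q + 1) * (S : ℝ) ≤ (n : ℝ) ^ q := by exact_mod_cast h4
  have hp : (0 : ℝ) < 2 ^ (q + 1) := by positivity
  have h9 : (2 : ℝ) ^ (q + 1) = 2 * 2 ^ q := by ring
  rw [one_div, inv_pow, inv_mul_le_iff₀ hp]
  have h10 : (2 : ℝ) ^ (q + 1) * (T.card : ℝ) ≤ 2 ^ (q + 1) * (Y.toFinset.card : ℝ) + 2 ^ (q + 1) * (S : ℝ) := by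
    rw [← mul_add]
    exact mul_le_mul_of_nonneg_left h1' hp.le
  rw [h9] at h10 h4' ⊢
  nlinarith

end H67.AS
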