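import Pool.Agent.H67.AS.Pack
import Pool.Agent.H67.AS.Typ
import Pool.Agent.H67.AS.KFr
import Pool.Agent.H67.SG.Stab
import Pool.Agent.H57.SD.Asg
import Pool.Agent.H57.SD.Bad
import Pool.Agent.H57.SD.UpperK

/-! # AS.UpperS : the upper bound (assembly, compare `H57.SD.UpperE`)

`N₁` from `pack_s s m K`; `τ = 1 / (64 (N₁ + s + m + 1))`; `bad_bound` gives `L`, `δ₁`; `typical` gives `M₂`, `δ₂`; `pack_s` gives `N₂`;
`δ ≤ δ₁, δ₂, 1 / (1000 (q+1) (m+1) (N₁ + N₂ + s + m + 1))`; `stab q m δ` gives the parts `P i`. `B`, `V i` as in `H57.SD.UpperE`: `B` = vertices with at least `τ n` red neighbours in every part, the others are distributed (`asg_one`).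
`typical` gives the tuple `w`. Every `u ∈ B` which is blue to some `w i` gets such an index; `U i` = the vertices of `B` with index `i`. At most `s - 1` vertices of `B` have no index, so some `i` has `n ≤ |V i| + |U i|`. `pack_s` with `V i`, `U i`, `G = P i`, `w i`. -/

namespace H67.AS

open SimpleGraph Pool.Agent.H62.Decomp H67.SG H57.SD

/-- the numerical facts -/
theorem us_num (q m s N₁ N₂ : ℕ) (τ δ : ℝ) (hτ : τ = 1 / (64 * ((N₁ : ℝ) + s + m + 1))) (hδ0 : 0 < δ)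
    (hδ : δ ≤ 1 / (1000 * (((q : ℝ) + 1) * ((m : ℝ) + 1) * ((N₁ : ℝ) + N₂ + s + m + 1)))) (n : ℕ)
    (hn : 1000 * (N₁ + N₂ + s + m + 1) * (s + m + 2) ≤ n) :
    4 * (⌈τ * n⌉₊ + 3 * ⌊δ * n⌋₊ + 3) ≤ n ∧
    (s + m) * (2 * (⌈τ * n⌉₊ + 2 * ⌊δ * n⌋₊ + 1)) + q * m * ⌊δ * n⌋₊ + ⌊δ * n⌋₊ + m ≤ n ∧
    N₁ * (⌈τ * n⌉₊ + ((q + 1) * ⌊δ * n⌋₊ + s) + 1) ≤ n ∧ N₂ * ((q + 1) * ⌊δ * n⌋₊ + s + 1) ≤ n ∧
    2 * ⌊δ * n⌋₊ ≤ n ∧ δ * n < τ * n := by
  have hnR : (1000 * ((N₁ : ℝ) + N₂ + s + m + 1) * (s + m + 2)) ≤ n := by exact_mod_cast hn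
  have hm0 : (0 : ℝ) ≤ m := Nat.cast_nonneg m
  have hq0 : (0 : ℝ) ≤ q := Nat.cast_nonneg q
  have hs0 : (0 : ℝ) ≤ s := Nat.cast_nonneg s
  have h10 : (0 : ℝ) ≤ N₁ := Nat.cast_nonneg N₁
  have h20 : (0 : ℝ) ≤ N₂ := Nat.cast_nonneg N₂
  obtain ⟨A, hA⟩ : ∃ A : ℝ, A = (N₁ : ℝ) + s + m + 1 := ⟨_, rfl⟩
  obtain ⟨B, hB⟩ : ∃ B : ℝ, B = (N₁ : ℝ) + N₂ + s + m + 1 := ⟨_, rfl⟩
  rw [← hA] at hτ
  rw [← hB] at hδ hnR
  have hA1 : 1 ≤ A := by rw [hA]; linarith
  have hB1 : 1 ≤ B := by rw [hB]; linarith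
  have hAB : A ≤ B := by rw [hA, hB]; linarith
  have hn0 : (0 : ℝ) < n := by
    have : (0 : ℝ) < 1000 * B * (s + m + 2) := by positivity
    linarith
  have hτ0 : 0 < τ := by rw [hτ]; positivity
  have hAτ : A * τ = 1 / 64 := by rw [hτ]; field_simp
  obtain ⟨E, hE⟩ : ∃ E : ℝ, E = ((q : ℝ) + 1) * ((m : ℝ) + 1) * B := ⟨_, rfl⟩
  rw [← hE] at hδ
  have hE0 : 0 < E := by rw [hE]; positivity
  have hEδ : E * δ ≤ 1 / 1000 := by
    calc E * δ ≤ E * (1 / (1000 * E)) := mul_le_mul_of_nonneg_left hδ hE0.le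
      _ = 1 / 1000 := by field_simp
  obtain ⟨t, ht⟩ : ∃ t : ℝ, t = (⌈τ * n⌉₊ : ℝ) := ⟨_, rfl⟩
  obtain ⟨e, he⟩ : ∃ e : ℝ, e = (⌊δ * n⌋₊ : ℝ) := ⟨_, rfl⟩
  have hc : t < τ * n + 1 := by rw [ht]; exact Nat.ceil_lt_add_one (by positivity)
  have hf : e ≤ δ * n := by rw [he]; exact Nat.floor_le (by positivity)
  have hf0 : 0 ≤ e := by rw [he]; exact Nat.cast_nonneg _
  have hc0 : 0 ≤ t := by rw [ht]; exact Nat.cast_nonneg _
  -- products with `t`
  have hAt : A * t ≤ 1 / 64 * n + A := by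
    have : A * t ≤ A * (τ * n + 1) := mul_le_mul_of_nonneg_left hc.le (by linarith)
    have h2 : A * (τ * n + 1) = A * τ * n + A := by ring
    rw [h2, hAτ] at this
    exact this
  have hEe : E * e ≤ 1 / 1000 * n := by
    have h1 : E * e ≤ E * (δ * n) := mul_le_mul_of_nonneg_left hf hE0.le
    have h2 : E * (δ * n) = E * δ * n := by ring
    have h3 : E * δ * n ≤ 1 / 1000 * n := mul_le_mul_of_nonneg_right hEδ hn0.le
    linarith
  have hAn : 1000 * A ≤ n := by nlinarith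
  have hle : ∀ x : ℝ, 0 ≤ x → x ≤ E → x * e ≤ 1 / 1000 * n := fun x _ hx =>
    le_trans (mul_le_mul_of_nonneg_right hx hf0) hEe
  have hqB : ((q : ℝ) + 1) * B ≤ E := by
    rw [hE]
    have : 0 ≤ ((q : ℝ) + 1) * (m : ℝ) * B := by positivity
    nlinarith
  have hB' : B ≤ E := by
    have : 0 ≤ (q : ℝ) * B := by positivity
    nlinarith
  have i1 : 1 * e ≤ 1 / 1000 * n := hle 1 (by norm_num) (by linarith)
  have i2 : ((s : ℝ) + m) * e ≤ 1 / 1000 * n := hle _ (by positivity) (by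
    have : (s : ℝ) + m ≤ B := by rw [hB]; linarith
    linarith)
  have i3 : (q : ℝ) * m * e ≤ 1 / 1000 * n := hle _ (by positivity) (by
    rw [hE]
    have a1 : (q : ℝ) * m ≤ ((q : ℝ) + 1) * ((m : ℝ) + 1) := by nlinarith
    have a2 : 0 ≤ ((q : ℝ) + 1) * ((m : ℝ) + 1) := by positivity
    nlinarith)
  have i4 : ((N₁ : ℝ) * ((q : ℝ) + 1)) * e ≤ 1 / 1000 * n := hle _ (by positivity) (by
    refine le_trans ?_ hqB
    have : (N₁ : ℝ) ≤ B := by rw [hB]; linarith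
    nlinarith)
  have i5 : ((N₂ : ℝ) * ((q : ℝ) + 1)) * e ≤ 1 / 1000 * n := hle _ (by positivity) (by
    refine le_trans ?_ hqB
    have : (N₂ : ℝ) ≤ B := by rw [hB]; linarith
    nlinarith)
  have j1 : 1 * t ≤ 1 / 64 * n + A := le_trans (mul_le_mul_of_nonneg_right hA1 hc0) hAt
  have j2 : ((s : ℝ) + m) * t ≤ 1 / 64 * n + A := by
    refine le_trans (mul_le_mul_of_nonneg_right ?_ hc0) hAt
    rw [hA]; linarith
  have j3 : (N₁ : ℝ) * t ≤ 1 / 64 * n + A := by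
    refine le_trans (mul_le_mul_of_nonneg_right ?_ hc0) hAt
    rw [hA]; linarith
  have k1 : 1000 * (B * ((s : ℝ) + m + 2)) ≤ n := by linarith
  have k2 : (N₁ : ℝ) * (s + 1) ≤ B * ((s : ℝ) + m + 2) :=
    mul_le_mul (by rw [hB]; linarith) (by linarith) (by positivity) (by linarith)
  have k3 : (N₂ : ℝ) * (s + 1) ≤ B * ((s : ℝ) + m + 2) :=
    mul_le_mul (by rw [hB]; linarith) (by linarith) (by positivity) (by linarith)
  have k4 : ((s : ℝ) + m) ≤ B * ((s : ℝ) + m + 2) := by nlinarith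
  have k5 : (1 : ℝ) ≤ B * ((s : ℝ) + m + 2) := by nlinarith
  refine ⟨?_, ?_, ?_, ?_, ?_, ?_⟩
  · have : (4 * (t + 3 * e + 3)) ≤ (n : ℝ) := by linarith
    rw [ht, he] at this
    exact_mod_cast this
  · have : ((s : ℝ) + m) * (2 * (t + 2 * e + 1)) + q * m * e + e + m ≤ (n : ℝ) := by
      have : ((s : ℝ) + m) * (2 * (t + 2 * e + 1)) = 2 * (((s : ℝ) + m) * t) + 4 * (((s : ℝ) + m) * e) + 2 * ((s : ℝ) + m) := by
        ring
      linarith
    rw [ht, he] at this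
    exact_mod_cast this
  · have : (N₁ : ℝ) * (t + ((q + 1) * e + s) + 1) ≤ (n : ℝ) := by
      have : (N₁ : ℝ) * (t + ((q + 1) * e + s) + 1) = (N₁ : ℝ) * t + (N₁ : ℝ) * ((q : ℝ) + 1) * e + (N₁ : ℝ) * (s + 1) := by
        ring
      linarith
    rw [ht, he] at this
    exact_mod_cast this
  · have : (N₂ : ℝ) * ((q + 1) * e + s + 1) ≤ (n : ℝ) := by
      have : (N₂ : ℝ) * ((q + 1) * e + s + 1) = (N₂ : ℝ) * ((q : ℝ) + 1) * e + (N₂ : ℝ) * (s + 1) := by
        ring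
      linarith
    rw [he] at this
    exact_mod_cast this
  · have : 2 * e ≤ (n : ℝ) := by linarith
    rw [he] at this
    exact_mod_cast this
  · apply mul_lt_mul_of_pos_right _ hn0
    have h1 : E * δ < E * τ := by
      have h2 : A * τ ≤ E * τ := mul_le_mul_of_nonneg_right (by linarith) hτ0.le
      rw [hAτ] at h2
      linarith
    exact lt_of_mul_lt_mul_left h1 hE0.le

theorem upper_s (q m s K : ℕ) (hq : 1 ≤ q) (hm : 1 ≤ m) (hs : 1 ≤ s) (hK : 1 ≤ K) : ∃ n₀ : ℕ, ∀ n : ℕ, n₀ ≤ n →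
    ∀ T : SimpleGraph (Fin n), T.IsTree → Undom T s K → ∀ (W : Type) [Fintype W] (C : SimpleGraph W),
      Fintype.card W = q * (n - 1) + s → ¬ HasS q m s C → T ⊑ Cᶜ := by
  classical
  -- `HasS` for a larger `m` is excluded too, we use it for `m' = m + s`
  obtain ⟨m', hm'⟩ : ∃ m' : ℕ, m' = m + s := ⟨_, rfl⟩
  obtain ⟨N₁, hpack⟩ := pack_s s m' K hs (by omega) hK
  obtain ⟨τ, hτ⟩ : ∃ τ : ℝ, τ = 1 / (64 * ((N₁ : ℝ) + s + m' + 1)) := ⟨_, rfl⟩
  have hτ0 : 0 < τ := by rw [hτ]; positivity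
  obtain ⟨L, δ₁, hδ₁, n₁, hbad⟩ := bad_bound q m' s hq (by omega) τ hτ0
  obtain ⟨M₂, δ₂, hδ₂, n₂, htyp⟩ := typical q m' s L hq (by omega)
  obtain ⟨N₂, n₄, hpack2⟩ := hpack L M₂
  obtain ⟨δ, hδd⟩ : ∃ δ : ℝ, δ = min (min δ₁ δ₂) (1 / (1000 * (((q : ℝ) + 1) * ((m' : ℝ) + 1) *
    ((N₁ : ℝ) + N₂ + s + m' + 1)))) := ⟨_, rfl⟩
  have hδ0 : 0 < δ := by
    rw [hδd]
    refine lt_min (lt_min hδ₁ hδ₂) (by positivity)
  have hδ1 : δ ≤ δ₁ := by rw [hδd]; exact le_trans (min_le_left _ _) (min_le_left _ _)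
  have hδ2 : δ ≤ δ₂ := by rw [hδd]; exact le_trans (min_le_left _ _) (min_le_right _ _)
  have hδ3 := (min_le_right (min δ₁ δ₂) (1 / (1000 * (((q : ℝ) + 1) * ((m' : ℝ) + 1) *
    ((N₁ : ℝ) + N₂ + s + m' + 1)))))
  rw [← hδd] at hδ3
  obtain ⟨ε, hε, n₃, hst⟩ := stab q hq m' (by omega) δ hδ0
  obtain ⟨n₅, hn₅⟩ : ∃ n₅ : ℕ, n₅ = 1000 * (N₁ + N₂ + s + m' + 1) * (s + m' + 2) := ⟨_, rfl⟩
  refine ⟨n₁ + n₂ + n₃ + n₄ + ⌈(q : ℝ) / ε⌉₊ + n₅ + 1, ?_⟩
  intro n hn T hT hUn W _ C hW hS₀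
  have hS : ¬ HasS q m' s C := by
    intro h
    obtain ⟨S, Z, hSc, hZ, g1, g2⟩ := h
    have hsub : ∀ j, ∃ Z' ⊆ Z j, Z'.card = m := fun j =>
      Finset.exists_subset_card_eq (by rw [hZ j]; omega)
    choose Z' hZ'1 hZ'2 using hsub
    exact hS₀ ⟨S, Z', hSc, hZ'2, fun j z hz x hx => g1 j z (hZ'1 j hz) x hx,
      fun j l hjl y hy z hz => g2 j l hjl y (hZ'1 j hy) z (hZ'1 l hz)⟩
  by_contra hfree
  obtain ⟨hn4, hn5, hn6, hn7, hn8, hn9⟩ := us_num q m' s N₁ N₂ τ δ hτ hδ0 hδ3 n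
    (by rw [← hn₅]; omega)
  obtain ⟨e, he⟩ : ∃ e : ℕ, e = ⌊δ * n⌋₊ := ⟨_, rfl⟩
  obtain ⟨t, ht⟩ : ∃ t : ℕ, t = ⌈τ * n⌉₊ := ⟨_, rfl⟩
  rw [← he, ← ht] at hn4 hn5 hn6
  rw [← he] at hn7 hn8
  have hn1 : 1 ≤ n := by omega
  have hnR : (0 : ℝ) < n := by exact_mod_cast hn1
  have hWn : n ≤ Fintype.card W := by
    rw [hW]
    have : 1 * (n - 1) ≤ q * (n - 1) := Nat.mul_le_mul_right _ hq
    omega
  have hsn : s ≤ n := by
    have h2 : s ≤ n₅ := by
      rw [hn₅]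
      nlinarith
    omega
  have hWq : Fintype.card W ≤ (q + 1) * n := by
    rw [hW]
    have h1 : q * (n - 1) ≤ q * n := Nat.mul_le_mul_left _ (Nat.sub_le _ _)
    have h2 : (q + 1) * n = q * n + n := by ring
    omega
  -- stability
  have hsz0 : ((q : ℝ) - ε) * n ≤ ((Finset.univ : Finset W).card : ℝ) := by
    rw [Finset.card_univ, hW]
    push_cast [Nat.cast_sub hn1]
    have h1 : (q : ℝ) / ε ≤ n := by
      have h2 : ((⌈(q : ℝ) / ε⌉₊ : ℕ) : ℝ) ≤ n := by exact_mod_cast (by omega : ⌈(q : ℝ) / ε⌉₊ ≤ n)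
      exact le_trans (Nat.le_ceil _) h2
    have h3 : (q : ℝ) ≤ ε * n := by
      rw [div_le_iff₀ hε] at h1
      linarith
    have hs0 : (0 : ℝ) ≤ s := Nat.cast_nonneg s
    nlinarith
  have hKno : ¬ HasK (q + 1) m' C Finset.univ := by
    rintro ⟨P, -, hPc, hPa⟩
    obtain ⟨S, hSP, hSc⟩ := Finset.exists_subset_card_eq (s := P (Fin.last q)) (n := s) (by rw [hPc]; omega)
    refine hS ⟨S, fun j => P j.castSucc, hSc, fun j => hPc _, ?_, ?_⟩
    · intro j z hz x hx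
      exact hPa _ _ (Fin.castSucc_lt_last j).ne' x (hSP hx) z hz
    · intro j l hjl y hy z hz
      exact hPa _ _ (fun h => hjl (Fin.castSucc_injective q h)) y hy z hz
  obtain ⟨P, -, hdis, hsz, hszn, hin, hcr⟩ := hst n (by omega) T hT W C Finset.univ hfree hsz0 hKno
  have hPe : ∀ i, n ≤ (P i).card + e := by
    intro i
    by_contra hcon
    have h1 : (P i).card + e + 1 ≤ n := by omega
    have h2 : ((P i).card : ℝ) + e + 1 ≤ n := by exact_mod_cast h1
    have h3 : δ * n < (e : ℝ) + 1 := by rw [he]; exact Nat.lt_floor_add_one _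
    have h4 := hsz i
    nlinarith
  have hine : ∀ i, ∀ x ∈ P i, dg C x (P i) ≤ e := fun i x hx => by
    rw [he]; exact Nat.le_floor (hin i x hx)
  have hcre : ∀ i j, i ≠ j → ∀ x ∈ P i, nd C x (P j) ≤ e := fun i j hij x hx => by
    rw [he]; exact Nat.le_floor (hcr i j hij x hx)
  -- bad vertices
  obtain ⟨B, hBd⟩ : ∃ B : Finset W, B = Finset.univ.filter (fun x => ∀ i, τ * n ≤ (dg C x (P i) : ℝ)) := ⟨_, rfl⟩
  have hBc : B.card ≤ L := by
    apply hbad n (by omega) W C P hWn hWq hszn _ hS B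
    · intro x hx
      rw [hBd] at hx
      exact (Finset.mem_filter.mp hx).2
    · intro i j hij x hx
      exact le_trans (hcr i j hij x hx) (mul_le_mul_of_nonneg_right hδ1 hnR.le)
  have hBP : ∀ i, ∀ x ∈ P i, x ∉ B := by
    intro i x hx hxB
    rw [hBd] at hxB
    have h1 := (Finset.mem_filter.mp hxB).2 i
    have h2 := hin i x hx
    linarith
  have hexc : ∀ x, ∃ c : Fin q, (∀ i, x ∈ P i → i = c) ∧ (x ∉ B → (dg C x (P c) : ℝ) < τ * n) := by
    intro x
    by_cases h : ∃ i, x ∈ P i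
    · obtain ⟨i, hi⟩ := h
      refine ⟨i, fun j hj => ?_, fun _ => lt_of_le_of_lt (hin i x hi) hn9⟩
      by_contra hji
      exact Finset.disjoint_left.mp (hdis j i hji) hj hi
    · push Not at h
      by_cases hxB : x ∈ B
      · exact ⟨⟨0, hq⟩, fun i hi => absurd hi (h i), fun hx => absurd hxB hx⟩
      · have : ∃ i, (dg C x (P i) : ℝ) < τ * n := by
          by_contra hcon
          push Not at hcon
          exact hxB (by rw [hBd]; exact Finset.mem_filter.mpr ⟨Finset.mem_univ _, hcon⟩)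
        obtain ⟨i, hi⟩ := this
        exact ⟨i, fun j hj => absurd hj (h j), fun _ => hi⟩
  choose c hc1 hc2 using hexc
  obtain ⟨V, hV⟩ : ∃ V : Fin q → Finset W, V = fun i => Finset.univ.filter (fun x => x ∉ B ∧ c x = i) := ⟨_, rfl⟩
  have hmV : ∀ i x, x ∈ V i ↔ (x ∉ B ∧ c x = i) := by
    intro i x
    rw [hV]
    simp
  have hPV : ∀ i, P i ⊆ V i := by
    intro i x hx
    rw [hmV]
    exact ⟨hBP i x hx, (hc1 x i hx).symm⟩
  have hVlow : ∀ i, ∀ y ∈ V i, dg C y (P i) ≤ t := by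
    intro i y hy
    obtain ⟨hyB, hyc⟩ := (hmV i y).1 hy
    have h1 := hc2 y hyB
    rw [hyc] at h1
    have : (dg C y (P i) : ℝ) < t := lt_of_lt_of_le h1 (by rw [ht]; exact Nat.le_ceil _)
    exact le_of_lt (by exact_mod_cast this)
  have hVcr : ∀ i, ∀ y ∈ V i, ∀ j, j ≠ i → nd C y (P j) ≤ 2 * (t + 2 * e + 1) := by
    intro i y hy j hji
    obtain ⟨hyB, hyc⟩ := (hmV i y).1 hy
    by_cases h : ∃ l, y ∈ P l
    · obtain ⟨l, hl⟩ := h
      have hli : l = i := (hc1 y l hl).trans hyc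
      have h1 := hcre l j (by rw [hli]; exact hji.symm) y hl
      omega
    · push Not at h
      have h1 := hc2 y hyB
      rw [hyc] at h1
      have h2 : dg C y (P i) < t := by
        have : (dg C y (P i) : ℝ) < t := lt_of_lt_of_le h1 (by rw [ht]; exact Nat.le_ceil _)
        exact_mod_cast this
      exact asg_one T hT C hfree (P i) (P j) (hdis i j hji.symm) e t (hPe i) (hPe j) (hine i) (hine j) hn4 y (h i) (h j) h2
  -- the classes are pairwise disjoint, their sizes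
  have hVdis : ∀ i j, i ≠ j → Disjoint (V i) (V j) := by
    intro i j hij
    rw [Finset.disjoint_left]
    intro x hx hx'
    exact hij (((hmV i x).1 hx).2.symm.trans ((hmV j x).1 hx').2)
  have hsumV : ∑ i, (V i).card + B.card = Fintype.card W := by
    have h1 : (Finset.univ.filter (fun x => x ∉ B)).card = ∑ i : Fin q, (V i).card := by
      rw [Finset.card_eq_sum_card_fiberwise (f := c) (t := Finset.univ) (fun x _ => Finset.mem_univ _)]
      apply Finset.sum_congr rfl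
      intro i _
      rw [Finset.filter_filter, hV]
    have h2 := Finset.card_filter_add_card_filter_not (s := (Finset.univ : Finset W)) (fun x => x ∈ B)
    rw [Finset.filter_mem_eq_inter, Finset.univ_inter, Finset.card_univ] at h2
    omega
  have hVP : ∀ i, (V i).card ≤ (P i).card + (q * e + s) := by
    intro i
    have h1 : ∑ j ∈ Finset.univ.erase i, (V j).card + (V i).card = ∑ j, (V j).card :=
      Finset.sum_erase_add _ _ (Finset.mem_univ i)
    have h2 : (q - 1) * (n - e) ≤ ∑ j ∈ Finset.univ.erase i, (V j).card := by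
      have h3 : ∑ _j ∈ (Finset.univ : Finset (Fin q)).erase i, (n - e) ≤ ∑ j ∈ Finset.univ.erase i, (V j).card := by
        apply Finset.sum_le_sum
        intro j _
        have := Finset.card_le_card (hPV j)
        have := hPe j
        omega
      rw [Finset.sum_const, Finset.card_erase_of_mem (Finset.mem_univ i), Finset.card_univ, Fintype.card_fin,
        smul_eq_mul] at h3
      exact h3
    have h4 := hPe i
    obtain ⟨p, rfl⟩ : ∃ p, q = p + 1 := ⟨q - 1, by omega⟩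
    have h5 : (p + 1 - 1) * (n - e) + p * e = p * n := by
      rw [Nat.add_sub_cancel, ← Nat.mul_add]
      congr 1
      omega
    have h6 : (p + 1) * (n - 1) + (p + 1) = p * n + n := by
      have : (p + 1) * (n - 1) + (p + 1) = (p + 1) * (n - 1 + 1) := by ring
      rw [this, Nat.sub_add_cancel hn1]
      ring
    have h7 : (p + 1) * e = p * e + e := by ring
    omega
  have hdgV : ∀ i x, dg C x (V i) ≤ dg C x (P i) + (q * e + s) := by
    intro i x
    have h1 : dg C x (V i) ≤ dg C x (P i) + (V i \ P i).card := by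
      unfold dg
      have : (V i).filter (fun y => C.Adj x y) ⊆ (P i).filter (fun y => C.Adj x y) ∪ (V i \ P i) := by
        intro y hy
        rw [Finset.mem_filter] at hy
        rw [Finset.mem_union, Finset.mem_filter, Finset.mem_sdiff]
        by_cases h : y ∈ P i
        · exact Or.inl ⟨h, hy.2⟩
        · exact Or.inr ⟨hy.1, h⟩
      exact (Finset.card_le_card this).trans (Finset.card_union_le _ _)
    have h2 := Finset.card_sdiff_add_card_eq_card (hPV i)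
    have h3 := hVP i
    omega
  -- the tuple
  obtain ⟨w, hwP, hws, hwB⟩ := htyp n (by omega) W C P B hWn hWq hszn
    (fun i => by have := hPe i; omega)
    (fun i j hij x hx => le_trans (hcr i j hij x hx) (mul_le_mul_of_nonneg_right hδ2 hnR.le)) hBc hS
  have hexd : ∀ u, ∃ d : Fin q, (∃ i, ¬ C.Adj u (w i)) → ¬ C.Adj u (w d) := by
    intro u
    by_cases h : ∃ i, ¬ C.Adj u (w i)
    · obtain ⟨i, hi⟩ := h
      exact ⟨i, fun _ => hi⟩
    · exact ⟨⟨0, hq⟩, fun h' => absurd h' h⟩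
  choose d hd using hexd
  obtain ⟨U, hUd⟩ : ∃ U : Fin q → Finset W, U = fun i => B.filter (fun u => ¬ C.Adj u (w i) ∧ d u = i) := ⟨_, rfl⟩
  have hmU : ∀ i u, u ∈ U i ↔ (u ∈ B ∧ ¬ C.Adj u (w i) ∧ d u = i) := by
    intro i u
    rw [hUd]
    simp
  have hsumU : B.card < ∑ i, (U i).card + s := by
    have h1 : B ⊆ (Finset.univ.biUnion U) ∪ B.filter (fun u => ∀ i, C.Adj u (w i)) := by
      intro u hu
      rw [Finset.mem_union, Finset.mem_biUnion, Finset.mem_filter]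
      by_cases h : ∀ i, C.Adj u (w i)
      · exact Or.inr ⟨hu, h⟩
      · push Not at h
        exact Or.inl ⟨d u, Finset.mem_univ _, (hmU _ _).2 ⟨hu, hd u h, rfl⟩⟩
    have h2 := (Finset.card_le_card h1).trans (Finset.card_union_le _ _)
    have h3 : (Finset.univ.biUnion U).card ≤ ∑ i, (U i).card := Finset.card_biUnion_le
    have h4 : (B.filter (fun u => ∀ i, C.Adj u (w i))).card < s := by
      convert hws
    omega
  have hpig : ∃ i, n ≤ (V i).card + (U i).card := by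
    by_contra hcon
    push Not at hcon
    have h1 : ∑ i : Fin q, ((V i).card + (U i).card) ≤ ∑ _i : Fin q, (n - 1) :=
      Finset.sum_le_sum (fun i _ => by have := hcon i; omega)
    rw [Finset.sum_add_distrib, Finset.sum_const, Finset.card_univ, Fintype.card_fin, smul_eq_mul] at h1
    omega
  obtain ⟨i, hi⟩ := hpig
  apply hfree
  refine hpack2 n (by omega) T hT hUn W C (V i) (U i) (P i) (w i) (t + (q * e + s)) ((q + 1) * e + s) ?_ (hPV i) hi ?_ ?_ ?_ ?_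
    ?_ ?_ ?_ ?_ (hwP i) ?_
  · rw [Finset.disjoint_left]
    intro x hx hxU
    exact ((hmV i x).1 hx).1 ((hmU i x).1 hxU).1
  · refine le_trans (Finset.card_le_card ?_) hBc
    intro x hx
    exact ((hmU i x).1 hx).1
  · have h1 := hVP i
    have h2 : (q + 1) * e = q * e + e := by ring
    omega
  · intro v hv
    exact (hdgV i v).trans (Nat.add_le_add_right (hVlow i v hv) _)
  · intro v hv
    have h1 := hdgV i v
    have h2 := hine i v hv
    have h3 : (q + 1) * e = q * e + e := by ring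
    omega
  · refine le_trans (Nat.mul_le_mul_left _ ?_) hn6
    have h3 : (q + 1) * e = q * e + e := by ring
    omega
  · exact hn7
  · exact kfree_of_noS C q m' s n e (2 * (t + 2 * e + 1)) P i (V i) hPe hcre (hVcr i) hn5 hS
  · intro u hu
    obtain ⟨huB, huw, -⟩ := (hmU i u).1 hu
    exact (hwB u huB i huw).trans (Nat.mul_le_mul_left _ (nd_mono C u (hPV i)))
  · intro u hu h
    exact ((hmU i u).1 hu).2.1 h.symm

end H67.AS
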