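import Pool.Agent.H67.AS.Bnd

/-! # AS.Hub : a position for the next hub (about 150 lines)

Exclude from `G`: the positions `φ y`, `y ∈ X` (at most `|X|`); for `y ∈ X`, `T.Adj y x` the red neighbours of `φ y` in `V` (at most `σ` together); for `v ∈ V` with `s ≤ |bigRed v|` the red neighbours of `v` in `V` (at most `ρ`
each). The number of these `v` is at most `(2 Θ)^s m`: choose an `s`-subset `S v` of `bigRed v`, a subset of the set of the at most `2 Θ` big vertices (`big_card`); for a given `S` (`powersetCard s`, `Nat.choose_le_pow`) the `v` with `S v = S` are less than `m`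
in number: `φ(S) ⊆ V` has `s` elements (`hP.inj`), apply `KFree`. So something in `G` is left (`hn'`). `G ⊆ V`, `C.Adj` symmetric. -/

namespace H67.AS

open SimpleGraph Pool.Agent.H62.Decomp H67.SG

open Classical in
private theorem Hub_few {n : ℕ} {W : Type} {T : SimpleGraph (Fin n)} (hT : T.IsTree) (hn : 1 ≤ n) {C : SimpleGraph W}
    {V U G : Finset W} {s Θ D : ℕ} {X : Finset (Fin n)} {φ : Fin n → W} (hP : Pl T C V U G s Θ D X φ)
    (m : ℕ) (hKF : KFree C V s m) :
    (V.filter (fun v => s ≤ (bigRed T C V Θ X φ v).card)).card ≤ (2 * Θ) ^ s * m := by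
  set B := Finset.univ.filter (fun x : Fin n => n ≤ Θ * deg T x) with hB
  have hBc : B.card ≤ 2 * Θ := big_card T hT hn Θ
  have hsub : V.filter (fun v => s ≤ (bigRed T C V Θ X φ v).card) ⊆
      (Finset.powersetCard s B).biUnion (fun S => V.filter (fun v => S ⊆ bigRed T C V Θ X φ v)) := by
    intro v hv
    rw [Finset.mem_filter] at hv
    obtain ⟨S, hS, hSc⟩ := Finset.exists_subset_card_eq hv.2
    rw [Finset.mem_biUnion]
    refine ⟨S, ?_, ?_⟩
    · rw [Finset.mem_powersetCard]
      refine ⟨fun x hx => ?_, hSc⟩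
      have h1 := hS hx
      unfold bigRed at h1
      rw [Finset.mem_filter] at h1
      rw [hB, Finset.mem_filter]
      exact ⟨Finset.mem_univ _, h1.2.2.1⟩
    · rw [Finset.mem_filter]
      exact ⟨hv.1, hS⟩
  refine (Finset.card_le_card hsub).trans ?_
  have h1 : ((Finset.powersetCard s B).biUnion
      (fun S => V.filter (fun v => S ⊆ bigRed T C V Θ X φ v))).card ≤ (Finset.powersetCard s B).card * m := by
    refine Finset.card_biUnion_le_card_mul _ _ _ ?_
    intro S hS
    rw [Finset.mem_powersetCard] at hS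
    rcases (V.filter (fun v => S ⊆ bigRed T C V Θ X φ v)).eq_empty_or_nonempty with h0 | ⟨v0, hv0⟩
    · rw [h0]
      exact Nat.zero_le _
    · rw [Finset.mem_filter] at hv0
      have hSX : ∀ x ∈ S, x ∈ X ∧ φ x ∈ V := by
        intro x hx
        have h2 := hv0.2 hx
        unfold bigRed at h2
        rw [Finset.mem_filter] at h2
        exact ⟨h2.1, h2.2.1⟩
      have h3 := hKF (S.image φ) (V.filter (fun v => S ⊆ bigRed T C V Θ X φ v))
        (by
          intro w hw
          obtain ⟨x, hx, rfl⟩ := Finset.mem_image.1 hw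
          exact (hSX x hx).2)
        (by
          rw [Finset.card_image_of_injOn, hS.2]
          intro x hx y hy hxy
          exact hP.inj x (hSX x hx).1 y (hSX y hy).1 hxy)
        (Finset.filter_subset _ _)
        (by
          intro w hw z hz
          obtain ⟨x, hx, rfl⟩ := Finset.mem_image.1 hw
          have h4 := (Finset.mem_filter.1 hz).2 hx
          unfold bigRed at h4
          rw [Finset.mem_filter] at h4
          exact h4.2.2.2)
      exact h3.le
  refine h1.trans ?_
  rw [Finset.card_powersetCard]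
  have h2 : B.card.choose s ≤ (2 * Θ) ^ s :=
    (Nat.choose_le_pow _ _).trans (Nat.pow_le_pow_left hBc s)
  exact Nat.mul_le_mul_right _ h2

open Classical in
theorem place_hub {n : ℕ} {W : Type} {T : SimpleGraph (Fin n)} (hT : T.IsTree) (hn : 1 ≤ n) {C : SimpleGraph W}
    {V U G : Finset W} {s Θ D : ℕ} {X : Finset (Fin n)} {φ : Fin n → W} (hP : Pl T C V U G s Θ D X φ)
    (hGV : G ⊆ V) (m ρ σ : ℕ) (hKF : KFree C V s m) (hρ : ∀ v ∈ V, dg C v V ≤ ρ) (x : Fin n)
    (hσ : ∑ y ∈ X.filter (fun y => T.Adj y x), dg C (φ y) V ≤ σ)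
    (hn' : X.card + σ + (2 * Θ) ^ s * m * ρ < G.card) :
    ∃ p ∈ G, (∀ y ∈ X, φ y ≠ p) ∧ (∀ y ∈ X, T.Adj y x → ¬ C.Adj (φ y) p) ∧
      ∀ v ∈ V, C.Adj p v → (bigRed T C V Θ X φ v).card < s := by
  set E1 := X.image φ with hE1
  set E2 := (X.filter (fun y => T.Adj y x)).biUnion (fun y => V.filter (fun w => C.Adj (φ y) w)) with hE2
  set E3 := (V.filter (fun v => s ≤ (bigRed T C V Θ X φ v).card)).biUnion
    (fun v => V.filter (fun w => C.Adj v w)) with hE3
  have h1 : E1.card ≤ X.card := Finset.card_image_le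
  have h2 : E2.card ≤ σ := by
    refine Finset.card_biUnion_le.trans (le_trans ?_ hσ)
    refine Finset.sum_le_sum ?_
    intro y _
    unfold dg
    exact le_of_eq rfl
  have h3 : E3.card ≤ (2 * Θ) ^ s * m * ρ := by
    have h4 : E3.card ≤ (V.filter (fun v => s ≤ (bigRed T C V Θ X φ v).card)).card * ρ := by
      refine Finset.card_biUnion_le_card_mul _ _ _ ?_
      intro v hv
      have h5 := hρ v (Finset.mem_filter.1 hv).1
      unfold dg at h5
      exact h5
    exact h4.trans (Nat.mul_le_mul_right _ (Hub_few hT hn hP m hKF))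
  have h4 : (E1 ∪ E2 ∪ E3).card < G.card := by
    have h5 := Finset.card_union_le (E1 ∪ E2) E3
    have h6 := Finset.card_union_le E1 E2
    omega
  obtain ⟨p, hp, hpn⟩ := Finset.exists_mem_notMem_of_card_lt_card h4
  simp only [Finset.mem_union, not_or] at hpn
  obtain ⟨⟨hp1, hp2⟩, hp3⟩ := hpn
  refine ⟨p, hp, ?_, ?_, ?_⟩
  · intro y hy h
    exact hp1 (Finset.mem_image.2 ⟨y, hy, h⟩)
  · intro y hy hxy hC
    apply hp2
    rw [hE2, Finset.mem_biUnion]
    exact ⟨y, Finset.mem_filter.2 ⟨hy, hxy⟩, Finset.mem_filter.2 ⟨hGV hp, hC⟩⟩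
  · intro v hv hC
    by_contra hcon
    rw [not_lt] at hcon
    apply hp3
    rw [hE3, Finset.mem_biUnion]
    exact ⟨v, Finset.mem_filter.2 ⟨hv, hcon⟩, Finset.mem_filter.2 ⟨hGV hp, hC.symm⟩⟩

end H67.AS
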