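import Pool.Agent.H67.AS.Settle
import Pool.Agent.H67.AS.Hub
import Pool.Agent.H67.SG.Root

/-! # AS.All : placing all hubs (about 180 lines)

Root the tree (`tree_root`, any root): `rk`, `par`. Induction over `r`: there are `X`, `φ`, `Z` with `X₀ ⊆ X`, `φ = φ₀` on `X₀`, `Pl`, `Calm`, `Crit … Z`, every hub `h` with `rk h < r` is in `X`, and every `x ∈ X` is in `X₀`, in `Z`, or a hub with `rk x < r`.
Start: `X₀`, `φ₀`, `Z = ∅`. Step: if there is a hub `x ∉ X` with `rk x = r` (unique, `rk` injective): its neighbours `y ∈ X` have `φ y ∈ V` (otherwise `x ∈ X` by `closed`). They are in `X₀` (at most `|X₀|`, each at a position in `G`, at most `γ` red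
neighbours), in `Z` (at most `M` by `crit_bound`, at most `ρ` red neighbours each), or a hub with `rk y < r = rk x`, so `y = par x` by `uniq`, at a position in `G`. So `σ = (|X₀| + 1) γ + M ρ` in `place_hub`; `|X| ≤ |X₀| + |hubs| + M`. `pl_insert` with `y = x`; the new `wt` is at most the
old one plus `deg x` if `x` is not big (then `32 K deg x ≤ 16 K (s+1) deg x ≤ n`), `wt_insert_big` otherwise. Now `settle` with `t = M - |Z|`: `4 K (wt + t D) ≤ n/2 + n/8 + n/4`; `|insert x X| + t + |hubs| ≤ |X₀| + 2 |hubs| + M` (`insert x X ⊆ X₀ ∪ Z ∪ hubs`). The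
set `Y` of `settle` is added to `Z`. At the end (`r` larger than all ranks) all hubs are in `X`. -/

namespace H67.AS

open SimpleGraph Pool.Agent.H62.Decomp H67.SG

private theorem All_mem_hubs {n : ℕ} {T : SimpleGraph (Fin n)} {D : ℕ} {x : Fin n} :
    x ∈ hubs T D ↔ D ≤ deg T x := by
  classical
  unfold hubs
  simp

private theorem All_sum {n : ℕ} (F X₀ Z : Finset (Fin n)) (q : Fin n) (w : Fin n → ℕ) (γ ρ M : ℕ)
    (hZ : Z.card ≤ M) (h : ∀ y ∈ F, (y ∈ X₀ ∧ w y ≤ γ) ∨ (y ∈ Z ∧ w y ≤ ρ) ∨ (y = q ∧ w y ≤ γ)) :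
    ∑ y ∈ F, w y ≤ (X₀.card + 1) * γ + M * ρ := by
  classical
  have h1 : ∑ y ∈ F, w y ≤ ∑ y ∈ F, ((if y ∈ X₀ then γ else 0) + (if y ∈ Z then ρ else 0) +
      (if y = q then γ else 0)) := by
    refine Finset.sum_le_sum fun y hy => ?_
    rcases h y hy with ⟨h2, h3⟩ | ⟨h2, h3⟩ | ⟨h2, h3⟩
    · rw [if_pos h2]; omega
    · rw [if_pos h2]; omega
    · rw [if_pos h2]; omega
  rw [Finset.sum_add_distrib, Finset.sum_add_distrib] at h1
  have h2 : ∑ y ∈ F, (if y ∈ X₀ then γ else 0) ≤ X₀.card * γ := by
    rw [← Finset.sum_filter, Finset.sum_const, smul_eq_mul]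
    refine Nat.mul_le_mul_right _ (Finset.card_le_card ?_)
    intro y hy
    exact (Finset.mem_filter.1 hy).2
  have h3 : ∑ y ∈ F, (if y ∈ Z then ρ else 0) ≤ M * ρ := by
    rw [← Finset.sum_filter, Finset.sum_const, smul_eq_mul]
    refine Nat.mul_le_mul_right _ (le_trans (Finset.card_le_card ?_) hZ)
    intro y hy
    exact (Finset.mem_filter.1 hy).2
  have h4 : ∑ y ∈ F, (if y = q then γ else 0) ≤ 1 * γ := by
    rw [← Finset.sum_filter, Finset.sum_const, smul_eq_mul]
    refine Nat.mul_le_mul_right _ ?_
    have : F.filter (fun y => y = q) ⊆ {q} := by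
      intro y hy
      exact Finset.mem_singleton.2 (Finset.mem_filter.1 hy).2
    exact (Finset.card_le_card this).trans (Finset.card_singleton q).le
  have h5 : (X₀.card + 1) * γ = X₀.card * γ + 1 * γ := by ring
  omega

theorem place_all {n : ℕ} {W : Type} {T : SimpleGraph (Fin n)} (hT : T.IsTree) (hn : 1 ≤ n) {C : SimpleGraph W}
    {V U G : Finset W} {s Θ D m K : ℕ} (hs : 1 ≤ s) (hm : 1 ≤ m) (hK : 1 ≤ K) (hKF : KFree C V s m) (hUn : Undom T s K)
    (hΘ : 16 * K * (s + 1) ≤ Θ) (hD : Θ * D < n) (hUV : Disjoint V U) (hGV : G ⊆ V) (ρ γ : ℕ)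
    (hρ : ∀ v ∈ V, dg C v V ≤ ρ) (hγ : ∀ v ∈ G, dg C v V ≤ γ) (M : ℕ) (hM : M = m * (32 * K) ^ s)
    (X₀ : Finset (Fin n)) (φ₀ : Fin n → W) (hP : Pl T C V U G s Θ D X₀ φ₀) (hC : Calm T C V Θ K X₀ φ₀)
    (hG : ∀ x ∈ X₀, φ₀ x ∈ V → φ₀ x ∈ G)
    (h1 : X₀.card + (hubs T D).card + M + ((X₀.card + 1) * γ + M * ρ) + (2 * Θ) ^ s * m * ρ < G.card)
    (h2 : 4 * K * (X₀.card + 2 * (hubs T D).card + M) ≤ n) (h3 : 16 * K * (M * D) ≤ n) :
    ∃ (X : Finset (Fin n)) (φ : Fin n → W), X₀ ⊆ X ∧ hubs T D ⊆ X ∧
      X.card ≤ X₀.card + (hubs T D).card + M ∧ Pl T C V U G s Θ D X φ ∧ Calm T C V Θ K X φ := by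
  classical
  obtain ⟨rk, par, hR⟩ := tree_root T hT ⟨0, hn⟩
  have hΘ' : 16 * K * s ≤ Θ := le_trans (Nat.mul_le_mul_left _ (Nat.le_succ s)) hΘ
  have key : ∀ r : ℕ, ∃ (X : Finset (Fin n)) (φ : Fin n → W) (Z : Finset (Fin n)), X₀ ⊆ X ∧
      (∀ x ∈ X₀, φ x = φ₀ x) ∧ Pl T C V U G s Θ D X φ ∧ Calm T C V Θ K X φ ∧ Crit T C V Θ K X φ Z ∧
      (∀ h ∈ hubs T D, rk h < r → h ∈ X) ∧
      ∀ x ∈ X, x ∈ X₀ ∨ x ∈ Z ∨ (x ∈ hubs T D ∧ rk x < r) := by
    intro r
    induction r with
    | zero =>
      refine ⟨X₀, φ₀, ∅, Finset.Subset.refl _, fun _ _ => rfl, hP, hC, ?_, ?_, fun x hx => Or.inl hx⟩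
      · intro z hz
        exact absurd hz (Finset.notMem_empty z)
      · intro h _ h0
        exact absurd h0 (Nat.not_lt_zero _)
    | succ r ih =>
      obtain ⟨X, φ, Z, hX0, hφ, hPl, hCa, hCr, hhub, hcl⟩ := ih
      by_cases hex : ∃ x, x ∈ hubs T D ∧ x ∉ X ∧ rk x = r
      · obtain ⟨x, hxh, hxX, hxr⟩ := hex
        have hZM : Z.card < M := by
          rw [hM]
          exact crit_bound hT hPl m K hm hK hKF hΘ' Z hCr
        have hXsub : insert x X ⊆ X₀ ∪ Z ∪ hubs T D := by
          intro y hy
          rcases Finset.mem_insert.1 hy with rfl | hy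
          · exact Finset.mem_union_right _ hxh
          · rcases hcl y hy with h | h | h
            · exact Finset.mem_union_left _ (Finset.mem_union_left _ h)
            · exact Finset.mem_union_left _ (Finset.mem_union_right _ h)
            · exact Finset.mem_union_right _ h.1
        have hcard : (insert x X).card ≤ X₀.card + Z.card + (hubs T D).card := by
          refine (Finset.card_le_card hXsub).trans ?_
          refine (Finset.card_union_le _ _).trans ?_
          exact Nat.add_le_add_right (Finset.card_union_le _ _) _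
        have hcard2 : X.card ≤ (insert x X).card := Finset.card_le_card (Finset.subset_insert _ _)
        -- red neighbours of the neighbours
        have hσ : ∑ y ∈ X.filter (fun y => T.Adj y x), dg C (φ y) V ≤ (X₀.card + 1) * γ + M * ρ := by
          refine All_sum _ X₀ Z (par x) _ γ ρ M hZM.le ?_
          intro y hy
          obtain ⟨hyX, hyx⟩ := Finset.mem_filter.1 hy
          have hyV : φ y ∈ V := by
            rcases hPl.mem y hyX with h | h
            · exact h
            · exact absurd (hPl.closed y hyX h x hyx) hxX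
          rcases hcl y hyX with h | h | h
          · refine Or.inl ⟨h, hγ _ ?_⟩
            rw [hφ y h] at hyV ⊢
            exact hG y h hyV
          · exact Or.inr (Or.inl ⟨h, hρ _ hyV⟩)
          · refine Or.inr (Or.inr ⟨?_, hγ _ (hPl.hub y hyX (All_mem_hubs.1 h.1))⟩)
            exact (hR.uniq y x hyx (by rw [hxr]; exact h.2)).2
        obtain ⟨p, hpG, hpf, hpb, hps⟩ := place_hub hT hn hPl hGV m ρ ((X₀.card + 1) * γ + M * ρ) hKF hρ x
          (by convert hσ) (by omega)
        have hPl2 := pl_insert hPl hUV x p hxX (hGV hpG) hpf hpb (fun _ => hpG) (fun _ v hv hCv => hps v hv hCv)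
        have hupd : ∀ y ∈ X, Function.update φ x p y = φ y := by
          intro y hy
          refine Function.update_of_ne ?_ _ _
          rintro rfl
          exact hxX hy
        have hCr2 : Crit T C V Θ K (insert x X) (Function.update φ x p) Z :=
          crit_mono (Finset.subset_insert x X) hupd hCr
        have hwt : ∀ v ∈ V, (∀ y ∈ insert x X, Function.update φ x p y ≠ v) →
            4 * K * (wt T C V Θ (insert x X) (Function.update φ x p) v + (M - Z.card) * D) ≤ n := by
          intro v hv hun
          have hun2 : ∀ y ∈ X, φ y ≠ v := by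
            intro y hy
            rw [← hupd y hy]
            exact hun y (Finset.mem_insert_of_mem hy)
          have hcv := hCa v hv hun2
          have htD : K * ((M - Z.card) * D) ≤ K * (M * D) :=
            Nat.mul_le_mul_left _ (Nat.mul_le_mul_right _ (Nat.sub_le _ _))
          have e1 : 8 * K * wt T C V Θ X φ v = 8 * (K * wt T C V Θ X φ v) := by ring
          have e2 : 16 * K * (M * D) = 16 * (K * (M * D)) := by ring
          rw [e1] at hcv
          rw [e2] at h3
          by_cases hb : n ≤ Θ * deg T x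
          · have hw := wt_insert_big T C V Θ X φ x p hxX hb v
            have hw2 := Nat.mul_le_mul_left K hw
            have e3 : 4 * K * (wt T C V Θ (insert x X) (Function.update φ x p) v + (M - Z.card) * D) =
                4 * (K * wt T C V Θ (insert x X) (Function.update φ x p) v) + 4 * (K * ((M - Z.card) * D)) := by
              ring
            rw [e3]
            omega
          · have hw := wt_insert T C V Θ X φ x p hxX v
            have hw2 := Nat.mul_le_mul_left K hw
            rw [Nat.mul_add] at hw2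
            have hdx : 32 * (K * deg T x) < n := by
              have h5 : 16 * K * (1 + 1) ≤ Θ := le_trans (Nat.mul_le_mul_left _ (by omega)) hΘ
              have h6 := Nat.mul_le_mul_right (deg T x) h5
              have h7 : 16 * K * (1 + 1) * deg T x = 32 * (K * deg T x) := by ring
              omega
            have e3 : 4 * K * (wt T C V Θ (insert x X) (Function.update φ x p) v + (M - Z.card) * D) =
                4 * (K * wt T C V Θ (insert x X) (Function.update φ x p) v) + 4 * (K * ((M - Z.card) * D)) := by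
              ring
            rw [e3]
            omega
        have hcc : 4 * K * ((insert x X).card + (M - Z.card) + (hubs T D).card) ≤ n := by
          refine le_trans (Nat.mul_le_mul_left _ ?_) h2
          omega
        obtain ⟨Y, ψ, hdis, hψ, hYd, hPl3, hCr3, hCa3⟩ := settle hT hn hm hK hKF hUn hΘ' hD hUV M hM
          (M - Z.card) (insert x X) (Function.update φ x p) Z hPl2 hCr2 (by omega) hwt hcc
        refine ⟨insert x X ∪ Y, ψ, Z ∪ Y, ?_, ?_, hPl3, hCa3, hCr3, ?_, ?_⟩
        · exact hX0.trans ((Finset.subset_insert x X).trans Finset.subset_union_left)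
        · intro y hy
          rw [hψ y (Finset.mem_insert_of_mem (hX0 hy)), hupd y (hX0 hy), hφ y hy]
        · intro h hh hr
          rcases Nat.lt_succ_iff_lt_or_eq.1 hr with hlt | heq
          · exact Finset.mem_union_left _ (Finset.mem_insert_of_mem (hhub h hh hlt))
          · have : h = x := hR.inj (by rw [heq, hxr])
            rw [this]
            exact Finset.mem_union_left _ (Finset.mem_insert_self _ _)
        · intro y hy
          rcases Finset.mem_union.1 hy with hy | hy
          · rcases Finset.mem_insert.1 hy with rfl | hy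
            · exact Or.inr (Or.inr ⟨hxh, by omega⟩)
            · rcases hcl y hy with h | h | h
              · exact Or.inl h
              · exact Or.inr (Or.inl (Finset.mem_union_left _ h))
              · exact Or.inr (Or.inr ⟨h.1, by omega⟩)
          · exact Or.inr (Or.inl (Finset.mem_union_right _ hy))
      · push Not at hex
        refine ⟨X, φ, Z, hX0, hφ, hPl, hCa, hCr, ?_, ?_⟩
        · intro h hh hr
          rcases Nat.lt_succ_iff_lt_or_eq.1 hr with hlt | heq
          · exact hhub h hh hlt
          · by_contra hcon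
            exact hex h hh hcon heq
        · intro y hy
          rcases hcl y hy with h | h | h
          · exact Or.inl h
          · exact Or.inr (Or.inl h)
          · exact Or.inr (Or.inr ⟨h.1, by omega⟩)
  obtain ⟨X, φ, Z, hX0, -, hPl, hCa, hCr, hhub, hcl⟩ := key (Finset.univ.sup rk + 1)
  have hZM : Z.card < M := by
    rw [hM]
    exact crit_bound hT hPl m K hm hK hKF hΘ' Z hCr
  refine ⟨X, φ, hX0, ?_, ?_, hPl, hCa⟩
  · intro h hh
    exact hhub h hh (Nat.lt_succ_of_le (Finset.le_sup (f := rk) (Finset.mem_univ h)))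
  · have hXsub : X ⊆ X₀ ∪ Z ∪ hubs T D := by
      intro y hy
      rcases hcl y hy with h | h | h
      · exact Finset.mem_union_left _ (Finset.mem_union_left _ h)
      · exact Finset.mem_union_left _ (Finset.mem_union_right _ h)
      · exact Finset.mem_union_right _ h.1
    have hcard : X.card ≤ X₀.card + Z.card + (hubs T D).card := by
      refine (Finset.card_le_card hXsub).trans ?_
      refine (Finset.card_union_le _ _).trans ?_
      exact Nat.add_le_add_right (Finset.card_union_le _ _) _
    omega

end H67.AS
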