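import Pool.Agent.H67.SG.Far

/-! # AS.Ends : vertices of degree at most two, far apart, whose neighbours have small degree (about 150 lines)

`R = {z | n ≤ Θ' deg z}` has at most `2 Θ'` elements (`sum_deg`), `q₀ = (2 Θ' + L) L`, `n₀` large (`≥ 200 q₀`, `> 4 Θ' q₀`, `> 2 Θ'`, `≥ 3`). (a) If there are fewer than `q₀` leaves: `far_set T hT q₀` gives `q₀ ≥ L` vertices of degree `≤ 2` which are not `near T 4`; take `L` of them. By `deg_bound` every vertex of degree `≥ 3` has
degree at most `4 q₀`, so `Θ' deg z < n` for all `z`; not `near T 4` implies not adjacent and no common neighbour. (b) Otherwise at most `2 Θ' (L - 1)` leaves are adjacent to an element of `R`; the other leaves, at least `L L`, are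
adjacent to vertices outside `R`, at most `L - 1` to each of them; so there are at least `L` vertices outside `R` with a neighbouring leaf (for instance: the map leaf `↦` its neighbour on this set of leaves has an image with at least `L` elements,
`Finset.card_le_mul_card_image`); choose one leaf for each of `L` of them. Two leaves `y ≠ z` of this family are not adjacent (in a tree with `n ≥ 3` vertices two leaves are not adjacent: connectedness) and have no common neighbour (the only neighbours are different). -/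

namespace H67.AS

open SimpleGraph Pool.Agent.H62.Decomp H67.SG

private theorem Ends_closed {n : ℕ} {T : SimpleGraph (Fin n)} (S : Finset (Fin n))
    (hS : ∀ u ∈ S, ∀ v, T.Adj u v → v ∈ S) : ∀ {u w : Fin n}, T.Walk u w → u ∈ S → w ∈ S := by
  intro u w p
  induction p with
  | nil => exact fun h => h
  | cons h p ih => exact fun hu => ih (hS _ hu _ h)

private theorem Ends_nb {n : ℕ} (T : SimpleGraph (Fin n)) (y : Fin n) (hy : deg T y = 1) :
    ∃ u, T.Adj y u ∧ ∀ v, T.Adj y v → v = u := by
  classical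
  have h : (Finset.univ.filter (fun v => T.Adj y v)).card = 1 := by
    have h' := hy
    unfold deg dg at h'
    convert h'
  obtain ⟨u, hu⟩ := Finset.card_eq_one.1 h
  have hm : ∀ v, T.Adj y v ↔ v = u := by
    intro v
    have := Finset.ext_iff.1 hu v
    simpa using this
  exact ⟨u, (hm u).2 rfl, fun v hv => (hm v).1 hv⟩

private theorem Ends_two {n : ℕ} {T : SimpleGraph (Fin n)} (hT : T.IsTree) (hn : 3 ≤ n) {y z : Fin n}
    (hy : deg T y = 1) (hz : deg T z = 1) : ¬ T.Adj y z := by
  classical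
  intro hyz
  obtain ⟨u, hu1, hu2⟩ := Ends_nb T y hy
  obtain ⟨w, hw1, hw2⟩ := Ends_nb T z hz
  have h1 : z = u := hu2 z hyz
  have h2 : y = w := hw2 y hyz.symm
  have hS : ∀ a ∈ ({y, z} : Finset (Fin n)), ∀ v, T.Adj a v → v ∈ ({y, z} : Finset (Fin n)) := by
    intro a ha v hav
    rw [Finset.mem_insert, Finset.mem_singleton] at ha ⊢
    rcases ha with rfl | rfl
    · right
      rw [hu2 v hav, h1]
    · left
      rw [hw2 v hav, h2]
  have hall : ∀ v, v ∈ ({y, z} : Finset (Fin n)) := by
    intro v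
    obtain ⟨p⟩ := hT.connected.preconnected y v
    exact Ends_closed _ hS p (Finset.mem_insert_self _ _)
  have h3 : (Finset.univ : Finset (Fin n)).card ≤ ({y, z} : Finset (Fin n)).card :=
    Finset.card_le_card fun v _ => hall v
  have h4 : ({y, z} : Finset (Fin n)).card ≤ 2 := Finset.card_le_two
  rw [Finset.card_univ, Fintype.card_fin] at h3
  omega

open Classical in
theorem tree_ends (L Θ' : ℕ) (hL : 1 ≤ L) : ∃ n₀ : ℕ, ∀ n : ℕ, n₀ ≤ n → ∀ T : SimpleGraph (Fin n), T.IsTree →
    (∀ x, (Finset.univ.filter (fun y => T.Adj x y ∧ deg T y = 1)).card < L) →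
    ∃ Y : Finset (Fin n), Y.card = L ∧ (∀ y ∈ Y, deg T y ≤ 2) ∧
      (∀ y ∈ Y, ∀ z, T.Adj y z → Θ' * deg T z < n) ∧
      ∀ y ∈ Y, ∀ z ∈ Y, y ≠ z → ¬ T.Adj y z ∧ ∀ x, ¬ (T.Adj y x ∧ T.Adj z x) := by
  obtain ⟨q, hq⟩ : ∃ q : ℕ, q = (2 * Θ' + L) * L := ⟨_, rfl⟩
  refine ⟨200 * q + 4 * Θ' * q + 2 * Θ' + 4, ?_⟩
  intro n hn T hT hx
  have hn3 : 3 ≤ n := by omega
  have hqL : L ≤ q := by
    rw [hq]
    nlinarith
  by_cases hcase : (Finset.univ.filter (fun v => deg T v = 1)).card < q
  · -- few leaves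
    obtain ⟨X, hX, hX2, hX4⟩ := far_set T hT q (by convert hcase) (by
      have : 0 ≤ 4 * Θ' * q := Nat.zero_le _
      omega)
    obtain ⟨Y, hYX, hY⟩ := Finset.exists_subset_card_eq (s := X) (n := L) (by rw [hX]; exact hqL)
    have hdeg : ∀ z, Θ' * deg T z < n := by
      intro z
      by_cases h3 : 3 ≤ deg T z
      · have h4 := deg_bound T hT (by omega)
        have h5 : deg T z ≤ ∑ v ∈ Finset.univ.filter (fun v => 3 ≤ deg T v), deg T v := by
          refine Finset.single_le_sum (f := fun v => deg T v) (fun _ _ => Nat.zero_le _) ?_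
          simp [h3]
        have h6 : (Finset.univ.filter (fun v => deg T v = 1)).card ≤ q := hcase.le
        have h7 : deg T z ≤ 4 * q := by
          have h8 : deg T z ≤ 4 * (Finset.univ.filter (fun v => deg T v = 1)).card := by
            refine le_trans ?_ h4
            refine le_trans h5 ?_
            exact Nat.le_add_left _ _
          omega
        calc Θ' * deg T z ≤ Θ' * (4 * q) := Nat.mul_le_mul_left _ h7
          _ = 4 * Θ' * q := by ring
          _ < n := by omega
      · have h7 : deg T z ≤ 2 := by omega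
        calc Θ' * deg T z ≤ Θ' * 2 := Nat.mul_le_mul_left _ h7
          _ < n := by
            have : 0 ≤ 4 * Θ' * q := Nat.zero_le _
            omega
    refine ⟨Y, hY, fun y hy => hX2 y (hYX hy), fun y _ z _ => hdeg z, ?_⟩
    intro y hy z hz hyz
    have h4 := hX4 y (hYX hy) z (hYX hz) hyz
    refine ⟨fun h => h4 ?_, fun x hx => h4 ?_⟩
    · exact ⟨z, ⟨z, ⟨z, ⟨y, rfl, Or.inr h⟩, Or.inl rfl⟩, Or.inl rfl⟩, Or.inl rfl⟩
    · exact ⟨z, ⟨z, ⟨x, ⟨y, rfl, Or.inr hx.1⟩, Or.inr hx.2.symm⟩, Or.inl rfl⟩, Or.inl rfl⟩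
  · push Not at hcase
    have hp : ∀ y : Fin n, ∃ u, deg T y = 1 → T.Adj y u ∧ ∀ v, T.Adj y v → v = u := by
      intro y
      by_cases hy : deg T y = 1
      · obtain ⟨u, hu⟩ := Ends_nb T y hy
        exact ⟨u, fun _ => hu⟩
      · exact ⟨y, fun h => absurd h hy⟩
    choose p hp using hp
    -- the vertices of large degree
    have hR : (Finset.univ.filter (fun z => n ≤ Θ' * deg T z)).card ≤ 2 * Θ' := by
      have h1 := sum_deg T hT
      have h2 : (Finset.univ.filter (fun z => n ≤ Θ' * deg T z)).card * n ≤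
          ∑ z ∈ Finset.univ.filter (fun z => n ≤ Θ' * deg T z), Θ' * deg T z := by
        rw [← smul_eq_mul]
        exact Finset.card_nsmul_le_sum _ _ _ (fun z hz => (Finset.mem_filter.1 hz).2)
      have h3 : ∑ z ∈ Finset.univ.filter (fun z => n ≤ Θ' * deg T z), Θ' * deg T z ≤
          ∑ z, Θ' * deg T z := Finset.sum_le_sum_of_subset (Finset.filter_subset _ _)
      have h4 : ∑ z, Θ' * deg T z ≤ Θ' * (2 * n) := by
        rw [← Finset.mul_sum]
        exact Nat.mul_le_mul_left _ (by omega)
      have h5 : (Finset.univ.filter (fun z => n ≤ Θ' * deg T z)).card * n ≤ (2 * Θ') * n := by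
        calc _ ≤ Θ' * (2 * n) := h2.trans (h3.trans h4)
          _ = (2 * Θ') * n := by ring
      exact Nat.le_of_mul_le_mul_right h5 (by omega)
    have hbadsub : Finset.univ.filter (fun y => deg T y = 1 ∧ n ≤ Θ' * deg T (p y)) ⊆
        (Finset.univ.filter (fun z => n ≤ Θ' * deg T z)).biUnion
          (fun z => Finset.univ.filter (fun y => T.Adj z y ∧ deg T y = 1)) := by
      intro y hy
      obtain ⟨-, hy1, hy2⟩ := Finset.mem_filter.1 hy
      rw [Finset.mem_biUnion]
      exact ⟨p y, Finset.mem_filter.2 ⟨Finset.mem_univ _, hy2⟩,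
        Finset.mem_filter.2 ⟨Finset.mem_univ _, (hp y hy1).1.symm, hy1⟩⟩
    have hbad : (Finset.univ.filter (fun y => deg T y = 1 ∧ n ≤ Θ' * deg T (p y))).card ≤ 2 * Θ' * L := by
      refine (Finset.card_le_card hbadsub).trans ?_
      refine (Finset.card_biUnion_le_card_mul _ _ L fun z _ => (hx z).le).trans ?_
      exact Nat.mul_le_mul_right L hR
    have hsplit : (Finset.univ.filter (fun v => deg T v = 1)).card ≤
        (Finset.univ.filter (fun y => deg T y = 1 ∧ n ≤ Θ' * deg T (p y))).card +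
        (Finset.univ.filter (fun y => deg T y = 1 ∧ ¬ n ≤ Θ' * deg T (p y))).card := by
      refine le_trans (Finset.card_le_card ?_) (Finset.card_union_le _ _)
      intro y hy
      have hy1 := (Finset.mem_filter.1 hy).2
      by_cases h : n ≤ Θ' * deg T (p y)
      · exact Finset.mem_union_left _ (Finset.mem_filter.2 ⟨Finset.mem_univ _, hy1, h⟩)
      · exact Finset.mem_union_right _ (Finset.mem_filter.2 ⟨Finset.mem_univ _, hy1, h⟩)
    have hgood : L * L ≤ (Finset.univ.filter (fun y => deg T y = 1 ∧ ¬ n ≤ Θ' * deg T (p y))).card := by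
      have h1 : q = 2 * Θ' * L + L * L := by rw [hq]; ring
      omega
    have himg : (Finset.univ.filter (fun y => deg T y = 1 ∧ ¬ n ≤ Θ' * deg T (p y))).card ≤
        L * ((Finset.univ.filter (fun y => deg T y = 1 ∧ ¬ n ≤ Θ' * deg T (p y))).image p).card := by
      refine Finset.card_le_mul_card_image _ L ?_
      intro b _
      refine le_trans (Finset.card_le_card ?_) (hx b).le
      intro y hy
      obtain ⟨hy1, hy2⟩ := Finset.mem_filter.1 hy
      have hy3 := (Finset.mem_filter.1 hy1).2.1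
      refine Finset.mem_filter.2 ⟨Finset.mem_univ _, ?_, hy3⟩
      rw [← hy2]
      exact (hp y hy3).1.symm
    have hLi : L ≤ ((Finset.univ.filter (fun y => deg T y = 1 ∧ ¬ n ≤ Θ' * deg T (p y))).image p).card :=
      Nat.le_of_mul_le_mul_left (hgood.trans himg) (by omega)
    obtain ⟨I, hI, hIL⟩ := Finset.exists_subset_card_eq hLi
    have hg : ∀ x : Fin n, ∃ y, x ∈ I → deg T y = 1 ∧ ¬ n ≤ Θ' * deg T (p y) ∧ p y = x := by
      intro x
      by_cases hxI : x ∈ I
      · obtain ⟨y, hy1, hy2⟩ := Finset.mem_image.1 (hI hxI)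
        obtain ⟨-, hy3, hy4⟩ := Finset.mem_filter.1 hy1
        exact ⟨y, fun _ => ⟨hy3, hy4, hy2⟩⟩
      · exact ⟨x, fun h => absurd h hxI⟩
    choose g hg using hg
    have hginj : Set.InjOn g (I : Set (Fin n)) := by
      intro a ha b hb hab
      rw [← (hg a ha).2.2, ← (hg b hb).2.2, hab]
    refine ⟨I.image g, ?_, ?_, ?_, ?_⟩
    · rw [Finset.card_image_of_injOn hginj, hIL]
    · intro y hy
      obtain ⟨x, hxI, rfl⟩ := Finset.mem_image.1 hy
      rw [(hg x hxI).1]
      norm_num
    · intro y hy z hyz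
      obtain ⟨x, hxI, rfl⟩ := Finset.mem_image.1 hy
      have h1 := (hp _ (hg x hxI).1).2 z hyz
      rw [h1]
      exact not_le.1 (hg x hxI).2.1
    · intro y hy z hz hyz
      obtain ⟨a, ha, rfl⟩ := Finset.mem_image.1 hy
      obtain ⟨b, hb, rfl⟩ := Finset.mem_image.1 hz
      refine ⟨Ends_two hT hn3 (hg a ha).1 (hg b hb).1, ?_⟩
      rintro x ⟨h1, h2⟩
      have h3 := (hp _ (hg a ha).1).2 x h1
      have h4 := (hp _ (hg b hb).1).2 x h2
      rw [(hg a ha).2.2] at h3
      rw [(hg b hb).2.2] at h4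
      exact hyz (by rw [← h3, ← h4])

end H67.AS
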