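import Pool.Agent.H67.SG.Def

/-! # AS.Hall : placing the remaining vertices, Hall's theorem (about 100 lines)

`Finset.all_card_le_biUnion_card_iff_exists_injective` for the type `{y // y ∉ X}` and `t y = {v ∈ Q | allowed y v}`, where allowed means `∀ x ∈ X, T.Adj x y → ¬ C.Adj (φ₀ x) v`. Hall's condition for a nonempty set `A'` of vertices:
a single `y` has at least `|Q| - D ρ` allowed positions (`y` has at most `D` neighbours `x ∈ X`, each of them excludes at most `ρ` positions of `Q`, `h1`); so the condition holds if `|A'| ≤ |Q| - D ρ`. Otherwise `|A'| > |Q| - D ρ ≥ |Q| - A`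
(`h4`), `|Q| = n - |X|` is the number of all `y ∉ X`, and every `v ∈ Q` has at least `A` allowed vertices, so one of them is in `A'`: the union is all of `Q`. The resulting `φ` is `φ₀` on `X`. -/

namespace H67.AS

open SimpleGraph Pool.Agent.H62.Decomp H67.SG

open Classical in
theorem hall {n : ℕ} {W : Type} (T : SimpleGraph (Fin n)) (C : SimpleGraph W) (X : Finset (Fin n))
    (φ₀ : Fin n → W) (Q : Finset W) (D ρ A : ℕ) (hinj : ∀ x ∈ X, ∀ y ∈ X, φ₀ x = φ₀ y → x = y)
    (hdis : ∀ x ∈ X, φ₀ x ∉ Q) (hQ : Q.card + X.card = n) (hD : ∀ y, y ∉ X → deg T y ≤ D)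
    (h1 : ∀ x ∈ X, ∀ y, y ∉ X → T.Adj x y → dg C (φ₀ x) Q ≤ ρ)
    (h3 : ∀ v ∈ Q, A ≤ (Finset.univ.filter (fun y => y ∉ X ∧ ∀ x ∈ X, T.Adj x y → ¬ C.Adj (φ₀ x) v)).card)
    (h4 : D * ρ ≤ A) :
    ∃ φ : Fin n → W, Function.Injective φ ∧ (∀ x ∈ X, φ x = φ₀ x) ∧ (∀ y, y ∉ X → φ y ∈ Q) ∧
      ∀ y, y ∉ X → ∀ x ∈ X, T.Adj x y → ¬ C.Adj (φ x) (φ y) := by
  classical
  let t : {y : Fin n // y ∉ X} → Finset W := fun y =>
    Q.filter (fun v => ∀ x ∈ X, T.Adj x y.1 → ¬ C.Adj (φ₀ x) v)
  have hcompl : (Finset.univ \ X).card = Q.card := by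
    have h := Finset.card_sdiff_add_card_eq_card (Finset.subset_univ X)
    rw [Finset.card_univ, Fintype.card_fin] at h
    omega
  have hty : ∀ y : {y : Fin n // y ∉ X}, Q.card ≤ (t y).card + D * ρ := by
    intro y
    have hsub : Q ⊆ t y ∪ (X.filter (fun x => T.Adj x y.1)).biUnion
        (fun x => Q.filter (fun v => C.Adj (φ₀ x) v)) := by
      intro v hv
      by_cases h : ∀ x ∈ X, T.Adj x y.1 → ¬ C.Adj (φ₀ x) v
      · exact Finset.mem_union_left _ (Finset.mem_filter.2 ⟨hv, h⟩)
      · push Not at h
        obtain ⟨x, hx, hxy, hxv⟩ := h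
        exact Finset.mem_union_right _ (Finset.mem_biUnion.2 ⟨x, Finset.mem_filter.2 ⟨hx, hxy⟩,
          Finset.mem_filter.2 ⟨hv, hxv⟩⟩)
    have h2 := (Finset.card_le_card hsub).trans (Finset.card_union_le _ _)
    have h3 : ((X.filter (fun x => T.Adj x y.1)).biUnion
        (fun x => Q.filter (fun v => C.Adj (φ₀ x) v))).card ≤ D * ρ := by
      refine (Finset.card_biUnion_le_card_mul _ _ ρ fun x hx => ?_).trans (Nat.mul_le_mul_right ρ ?_)
      · rw [Finset.mem_filter] at hx
        have h4 := h1 x hx.1 y.1 y.2 hx.2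
        unfold dg at h4
        exact h4
      · refine le_trans ?_ (hD y.1 y.2)
        unfold deg dg
        refine Finset.card_le_card fun x hx => ?_
        rw [Finset.mem_filter] at hx ⊢
        exact ⟨Finset.mem_univ _, hx.2.symm⟩
    omega
  have hHall : ∀ s : Finset {y : Fin n // y ∉ X}, s.card ≤ (s.biUnion t).card := by
    intro s
    rcases s.eq_empty_or_nonempty with rfl | ⟨y0, hy0⟩
    · simp
    by_cases hs : s.card + D * ρ ≤ Q.card
    · have h5 := Finset.card_le_card (Finset.subset_biUnion_of_mem t hy0)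
      have h6 := hty y0
      omega
    · have hS : (s.image Subtype.val) ⊆ Finset.univ \ X := by
        intro y hy
        rw [Finset.mem_image] at hy
        obtain ⟨z, _, rfl⟩ := hy
        exact Finset.mem_sdiff.2 ⟨Finset.mem_univ _, z.2⟩
      have hScard : (s.image Subtype.val).card = s.card :=
        Finset.card_image_of_injective _ Subtype.val_injective
      have hQsub : Q ⊆ s.biUnion t := by
        intro v hv
        by_contra hcon
        have hdisj : Disjoint (s.image Subtype.val) (Finset.univ.filter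
            (fun y => y ∉ X ∧ ∀ x ∈ X, T.Adj x y → ¬ C.Adj (φ₀ x) v)) := by
          rw [Finset.disjoint_left]
          intro y hy hy2
          rw [Finset.mem_image] at hy
          obtain ⟨z, hz, rfl⟩ := hy
          rw [Finset.mem_filter] at hy2
          exact hcon (Finset.mem_biUnion.2 ⟨z, hz, Finset.mem_filter.2 ⟨hv, hy2.2.2⟩⟩)
        have h7 : ((s.image Subtype.val) ∪ (Finset.univ.filter
            (fun y => y ∉ X ∧ ∀ x ∈ X, T.Adj x y → ¬ C.Adj (φ₀ x) v))).card ≤
            (Finset.univ \ X).card := by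
          refine Finset.card_le_card (Finset.union_subset hS fun y hy => ?_)
          rw [Finset.mem_filter] at hy
          exact Finset.mem_sdiff.2 ⟨Finset.mem_univ _, hy.2.1⟩
        rw [Finset.card_union_of_disjoint hdisj, hScard, hcompl] at h7
        have h8 := h3 v hv
        omega
      have h9 := Finset.card_le_card hQsub
      have h10 := Finset.card_le_card hS
      rw [hScard, hcompl] at h10
      omega
  obtain ⟨f, hf, hft⟩ := (Finset.all_card_le_biUnion_card_iff_exists_injective t).1 hHall
  have hfQ : ∀ y, f y ∈ Q := fun y => (Finset.mem_filter.1 (hft y)).1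
  refine ⟨fun y => if h : y ∉ X then f ⟨y, h⟩ else φ₀ y, ?_, ?_, ?_, ?_⟩
  · intro a b hab
    by_cases ha : a ∈ X
    · by_cases hb : b ∈ X
      · simp only [ha, hb, not_true_eq_false, dite_false] at hab
        exact hinj a ha b hb hab
      · simp only [ha, hb, not_true_eq_false, not_false_eq_true, dite_false, dite_true] at hab
        exact absurd (hab ▸ hfQ _) (hdis a ha)
    · by_cases hb : b ∈ X
      · simp only [ha, hb, not_true_eq_false, not_false_eq_true, dite_false, dite_true] at hab
        exact absurd (hab ▸ hfQ _) (hdis b hb)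
      · simp only [ha, hb, not_false_eq_true, dite_true] at hab
        exact congrArg Subtype.val (hf hab)
  · intro x hx
    simp only [hx, not_true_eq_false, dite_false]
  · intro y hy
    simp only [hy, not_false_eq_true, dite_true]
    exact hfQ _
  · intro y hy x hx hxy
    simp only [hx, hy, not_true_eq_false, not_false_eq_true, dite_false, dite_true]
    exact (Finset.mem_filter.1 (hft ⟨y, hy⟩)).2 x hx hxy

end H67.AS
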