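import Pool.Agent.H67.AS.Ins

/-! # AS.IniA : start of the placement, a vertex with many leaves (about 120 lines)

`Lf ⊆` leaves adjacent to `h` with `|Lf| = |U|`, a bijection `g` of `Lf` onto `U`; `X = insert h Lf`, `φ h = w`, `φ = g` on `Lf` (`h ∉ Lf`: no loops). `closed`: the only neighbour of a leaf adjacent to `h` is `h` (`deg = 1`). `blue`: edges inside `X` are `h ℓ` only (two leaves of `Lf` are not adjacent, their only neighbour is `h`), `w` is
not red to `U`. `hub`: leaves have degree `1 < D`. `few`: `bigRed v ⊆ {h}` (`g` has values in `U`, disjoint from `V`). `Calm`: `wt v ≤ deg h` if `h` is not big (`8 K ≤ Θ`), `0` otherwise. -/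

namespace H67.AS

open SimpleGraph Pool.Agent.H62.Decomp H67.SG

open Classical in
theorem init_leaf {n : ℕ} {W : Type} {T : SimpleGraph (Fin n)} (hn : 1 ≤ n) {C : SimpleGraph W}
    {V U G : Finset W} {s Θ D K : ℕ} (hs : 1 ≤ s) (hUV : Disjoint V U) (hGV : G ⊆ V) (hΘ : 8 * K ≤ Θ) (hD : 2 ≤ D)
    (h : Fin n) (hh : U.card ≤ (Finset.univ.filter (fun y => T.Adj h y ∧ deg T y = 1)).card) (w : W) (hw : w ∈ G)
    (hwU : ∀ u ∈ U, ¬ C.Adj w u) :
    ∃ (X : Finset (Fin n)) (φ : Fin n → W), Pl T C V U G s Θ D X φ ∧ Calm T C V Θ K X φ ∧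
      (∀ x ∈ X, φ x ∈ V → φ x ∈ G) ∧ X.card ≤ 3 * U.card + 1 := by
  classical
  have hnb : ∀ ℓ : Fin n, deg T ℓ = 1 → ∀ a b : Fin n, T.Adj ℓ a → T.Adj ℓ b → a = b := by
    intro ℓ hd a b ha hb
    have h1 : (Finset.univ.filter (fun y => T.Adj ℓ y)).card ≤ 1 := by
      have h2 : deg T ℓ = (Finset.univ.filter (fun y => T.Adj ℓ y)).card := by
        unfold deg dg
        congr
      omega
    exact Finset.card_le_one.1 h1 a (by simpa using ha) b (by simpa using hb)
  obtain ⟨Lf, hLs, hLc⟩ := Finset.exists_subset_card_eq hh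
  have hL : ∀ ℓ ∈ Lf, T.Adj h ℓ ∧ deg T ℓ = 1 := by
    intro ℓ hℓ
    have := hLs hℓ
    simpa using this
  have hhL : h ∉ Lf := fun hm => (T.irrefl (hL h hm).1)
  let e : Lf ≃ U := Finset.equivOfCardEq hLc
  let φ : Fin n → W := fun x => if hx : x ∈ Lf then (e ⟨x, hx⟩ : W) else w
  have hφL : ∀ x (hx : x ∈ Lf), φ x = (e ⟨x, hx⟩ : W) := by
    intro x hx
    simp only [φ, dif_pos hx]
  have hφU : ∀ x ∈ Lf, φ x ∈ U := by
    intro x hx
    rw [hφL x hx]
    exact (e ⟨x, hx⟩).2
  have hφh : φ h = w := by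
    simp only [φ, dif_neg hhL]
  have hwV : w ∈ V := hGV hw
  have hwnU : w ∉ U := Finset.disjoint_left.1 hUV hwV
  have hφnV : ∀ x ∈ Lf, φ x ∉ V := fun x hx hV => Finset.disjoint_left.1 hUV hV (hφU x hx)
  have hcases : ∀ x ∈ insert h Lf, φ x ∈ V → x = h := by
    intro x hx hV
    rcases Finset.mem_insert.1 hx with h1 | h1
    · exact h1
    · exact absurd hV (hφnV x h1)
  refine ⟨insert h Lf, φ, ⟨?_, ?_, ?_, ?_, ?_, ?_, ?_⟩, ?_, ?_, ?_⟩
  · intro x hx y hy hxy
    rcases Finset.mem_insert.1 hx with h1 | h1 <;> rcases Finset.mem_insert.1 hy with h2 | h2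
    · rw [h1, h2]
    · exfalso
      apply hwnU
      rw [← hφh, ← h1, hxy]
      exact hφU y h2
    · exfalso
      apply hwnU
      rw [← hφh, ← h2, ← hxy]
      exact hφU x h1
    · rw [hφL x h1, hφL y h2] at hxy
      have := e.injective (Subtype.ext hxy)
      exact congrArg Subtype.val this
  · intro x hx
    rcases Finset.mem_insert.1 hx with h1 | h1
    · left
      rw [h1, hφh]
      exact hwV
    · right
      exact hφU x h1
  · intro u hu
    refine ⟨(e.symm ⟨u, hu⟩ : Fin n), Finset.mem_insert_of_mem (e.symm ⟨u, hu⟩).2, ?_⟩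
    rw [hφL _ (e.symm ⟨u, hu⟩).2]
    simp
  · intro x hx hxU y hxy
    rcases Finset.mem_insert.1 hx with h1 | h1
    · exfalso
      rw [h1, hφh] at hxU
      exact hwnU hxU
    · have h2 := hL x h1
      have h3 : y = h := hnb x h2.2 y h hxy h2.1.symm
      rw [h3]
      exact Finset.mem_insert_self _ _
  · intro x hx y hy hxy
    rcases Finset.mem_insert.1 hx with h1 | h1 <;> rcases Finset.mem_insert.1 hy with h2 | h2
    · rw [h1, h2] at hxy
      exact absurd hxy (T.irrefl)
    · rw [h1, hφh]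
      exact hwU _ (hφU y h2)
    · rw [h2, hφh]
      exact fun hc => hwU _ (hφU x h1) hc.symm
    · exfalso
      have h3 := hL x h1
      have h4 : y = h := hnb x h3.2 y h hxy h3.1.symm
      exact hhL (h4 ▸ h2)
  · intro x hx hdx
    rcases Finset.mem_insert.1 hx with h1 | h1
    · rw [h1, hφh]
      exact hw
    · exfalso
      have := (hL x h1).2
      omega
  · intro v _
    have hsub : bigRed T C V Θ (insert h Lf) φ v ⊆ {h} := by
      intro x hx
      unfold bigRed at hx
      rw [Finset.mem_filter] at hx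
      rw [Finset.mem_singleton]
      exact hcases x hx.1 hx.2.1
    have := Finset.card_le_card hsub
    rw [Finset.card_singleton] at this
    omega
  · intro v _ _
    have hsub : medRed T C V Θ (insert h Lf) φ v ⊆ {h} := by
      intro x hx
      unfold medRed at hx
      rw [Finset.mem_filter] at hx
      rw [Finset.mem_singleton]
      exact hcases x hx.1 hx.2.1
    rcases Finset.subset_singleton_iff.1 hsub with h0 | h0
    · unfold wt
      rw [h0]
      simp
      omega
    · have hm : h ∈ medRed T C V Θ (insert h Lf) φ v := by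
        rw [h0]
        exact Finset.mem_singleton_self _
      unfold medRed at hm
      rw [Finset.mem_filter] at hm
      have hlt := hm.2.2.1
      unfold wt
      rw [h0, Finset.sum_singleton]
      calc 8 * K * deg T h ≤ Θ * deg T h := Nat.mul_le_mul_right _ hΘ
        _ < n := hlt
  · intro x hx hV
    rw [hcases x hx hV, hφh]
    exact hw
  · have := Finset.card_insert_le h Lf
    omega

end H67.AS
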