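import Pool.Agent.H67.AS.Ins

/-! # AS.IniB : start of the placement, no vertex with many leaves (about 200 lines)

`N` = the set of all neighbours of elements of `Y`; `|N| ≤ 2 |U|`, `N ∩ Y = ∅`, every `a ∈ N` has exactly one neighbour `y(a) ∈ Y` (no common neighbours). `g` a bijection of `Y` onto `U`, `φ = g` on `Y`. Induction over the subsets `A ⊆ N`: there is `φ` with `φ = g` on `Y`, `φ a ∈ G` for `a ∈ A`, injective on `Y ∪ A`, `¬ C.Adj (g (y(a))) (φ a)`,
`¬ C.Adj (φ a) (φ a')` for adjacent `a, a' ∈ A`. Step: the position of `a` is a non-neighbour (in `C`) of `u = g (y(a))` in `V` (`n ≤ M₂ nd C u V`), in `G` (all but `γ` elements of `V`), different from at most `2 |U|` used ones and outside the red neighbourhoods (`≤ γ`) of at most `2 |U|` positions: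
possible by `hn'`. Result `X = Y ∪ N`. `closed`: neighbours of `y ∈ Y` are in `N`. `hub`: vertices of `Y` have degree `≤ 2 < D`. `few`: no vertex of `N` is big (`Θ ≤ Θ'`). `Calm`: `wt v ≤ Σ_{a ∈ N} deg a`, `Θ' wt ≤ 2 |U| n`-like bound: `16 K |U| < Θ'` gives `8 K wt < n` (`n ≥ 1`). -/

namespace H67.AS

open SimpleGraph Pool.Agent.H62.Decomp H67.SG

open Classical in
/-- a position for one more neighbour -/
private theorem step_pos {W : Type} {C : SimpleGraph W} {V G : Finset W} {M₂ γ n c : ℕ}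
    (hGV : G ⊆ V) (hVG : V.card ≤ G.card + γ)
    (hγ : ∀ v ∈ G, dg C v V ≤ γ) (u : W) (hu : n ≤ M₂ * nd C u V) (B : Finset W) (hB : B.card ≤ c) (hBG : B ⊆ G)
    (hn' : M₂ * (γ + c + c * γ) < n) :
    ∃ p ∈ G, ¬ C.Adj u p ∧ p ∉ B ∧ ∀ b ∈ B, ¬ C.Adj b p := by
  by_contra hcon
  push Not at hcon
  have hsub : V.filter (fun y => ¬ C.Adj u y) ⊆
      (V \ G) ∪ (B ∪ B.biUnion (fun b => V.filter (fun y => C.Adj b y))) := by
    intro p hp
    rw [Finset.mem_filter] at hp
    rw [Finset.mem_union, Finset.mem_union, Finset.mem_sdiff, Finset.mem_biUnion]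
    by_cases hpG : p ∈ G
    · by_cases hpB : p ∈ B
      · exact Or.inr (Or.inl hpB)
      · obtain ⟨b, hb, hbp⟩ := hcon p hpG hp.2 hpB
        exact Or.inr (Or.inr ⟨b, hb, Finset.mem_filter.2 ⟨hp.1, hbp⟩⟩)
    · exact Or.inl ⟨hp.1, hpG⟩
  have h1 : nd C u V ≤ γ + (c + c * γ) := by
    refine (Finset.card_le_card hsub).trans ((Finset.card_union_le _ _).trans (Nat.add_le_add ?_ ?_))
    · rw [Finset.card_sdiff_of_subset hGV]
      omega
    · refine (Finset.card_union_le _ _).trans (Nat.add_le_add hB ?_)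
      refine (Finset.card_biUnion_le_card_mul B _ γ fun b hb => ?_).trans (Nat.mul_le_mul_right γ hB)
      exact hγ b (hBG hb)
  have h2 : M₂ * nd C u V ≤ M₂ * (γ + c + c * γ) := Nat.mul_le_mul_left _ (by omega)
  omega

open Classical in
theorem init_far {n : ℕ} {W : Type} [Nonempty W] {T : SimpleGraph (Fin n)} (hn : 1 ≤ n) {C : SimpleGraph W}
    {V U G : Finset W} {s Θ Θ' D K M₂ γ : ℕ} (hUV : Disjoint V U) (hGV : G ⊆ V) (hVG : V.card ≤ G.card + γ)
    (hγ : ∀ v ∈ G, dg C v V ≤ γ) (hU : ∀ u ∈ U, n ≤ M₂ * nd C u V) (hD : 3 ≤ D) (hΘ : Θ ≤ Θ')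
    (hΘ' : 16 * K * U.card < Θ') (Y : Finset (Fin n)) (hY : Y.card = U.card) (hY1 : ∀ y ∈ Y, deg T y ≤ 2)
    (hY2 : ∀ y ∈ Y, ∀ z, T.Adj y z → Θ' * deg T z < n)
    (hY3 : ∀ y ∈ Y, ∀ z ∈ Y, y ≠ z → ¬ T.Adj y z ∧ ∀ x, ¬ (T.Adj y x ∧ T.Adj z x))
    (hn' : M₂ * (γ + 2 * U.card + 2 * U.card * γ) < n) :
    ∃ (X : Finset (Fin n)) (φ : Fin n → W), Pl T C V U G s Θ D X φ ∧ Calm T C V Θ K X φ ∧
      (∀ x ∈ X, φ x ∈ V → φ x ∈ G) ∧ X.card ≤ 3 * U.card + 1 := by
  -- the bijection
  obtain ⟨g, hgU, hginj, hgsur⟩ : ∃ g : Fin n → W, (∀ y ∈ Y, g y ∈ U) ∧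
      (∀ y ∈ Y, ∀ z ∈ Y, g y = g z → y = z) ∧ ∀ u ∈ U, ∃ y ∈ Y, g y = u := by
    let e := Finset.equivOfCardEq hY
    refine ⟨fun y => if h : y ∈ Y then (e ⟨y, h⟩ : W) else Classical.arbitrary W, ?_, ?_, ?_⟩
    · intro y hy
      simp only [hy, dif_pos]
      exact (e ⟨y, hy⟩).2
    · intro y hy z hz h
      simp only [hy, hz, dif_pos] at h
      have h2 := e.injective (Subtype.ext h)
      exact congrArg Subtype.val h2
    · intro u hu
      refine ⟨(e.symm ⟨u, hu⟩ : Fin n), (e.symm ⟨u, hu⟩).2, ?_⟩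
      simp only [(e.symm ⟨u, hu⟩).2, dif_pos, Subtype.coe_eta, Equiv.apply_symm_apply]
  have hUV' : ∀ x, x ∈ V → x ∈ U → False := fun x h1 h2 => (Finset.disjoint_left.1 hUV) h1 h2
  -- the neighbours
  set N : Finset (Fin n) := Finset.univ.filter (fun a => ∃ y ∈ Y, T.Adj y a) with hN
  have hNY : ∀ a ∈ N, a ∉ Y := by
    intro a ha haY
    rw [hN, Finset.mem_filter] at ha
    obtain ⟨-, y, hy, hya⟩ := ha
    exact (hY3 y hy a haY hya.ne).1 hya
  have hNc : N.card ≤ 2 * U.card := by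
    have hsub : N ⊆ Y.biUnion (fun y => Finset.univ.filter (fun a => T.Adj y a)) := by
      intro a ha
      rw [hN, Finset.mem_filter] at ha
      obtain ⟨-, y, hy, hya⟩ := ha
      exact Finset.mem_biUnion.2 ⟨y, hy, Finset.mem_filter.2 ⟨Finset.mem_univ _, hya⟩⟩
    have h1 := (Finset.card_le_card hsub).trans (Finset.card_biUnion_le_card_mul Y _ 2 fun y hy => by
      have := hY1 y hy
      simpa only [deg, dg] using this)
    omega
  obtain ⟨yy, hyy⟩ : ∃ yy : Fin n → Fin n, ∀ a ∈ N, yy a ∈ Y ∧ T.Adj (yy a) a := by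
    have : ∀ a, ∃ y, a ∈ N → y ∈ Y ∧ T.Adj y a := by
      intro a
      by_cases ha : a ∈ N
      · have ha' := ha
        rw [hN, Finset.mem_filter] at ha'
        obtain ⟨-, y, hy, hya⟩ := ha'
        exact ⟨y, fun _ => ⟨hy, hya⟩⟩
      · exact ⟨a, fun h => absurd h ha⟩
    choose yy h using this
    exact ⟨yy, fun a ha => h a ha⟩
  have hyu : ∀ a ∈ N, ∀ y ∈ Y, T.Adj y a → y = yy a := by
    intro a ha y hy hya
    by_contra hne
    exact (hY3 y hy (yy a) (hyy a ha).1 hne).2 a ⟨hya, (hyy a ha).2⟩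
  -- the induction
  have key : ∀ A : Finset (Fin n), A ⊆ N → ∃ φ : Fin n → W, (∀ y ∈ Y, φ y = g y) ∧ (∀ a ∈ A, φ a ∈ G) ∧
      (∀ a ∈ A, ∀ b ∈ A, φ a = φ b → a = b) ∧ (∀ a ∈ A, ¬ C.Adj (g (yy a)) (φ a)) ∧
      ∀ a ∈ A, ∀ b ∈ A, T.Adj a b → ¬ C.Adj (φ a) (φ b) := by
    intro A
    induction A using Finset.induction_on with
    | empty =>
      intro _
      exact ⟨g, fun _ _ => rfl, by simp, by simp, by simp, by simp⟩
    | insert a A ha ih =>
      intro hA
      obtain ⟨φ, h1, h2, h3, h4, h5⟩ := ih ((Finset.subset_insert a A).trans hA)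
      have haN : a ∈ N := hA (Finset.mem_insert_self a A)
      have hAc : A.card ≤ 2 * U.card :=
        (Finset.card_le_card ((Finset.subset_insert a A).trans hA)).trans hNc
      obtain ⟨p, hpG, hup, hpB, hBp⟩ := step_pos hGV hVG hγ (g (yy a)) (hU _ (hgU _ (hyy a haN).1)) (A.image φ)
        (Finset.card_image_le.trans hAc) (by
          intro x hx
          obtain ⟨b, hb, rfl⟩ := Finset.mem_image.1 hx
          exact h2 b hb) hn'
      have hpB' : ∀ b ∈ A, φ b ≠ p := fun b hb h => hpB (h ▸ Finset.mem_image_of_mem φ hb)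
      have hBp' : ∀ b ∈ A, ¬ C.Adj (φ b) p := fun b hb => hBp _ (Finset.mem_image_of_mem φ hb)
      have hne : ∀ b ∈ A, b ≠ a := fun b hb h => ha (h ▸ hb)
      have hup' : ∀ b ∈ A, Function.update φ a p b = φ b := fun b hb => Function.update_of_ne (hne b hb) _ _
      have hself : Function.update φ a p a = p := Function.update_self _ _ _
      refine ⟨Function.update φ a p, ?_, ?_, ?_, ?_, ?_⟩
      · intro y hy
        have : y ≠ a := fun h => hNY a haN (h ▸ hy)
        rw [Function.update_of_ne this]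
        exact h1 y hy
      · intro b hb
        rcases Finset.mem_insert.1 hb with rfl | hb
        · rw [hself]; exact hpG
        · rw [hup' b hb]; exact h2 b hb
      · intro b hb c hc hbc
        rcases Finset.mem_insert.1 hb with hb1 | hb
        · rcases Finset.mem_insert.1 hc with hc1 | hc
          · rw [hb1, hc1]
          · rw [hb1, hself, hup' c hc] at hbc
            exact absurd hbc.symm (hpB' c hc)
        · rcases Finset.mem_insert.1 hc with hc1 | hc
          · rw [hc1, hself, hup' b hb] at hbc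
            exact absurd hbc (hpB' b hb)
          · rw [hup' b hb, hup' c hc] at hbc
            exact h3 b hb c hc hbc
      · intro b hb
        rcases Finset.mem_insert.1 hb with rfl | hb
        · rw [hself]; exact hup
        · rw [hup' b hb]; exact h4 b hb
      · intro b hb c hc hbc
        rcases Finset.mem_insert.1 hb with hb1 | hb
        · rcases Finset.mem_insert.1 hc with hc1 | hc
          · rw [hb1, hc1] at hbc
            exact absurd hbc (T.loopless.irrefl a)
          · rw [hb1, hself, hup' c hc]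
            exact fun h => hBp' c hc h.symm
        · rcases Finset.mem_insert.1 hc with hc1 | hc
          · rw [hc1, hself, hup' b hb]
            exact hBp' b hb
          · rw [hup' b hb, hup' c hc]
            exact h5 b hb c hc hbc
  obtain ⟨φ, h1, h2, h3, h4, h5⟩ := key N subset_rfl
  have hYU : ∀ y ∈ Y, φ y ∈ U := fun y hy => by rw [h1 y hy]; exact hgU y hy
  have hNV : ∀ a ∈ N, φ a ∈ V := fun a ha => hGV (h2 a ha)
  have hmemN : ∀ x ∈ Y ∪ N, φ x ∈ V → x ∈ N := by
    intro x hx hxV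
    rcases Finset.mem_union.1 hx with hx | hx
    · exact (hUV' _ hxV (hYU x hx)).elim
    · exact hx
  have hmemY : ∀ x ∈ Y ∪ N, φ x ∈ U → x ∈ Y := by
    intro x hx hxU
    rcases Finset.mem_union.1 hx with hx | hx
    · exact hx
    · exact (hUV' _ (hNV x hx) hxU).elim
  have hNdeg : ∀ a ∈ N, Θ' * deg T a < n := fun a ha => hY2 _ (hyy a ha).1 a (hyy a ha).2
  refine ⟨Y ∪ N, φ, ⟨?_, ?_, ?_, ?_, ?_, ?_, ?_⟩, ?_, ?_, ?_⟩
  · -- inj
    intro x hx y hy hxy
    rcases Finset.mem_union.1 hx with hx1 | hx1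
    · have hy1 : y ∈ Y := hmemY y hy (hxy ▸ hYU x hx1)
      rw [h1 x hx1, h1 y hy1] at hxy
      exact hginj x hx1 y hy1 hxy
    · have hy1 : y ∈ N := hmemN y hy (hxy ▸ hNV x hx1)
      exact h3 x hx1 y hy1 hxy
  · -- mem
    intro x hx
    rcases Finset.mem_union.1 hx with hx1 | hx1
    · exact Or.inr (hYU x hx1)
    · exact Or.inl (hNV x hx1)
  · -- usedU
    intro u hu
    obtain ⟨y, hy, hyu⟩ := hgsur u hu
    exact ⟨y, Finset.mem_union_left _ hy, (h1 y hy).trans hyu⟩
  · -- closed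
    intro x hx hxU y hxy
    have hxY := hmemY x hx hxU
    exact Finset.mem_union_right _ (by rw [hN, Finset.mem_filter]; exact ⟨Finset.mem_univ _, x, hxY, hxy⟩)
  · -- blue
    intro x hx y hy hxy
    rcases Finset.mem_union.1 hx with hx1 | hx1
    · rcases Finset.mem_union.1 hy with hy1 | hy1
      · exact absurd hxy (hY3 x hx1 y hy1 hxy.ne).1
      · rw [h1 x hx1, hyu y hy1 x hx1 hxy]
        exact h4 y hy1
    · rcases Finset.mem_union.1 hy with hy1 | hy1
      · rw [h1 y hy1, hyu x hx1 y hy1 hxy.symm]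
        exact fun h => h4 x hx1 h.symm
      · exact h5 x hx1 y hy1 hxy
  · -- hub
    intro x hx hxD
    rcases Finset.mem_union.1 hx with hx1 | hx1
    · have := hY1 x hx1
      omega
    · exact h2 x hx1
  · -- few
    intro v _
    have : bigRed T C V Θ (Y ∪ N) φ v = ∅ := by
      unfold bigRed
      rw [Finset.filter_eq_empty_iff]
      rintro x hx ⟨hxV, hbig, -⟩
      have h6 := hNdeg x (hmemN x hx hxV)
      have h7 : Θ * deg T x ≤ Θ' * deg T x := Nat.mul_le_mul_right _ hΘ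
      omega
    rw [this]
    simp
  · -- Calm
    intro v _ _
    have hsub : medRed T C V Θ (Y ∪ N) φ v ⊆ N := by
      intro x hx
      unfold medRed at hx
      rw [Finset.mem_filter] at hx
      exact hmemN x hx.1 hx.2.1
    have hw : Θ' * wt T C V Θ (Y ∪ N) φ v ≤ 2 * U.card * n := by
      unfold wt
      rw [Finset.mul_sum]
      refine (Finset.sum_le_sum_of_subset hsub).trans ?_
      refine (Finset.sum_le_card_nsmul N _ n fun a ha => (hNdeg a ha).le).trans ?_
      rw [smul_eq_mul]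
      exact Nat.mul_le_mul_right _ hNc
    rcases Nat.eq_zero_or_pos (wt T C V Θ (Y ∪ N) φ v) with h0 | h0
    · rw [h0]
      omega
    · have h6 : 16 * K * U.card * wt T C V Θ (Y ∪ N) φ v < Θ' * wt T C V Θ (Y ∪ N) φ v :=
        Nat.mul_lt_mul_of_pos_right hΘ' h0
      have h7 : 2 * U.card * (8 * K * wt T C V Θ (Y ∪ N) φ v) < 2 * U.card * n := by
        calc 2 * U.card * (8 * K * wt T C V Θ (Y ∪ N) φ v) = 16 * K * U.card * wt T C V Θ (Y ∪ N) φ v := by ring
          _ < Θ' * wt T C V Θ (Y ∪ N) φ v := h6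
          _ ≤ 2 * U.card * n := hw
      exact Nat.lt_of_mul_lt_mul_left h7
  · intro x hx hxV
    exact h2 x (hmemN x hx hxV)
  · have := Finset.card_union_le Y N
    omega

end H67.AS
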