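import Pool.Agent.H67.AS.Def

/-! # AS.Ins : placing one more vertex (about 150 lines)

`pl_insert`: every field for `insert y X` and `Function.update φ y p`; `p ∉ U` because `V`, `U` are disjoint; `bigRed` of the new placement is contained in
`insert y (bigRed X φ v)` and equal to `bigRed X φ v` if `y` is not big or `p` is not a red neighbour of `v`.
`wt_insert`, `wt_mono`, `crit_mono`: `medRed` of the new placement is contained in `insert y (medRed X φ v)` resp. contains the old one. -/

namespace H67.AS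

open SimpleGraph Pool.Agent.H62.Decomp H67.SG

theorem ins_upd {n : ℕ} {W : Type} {X : Finset (Fin n)} {φ : Fin n → W} {y : Fin n} {p : W}
    (hy : y ∉ X) {x : Fin n} (hx : x ∈ X) : Function.update φ y p x = φ x :=
  Function.update_of_ne (ne_of_mem_of_not_mem hx hy) _ _

theorem bigRed_insert_subset {n : ℕ} {W : Type} (T : SimpleGraph (Fin n)) (C : SimpleGraph W) (V : Finset W) (Θ : ℕ)
    (X : Finset (Fin n)) (φ : Fin n → W) (y : Fin n) (p : W) (hy : y ∉ X) (v : W) :
    bigRed T C V Θ (insert y X) (Function.update φ y p) v ⊆ insert y (bigRed T C V Θ X φ v) := by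
  classical
  intro x hx
  unfold bigRed at hx ⊢
  rw [Finset.mem_filter, Finset.mem_insert] at hx
  rw [Finset.mem_insert, Finset.mem_filter]
  obtain ⟨hx1, hx2⟩ := hx
  rcases hx1 with h | h
  · exact Or.inl h
  · rw [ins_upd hy h] at hx2
    exact Or.inr ⟨h, hx2⟩

theorem bigRed_insert_subset' {n : ℕ} {W : Type} (T : SimpleGraph (Fin n)) (C : SimpleGraph W) (V : Finset W) (Θ : ℕ)
    (X : Finset (Fin n)) (φ : Fin n → W) (y : Fin n) (p : W) (hy : y ∉ X) (v : W)
    (h0 : ¬ (n ≤ Θ * deg T y ∧ C.Adj p v)) :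
    bigRed T C V Θ (insert y X) (Function.update φ y p) v ⊆ bigRed T C V Θ X φ v := by
  classical
  intro x hx
  unfold bigRed at hx ⊢
  rw [Finset.mem_filter, Finset.mem_insert] at hx
  rw [Finset.mem_filter]
  obtain ⟨hx1, hx2⟩ := hx
  rcases hx1 with h | h
  · subst h
    rw [Function.update_self] at hx2
    exact absurd ⟨hx2.2.1, hx2.2.2⟩ h0
  · rw [ins_upd hy h] at hx2
    exact ⟨h, hx2⟩

theorem pl_insert {n : ℕ} {W : Type} {T : SimpleGraph (Fin n)} {C : SimpleGraph W} {V U G : Finset W} {s Θ D : ℕ}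
    {X : Finset (Fin n)} {φ : Fin n → W} (hP : Pl T C V U G s Θ D X φ) (hUV : Disjoint V U) (y : Fin n) (p : W)
    (hy : y ∉ X) (hp : p ∈ V) (hfree : ∀ x ∈ X, φ x ≠ p) (hblue : ∀ x ∈ X, T.Adj x y → ¬ C.Adj (φ x) p)
    (hhub : D ≤ deg T y → p ∈ G)
    (hbig : n ≤ Θ * deg T y → ∀ v ∈ V, C.Adj p v → (bigRed T C V Θ X φ v).card < s) :
    Pl T C V U G s Θ D (insert y X) (Function.update φ y p) := by
  classical
  have hpU : p ∉ U := fun h => (Finset.disjoint_left.1 hUV) hp h
  refine ⟨?_, ?_, ?_, ?_, ?_, ?_, ?_⟩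
  · intro a ha b hb hab
    rw [Finset.mem_insert] at ha hb
    rcases ha with rfl | ha
    · rcases hb with rfl | hb
      · rfl
      · rw [Function.update_self, ins_upd hy hb] at hab
        exact absurd hab.symm (hfree b hb)
    · rcases hb with rfl | hb
      · rw [Function.update_self, ins_upd hy ha] at hab
        exact absurd hab (hfree a ha)
      · rw [ins_upd hy ha, ins_upd hy hb] at hab
        exact hP.inj a ha b hb hab
  · intro a ha
    rw [Finset.mem_insert] at ha
    rcases ha with rfl | ha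
    · rw [Function.update_self]
      exact Or.inl hp
    · rw [ins_upd hy ha]
      exact hP.mem a ha
  · intro u hu
    obtain ⟨x, hx, hxu⟩ := hP.usedU u hu
    exact ⟨x, Finset.mem_insert_of_mem hx, by rw [ins_upd hy hx]; exact hxu⟩
  · intro a ha haU b hab
    rw [Finset.mem_insert] at ha
    rcases ha with rfl | ha
    · rw [Function.update_self] at haU
      exact absurd haU hpU
    · rw [ins_upd hy ha] at haU
      exact Finset.mem_insert_of_mem (hP.closed a ha haU b hab)
  · intro a ha b hb hab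
    rw [Finset.mem_insert] at ha hb
    rcases ha with rfl | ha
    · rcases hb with rfl | hb
      · exact absurd hab (T.irrefl)
      · rw [Function.update_self, ins_upd hy hb]
        intro h
        exact hblue b hb hab.symm h.symm
    · rcases hb with rfl | hb
      · rw [Function.update_self, ins_upd hy ha]
        exact hblue a ha hab
      · rw [ins_upd hy ha, ins_upd hy hb]
        exact hP.blue a ha b hb hab
  · intro a ha hD
    rw [Finset.mem_insert] at ha
    rcases ha with rfl | ha
    · rw [Function.update_self]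
      exact hhub hD
    · rw [ins_upd hy ha]
      exact hP.hub a ha hD
  · intro v hv
    by_cases h0 : n ≤ Θ * deg T y ∧ C.Adj p v
    · have h1 := hbig h0.1 v hv h0.2
      have h2 := Finset.card_le_card (bigRed_insert_subset T C V Θ X φ y p hy v)
      have h3 := Finset.card_insert_le y (bigRed T C V Θ X φ v)
      omega
    · exact (Finset.card_le_card (bigRed_insert_subset' T C V Θ X φ y p hy v h0)).trans (hP.few v hv)

theorem medRed_insert_subset {n : ℕ} {W : Type} (T : SimpleGraph (Fin n)) (C : SimpleGraph W) (V : Finset W) (Θ : ℕ)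
    (X : Finset (Fin n)) (φ : Fin n → W) (y : Fin n) (p : W) (hy : y ∉ X) (v : W) :
    medRed T C V Θ (insert y X) (Function.update φ y p) v ⊆ insert y (medRed T C V Θ X φ v) := by
  classical
  intro x hx
  unfold medRed at hx ⊢
  rw [Finset.mem_filter, Finset.mem_insert] at hx
  rw [Finset.mem_insert, Finset.mem_filter]
  obtain ⟨hx1, hx2⟩ := hx
  rcases hx1 with h | h
  · exact Or.inl h
  · rw [ins_upd hy h] at hx2
    exact Or.inr ⟨h, hx2⟩

theorem wt_insert {n : ℕ} {W : Type} (T : SimpleGraph (Fin n)) (C : SimpleGraph W) (V : Finset W) (Θ : ℕ)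
    (X : Finset (Fin n)) (φ : Fin n → W) (y : Fin n) (p : W) (hy : y ∉ X) (v : W) :
    wt T C V Θ (insert y X) (Function.update φ y p) v ≤ wt T C V Θ X φ v + deg T y := by
  classical
  have hy' : y ∉ medRed T C V Θ X φ v := by
    unfold medRed
    rw [Finset.mem_filter]
    exact fun h => hy h.1
  have h1 := Finset.sum_le_sum_of_subset (f := fun x => deg T x) (medRed_insert_subset T C V Θ X φ y p hy v)
  rw [Finset.sum_insert hy'] at h1
  unfold wt
  omega

theorem wt_insert_big {n : ℕ} {W : Type} (T : SimpleGraph (Fin n)) (C : SimpleGraph W) (V : Finset W) (Θ : ℕ)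
    (X : Finset (Fin n)) (φ : Fin n → W) (y : Fin n) (p : W) (hy : y ∉ X) (hb : n ≤ Θ * deg T y) (v : W) :
    wt T C V Θ (insert y X) (Function.update φ y p) v ≤ wt T C V Θ X φ v := by
  classical
  unfold wt
  apply Finset.sum_le_sum_of_subset
  intro x hx
  unfold medRed at hx ⊢
  rw [Finset.mem_filter, Finset.mem_insert] at hx
  rw [Finset.mem_filter]
  obtain ⟨hx1, hx2⟩ := hx
  rcases hx1 with h | h
  · subst h
    exact absurd hx2.2.1 (not_lt.2 hb)
  · rw [ins_upd hy h] at hx2
    exact ⟨h, hx2⟩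

theorem wt_mono {n : ℕ} {W : Type} (T : SimpleGraph (Fin n)) (C : SimpleGraph W) (V : Finset W) (Θ : ℕ)
    {X X' : Finset (Fin n)} {φ ψ : Fin n → W} (hX : X ⊆ X') (h : ∀ x ∈ X, ψ x = φ x) (v : W) :
    wt T C V Θ X φ v ≤ wt T C V Θ X' ψ v := by
  classical
  unfold wt
  apply Finset.sum_le_sum_of_subset
  intro x hx
  unfold medRed at hx ⊢
  rw [Finset.mem_filter] at hx ⊢
  refine ⟨hX hx.1, ?_⟩
  rw [h x hx.1]
  exact hx.2

theorem crit_mono {n : ℕ} {W : Type} {T : SimpleGraph (Fin n)} {C : SimpleGraph W} {V : Finset W} {Θ K : ℕ}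
    {X X' : Finset (Fin n)} {φ ψ : Fin n → W} (hX : X ⊆ X') (h : ∀ x ∈ X, ψ x = φ x) {Z : Finset (Fin n)}
    (hZ : Crit T C V Θ K X φ Z) : Crit T C V Θ K X' ψ Z := by
  intro z hz
  obtain ⟨h1, h2, h3⟩ := hZ z hz
  rw [h z h1]
  exact ⟨hX h1, h2, h3.trans (Nat.mul_le_mul_left _ (wt_mono T C V Θ hX h (φ z)))⟩

end H67.AS
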