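import Pool.Agent.H67.AS.All
import Pool.Agent.H67.AS.Fill
import Pool.Agent.H67.AS.Ends
import Pool.Agent.H67.AS.IniA
import Pool.Agent.H67.AS.IniB

/-! # AS.Pack : the packing theorem (assembly)

`D = 64 K`, `Θ = 16 K (s+1)`, `M₁ = m (32 K)^s`. Start: `init_leaf` if some vertex has at least `L + 1` leaves as neighbours, otherwise `tree_ends` and `init_far`; then `place_all`, `avail_bound` for the unused positions, `fill`. -/

namespace H67.AS

open SimpleGraph Pool.Agent.H62.Decomp H67.SG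

/-- the start of the placement in both cases -/
private theorem start (s K L M₂ Θ D : ℕ) (hs : 1 ≤ s) (hΘ : 8 * K ≤ Θ) (hD : 3 ≤ D) : ∃ n₀ : ℕ,
    ∀ n : ℕ, n₀ ≤ n → ∀ T : SimpleGraph (Fin n), T.IsTree →
      ∀ (W : Type) (C : SimpleGraph W) (V U G : Finset W) (w : W) (γ : ℕ), Disjoint V U → G ⊆ V →
        U.card ≤ L → V.card ≤ G.card + γ → (∀ v ∈ G, dg C v V ≤ γ) →
        (M₂ * (2 * L + 1) + 1) * (γ + 1) ≤ n → (∀ u ∈ U, n ≤ M₂ * nd C u V) → w ∈ G →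
        (∀ u ∈ U, ¬ C.Adj w u) →
        ∃ (X : Finset (Fin n)) (φ : Fin n → W), Pl T C V U G s Θ D X φ ∧ Calm T C V Θ K X φ ∧
          (∀ x ∈ X, φ x ∈ V → φ x ∈ G) ∧ X.card ≤ 3 * U.card + 1 := by
  classical
  obtain ⟨n₁, hends⟩ := tree_ends (L + 1) (Θ + 16 * K * L + 1) (by omega)
  refine ⟨n₁ + 1, ?_⟩
  intro n hn T hT W C V U G w γ hUV hGV hUL hVG hγ hN hU hw hwU
  by_cases hleaf : ∃ h, L + 1 ≤ (Finset.univ.filter (fun y => T.Adj h y ∧ deg T y = 1)).card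
  · obtain ⟨h, hh⟩ := hleaf
    exact init_leaf (by omega) hs hUV hGV hΘ (by omega) h (by omega) w hw hwU
  · push Not at hleaf
    obtain ⟨Y, hYc, hY1, hY2, hY3⟩ := hends n (by omega) T hT (fun x => hleaf x)
    obtain ⟨Y', hY', hYc'⟩ := Finset.exists_subset_card_eq (s := Y) (n := U.card) (by omega)
    have : Nonempty W := ⟨w⟩
    refine init_far (by omega) hUV hGV hVG hγ hU hD (Θ' := Θ + 16 * K * L + 1) (by omega) ?_ Y' hYc'
      (fun y hy => hY1 y (hY' hy)) (fun y hy => hY2 y (hY' hy))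
      (fun y hy z hz => hY3 y (hY' hy) z (hY' hz)) ?_
    · have := Nat.mul_le_mul_left (16 * K) hUL
      omega
    · have h1 : γ + 2 * U.card + 2 * U.card * γ ≤ (2 * L + 1) * (γ + 1) := by
        have := Nat.mul_le_mul_right γ hUL
        nlinarith
      have h2 := Nat.mul_le_mul_left M₂ h1
      nlinarith

theorem pack_s (s m K : ℕ) (hs : 1 ≤ s) (hm : 1 ≤ m) (hK : 1 ≤ K) : ∃ N₁ : ℕ, ∀ L M₂ : ℕ, ∃ N₂ n₀ : ℕ,
    ∀ n : ℕ, n₀ ≤ n → ∀ T : SimpleGraph (Fin n), T.IsTree → Undom T s K →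
      ∀ (W : Type) (C : SimpleGraph W) (V U G : Finset W) (w : W) (ρ γ : ℕ), Disjoint V U → G ⊆ V →
        n ≤ V.card + U.card → U.card ≤ L → V.card ≤ G.card + γ →
        (∀ v ∈ V, dg C v V ≤ ρ) → (∀ v ∈ G, dg C v V ≤ γ) → N₁ * (ρ + 1) ≤ n → N₂ * (γ + 1) ≤ n →
        KFree C V s m → (∀ u ∈ U, n ≤ M₂ * nd C u V) → w ∈ G → (∀ u ∈ U, ¬ C.Adj w u) → T ⊑ Cᶜ := by
  classical
  obtain ⟨D, hD⟩ : ∃ D : ℕ, D = 64 * K := ⟨_, rfl⟩
  obtain ⟨Θ, hΘ⟩ : ∃ Θ : ℕ, Θ = 16 * K * (s + 1) := ⟨_, rfl⟩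
  obtain ⟨M, hM⟩ : ∃ M : ℕ, M = m * (32 * K) ^ s := ⟨_, rfl⟩
  obtain ⟨R, hR⟩ : ∃ R : ℕ, R = (2 * Θ) ^ s * m := ⟨_, rfl⟩
  have hΘ16 : 16 * K ≤ Θ := by
    rw [hΘ]
    nlinarith
  refine ⟨8 * (M + R) + 2 * K * (3 * D + 2), ?_⟩
  intro L M₂
  obtain ⟨n₁, hstart⟩ := start s K L M₂ Θ D hs (by omega) (by omega)
  refine ⟨8 * (3 * L + 3) + (M₂ * (2 * L + 1) + 1),
    n₁ + 8 * (4 * L + 2 + M) + 8 * K * (3 * L + 1 + M) + 16 * K * (M * D) + Θ * D + 1, ?_⟩
  intro n hn T hT hUn W C V U G w ρ γ hUV hGV hVU hUL hVG hρ hγ hN1 hN2 hKF hU hw hwU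
  have hn1 : 1 ≤ n := by omega
  have hN2a : 8 * (3 * L + 3) * (γ + 1) ≤ n := le_trans (Nat.mul_le_mul_right _ (Nat.le_add_right _ _)) hN2
  have hN2b : (M₂ * (2 * L + 1) + 1) * (γ + 1) ≤ n := le_trans (Nat.mul_le_mul_right _ (Nat.le_add_left _ _)) hN2
  have hN1a : 8 * (M + R) * (ρ + 1) ≤ n := le_trans (Nat.mul_le_mul_right _ (Nat.le_add_right _ _)) hN1
  have hN1b : 2 * K * (3 * D + 2) * (ρ + 1) ≤ n := le_trans (Nat.mul_le_mul_right _ (Nat.le_add_left _ _)) hN1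
  obtain ⟨X₀, φ₀, hP₀, hC₀, hG₀, hX₀⟩ := hstart n (by omega) T hT W C V U G w γ hUV hGV hUL hVG hγ hN2b hU hw hwU
  have hX₀L : X₀.card ≤ 3 * L + 1 := by omega
  have hhub := hubs_card T hT D
  obtain ⟨h, hh⟩ : ∃ h : ℕ, h = (hubs T D).card := ⟨_, rfl⟩
  rw [← hh] at hhub
  have hKh : 32 * (K * h) ≤ n := by
    have : D * h = 64 * (K * h) := by rw [hD]; ring
    omega
  have hh32 : 32 * h ≤ n := by
    have : h ≤ K * h := Nat.le_mul_of_pos_left h hK
    omega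
  have e1 : X₀.card + h + M + ((X₀.card + 1) * γ + M * ρ) + (2 * Θ) ^ s * m * ρ < G.card := by
    rw [← hR]
    have a1 : (X₀.card + 1) * γ ≤ (3 * L + 2) * γ := Nat.mul_le_mul_right γ (by omega)
    have a2 : 8 * ((3 * L + 3) * γ) ≤ n := by nlinarith
    have a3 : 8 * ((M + R) * ρ) ≤ n := by nlinarith
    have a4 : (3 * L + 3) * γ = (3 * L + 2) * γ + γ := by ring
    have a5 : (M + R) * ρ = M * ρ + R * ρ := by ring
    omega
  have e2 : 4 * K * (X₀.card + 2 * h + M) ≤ n := by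
    have a1 : 4 * K * (X₀.card + 2 * h + M) ≤ 4 * K * (3 * L + 1 + 2 * h + M) :=
      Nat.mul_le_mul_left _ (by omega)
    have a2 : 4 * K * (3 * L + 1 + 2 * h + M) = 4 * K * (3 * L + 1 + M) + 8 * (K * h) := by ring
    have a3 : 8 * K * (3 * L + 1 + M) = 2 * (4 * K * (3 * L + 1 + M)) := by ring
    omega
  obtain ⟨X, φ, hXX, hhX, hXc, hP, hC⟩ := place_all hT hn1 hs hm hK hKF hUn (le_of_eq hΘ.symm) (by omega) hUV hGV ρ γ hρ hγ M hM
    X₀ φ₀ hP₀ hC₀ hG₀ (by rw [← hh]; exact e1) (by rw [← hh]; exact e2) (by omega)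
  rw [← hh] at hXc
  have hXn : X.card ≤ n := by
    have := Finset.card_le_univ X
    rwa [Fintype.card_fin] at this
  -- the unused positions
  obtain ⟨Q₀, hQ₀⟩ : ∃ Q₀ : Finset W, Q₀ = V.filter (fun v => ∀ x ∈ X, φ x ≠ v) := ⟨_, rfl⟩
  have hQ₀c : n ≤ Q₀.card + X.card := by
    have b1 : V ⊆ Q₀ ∪ (X.filter (fun x => φ x ∈ V)).image φ := by
      intro v hv
      rw [Finset.mem_union, hQ₀, Finset.mem_filter, Finset.mem_image]
      by_cases h : ∃ x ∈ X, φ x = v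
      · obtain ⟨x, hx, rfl⟩ := h
        exact Or.inr ⟨x, Finset.mem_filter.2 ⟨hx, hv⟩, rfl⟩
      · push Not at h
        exact Or.inl ⟨hv, h⟩
    have b2 : U ⊆ (X.filter (fun x => ¬ φ x ∈ V)).image φ := by
      intro u hu
      obtain ⟨x, hx, rfl⟩ := hP.usedU u hu
      exact Finset.mem_image.2 ⟨x, Finset.mem_filter.2 ⟨hx, fun h => Finset.disjoint_left.1 hUV h hu⟩, rfl⟩
    have b3 := (Finset.card_le_card b1).trans (Finset.card_union_le _ _)
    have b4 := (Finset.card_le_card b2).trans Finset.card_image_le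
    have b5 : ((X.filter (fun x => φ x ∈ V)).image φ).card ≤ (X.filter (fun x => φ x ∈ V)).card := Finset.card_image_le
    have b6 := Finset.card_filter_add_card_filter_not (s := X) (fun x => φ x ∈ V)
    omega
  obtain ⟨Q, hQQ, hQc⟩ := Finset.exists_subset_card_eq (s := Q₀) (n := n - X.card) (by omega)
  have hQV : Q ⊆ V := by
    refine hQQ.trans ?_
    rw [hQ₀]
    exact Finset.filter_subset _ _
  have hQf : ∀ v ∈ Q, ∀ x ∈ X, φ x ≠ v := by
    intro v hv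
    have := hQQ hv
    rw [hQ₀] at this
    exact (Finset.mem_filter.1 this).2
  refine fill T C X φ Q D ρ (2 * (D * ρ) + D + 2) hP.inj (fun x hx hxQ => hQf _ hxQ x hx rfl) (by omega) ?_ ?_ ?_ ?_
    (by omega) hP.blue
  · intro y hy
    by_contra hcon
    exact hy (hhX (by
      unfold hubs
      exact Finset.mem_filter.2 ⟨Finset.mem_univ _, by omega⟩))
  · intro x hx y hy hxy
    have hxV : φ x ∈ V := by
      rcases hP.mem x hx with h | h
      · exact h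
      · exact absurd (hP.closed x hx h y hxy) hy
    exact (dg_mono C _ hQV).trans (hρ _ hxV)
  · intro v hv
    exact (dg_mono C _ hQV).trans (hρ _ (hQV hv))
  · intro v hv
    have c1 := hC v (hQV hv) (hQf v hv)
    have c2 : 4 * K * wt T C V Θ X φ v ≤ n := by
      have : 8 * K * wt T C V Θ X φ v = 2 * (4 * K * wt T C V Θ X φ v) := by ring
      omega
    have c3 : 4 * K * (X.card + (hubs T D).card) ≤ n := by
      rw [← hh]
      refine le_trans (Nat.mul_le_mul_left _ ?_) e2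
      omega
    have c4 := avail_bound hP K hUn v (hQV hv) c2 c3
    have c5 : 2 * K * (2 * (D * ρ) + D + 2) ≤ 2 * K * ((avail T C X φ v) \ hubs T D).card := by
      refine le_trans ?_ c4
      refine le_trans ?_ hN1b
      nlinarith [Nat.zero_le (K * ρ), Nat.zero_le (K * D * ρ), Nat.zero_le (K * D)]
    have c6 : 2 * (D * ρ) + D + 2 ≤ ((avail T C X φ v) \ hubs T D).card :=
      Nat.le_of_mul_le_mul_left c5 (by omega)
    refine c6.trans (Finset.card_le_card ?_)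
    refine Finset.sdiff_subset.trans ?_
    intro y hy
    unfold avail at hy
    convert hy

end H67.AS
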