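import Pool.Agent.H57.SD.Sur

/-! # AS.SOne : surplus one means that some vertex is a colour class -/

namespace H67.AS

open SimpleGraph Pool.Agent.H62.Decomp H67.SG H57.SD

theorem exists_of_surplus_one {V : Type} [Fintype V] (G : SimpleGraph V) (k : ℕ) (hk2 : 2 ≤ k)
    (hk : G.chromaticNumber = k) (hs : surplus G = 1) :
    ∃ v : V, (G.induce {x | x ≠ v}).Colorable (k - 1) := by
  classical
  obtain ⟨f, i, hfi⟩ := surplus_spec G k hk2 hk
  rw [hs, Set.ncard_eq_one] at hfi
  obtain ⟨v, hv⟩ := hfi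
  refine ⟨v, ?_⟩
  have hne : ∀ x : {x | x ≠ v}, f x ≠ i := by
    intro x hx
    have : (x : V) ∈ {x | f x = i} := hx
    rw [hv] at this
    exact x.2 this
  have hc : (G.induce {x | x ≠ v}).Coloring {j : Fin k // j ≠ i} :=
    Coloring.mk (fun x => ⟨f x, hne x⟩) (by
      intro x y hxy h
      exact f.valid hxy (congrArg Subtype.val h))
  have h1 := hc.colorable
  have h2 : Fintype.card {j : Fin k // j ≠ i} = k - 1 := by
    rw [Fintype.card_subtype_compl, Fintype.card_fin]
    simp
  rwa [h2] at h1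

end H67.AS
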