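import Pool.Agent.H67.AS.Ins
import Pool.Agent.H67.AS.Bnd

/-! # AS.Settle : placing low vertices on the critical positions (about 120 lines)

Induction over `t`. If `Calm` holds for `X`, `φ` take `Y = ∅`. Otherwise there is an unused `v ∈ V` with `n ≤ 8 K wt v`. `t = 0` is impossible since `|Z| < M` (`crit_bound`). For `t + 1`: `avail_bound` gives some
`y ∈ avail \ hubs` (`n ≥ 1`); `X' = insert y X`, `φ' = update φ y v`, `Z' = insert y Z`. `pl_insert` (`y` is neither a hub nor big since `deg y < D` and `Θ D < n`). `Crit` for `Z'`: `crit_mono` and for `y`: `wt_mono`.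
`wt' ≤ wt + deg y ≤ wt + D` (`wt_insert`), `|X'| = |X| + 1`, `|Z'| = |Z| + 1`. -/

namespace H67.AS

open SimpleGraph Pool.Agent.H62.Decomp H67.SG

theorem settle {n : ℕ} {W : Type} {T : SimpleGraph (Fin n)} (hT : T.IsTree) (hn : 1 ≤ n) {C : SimpleGraph W}
    {V U G : Finset W} {s Θ D m K : ℕ} (hm : 1 ≤ m) (hK : 1 ≤ K) (hKF : KFree C V s m) (hUn : Undom T s K)
    (hΘ : 16 * K * s ≤ Θ) (hD : Θ * D < n) (hUV : Disjoint V U) (M : ℕ) (hM : M = m * (32 * K) ^ s) :
    ∀ (t : ℕ) (X : Finset (Fin n)) (φ : Fin n → W) (Z : Finset (Fin n)), Pl T C V U G s Θ D X φ →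
      Crit T C V Θ K X φ Z → M ≤ Z.card + t →
      (∀ v ∈ V, (∀ x ∈ X, φ x ≠ v) → 4 * K * (wt T C V Θ X φ v + t * D) ≤ n) →
      4 * K * (X.card + t + (hubs T D).card) ≤ n →
      ∃ (Y : Finset (Fin n)) (ψ : Fin n → W), Disjoint X Y ∧ (∀ x ∈ X, ψ x = φ x) ∧ (∀ y ∈ Y, deg T y < D) ∧
        Pl T C V U G s Θ D (X ∪ Y) ψ ∧ Crit T C V Θ K (X ∪ Y) ψ (Z ∪ Y) ∧ Calm T C V Θ K (X ∪ Y) ψ := by
  intro t
  induction t with
  | zero =>
    intro X φ Z hP hZ hMZ _ _
    exfalso
    have h1 := crit_bound hT hP m K hm hK hKF hΘ Z hZ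
    omega
  | succ t ih =>
    intro X φ Z hP hZ hMZ hW hX
    by_cases hC : Calm T C V Θ K X φ
    · refine ⟨∅, φ, Finset.disjoint_empty_right X, fun x _ => rfl, ?_, ?_, ?_, ?_⟩
      · intro y hy
        exact absurd hy (Finset.notMem_empty y)
      · rw [Finset.union_empty]; exact hP
      · rw [Finset.union_empty, Finset.union_empty]; exact hZ
      · rw [Finset.union_empty]; exact hC
    unfold Calm at hC
    push Not at hC
    obtain ⟨v, hv, hfree, hvw⟩ := hC
    have hWv := hW v hv hfree
    have hw1 : 4 * K * wt T C V Θ X φ v ≤ n :=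
      le_trans (Nat.mul_le_mul_left _ (Nat.le_add_right _ _)) hWv
    have hX1 : 4 * K * (X.card + (hubs T D).card) ≤ n :=
      le_trans (Nat.mul_le_mul_left _ (by omega)) hX
    have hav := avail_bound hP K hUn v hv hw1 hX1
    have hne : ((avail T C X φ v) \ hubs T D).Nonempty := by
      rw [Finset.nonempty_iff_ne_empty]
      intro h0
      rw [h0, Finset.card_empty, Nat.mul_zero] at hav
      omega
    obtain ⟨y, hy⟩ := hne
    rw [Finset.mem_sdiff] at hy
    obtain ⟨hya, hyh⟩ := hy
    obtain ⟨hyX, hblue⟩ : y ∉ X ∧ ∀ x ∈ X, T.Adj x y → ¬ C.Adj (φ x) v := by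
      unfold avail at hya
      simpa using hya
    have hyD : deg T y < D := by
      unfold hubs at hyh
      simpa using hyh
    have hyb : ¬ n ≤ Θ * deg T y := by
      have h1 : Θ * deg T y ≤ Θ * D := Nat.mul_le_mul_left _ hyD.le
      omega
    have hne : ∀ x ∈ X, x ≠ y := fun x hx h => hyX (h ▸ hx)
    have hφ : ∀ x ∈ X, Function.update φ y v x = φ x := fun x hx => Function.update_of_ne (hne x hx) _ _
    have hφy : Function.update φ y v y = v := Function.update_self y v φ
    have hsub : X ⊆ insert y X := Finset.subset_insert y X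
    have hP' : Pl T C V U G s Θ D (insert y X) (Function.update φ y v) :=
      pl_insert hP hUV y v hyX hv hfree hblue (fun h => absurd h (by omega)) (fun h => absurd h hyb)
    have hyZ : y ∉ Z := fun h => hyX (hZ y h).1
    have hZ' : Crit T C V Θ K (insert y X) (Function.update φ y v) (insert y Z) := by
      intro z hz
      rcases Finset.mem_insert.1 hz with h | h
      · subst h
        refine ⟨Finset.mem_insert_self _ _, by rw [hφy]; exact hv, ?_⟩
        rw [hφy]
        exact hvw.trans (Nat.mul_le_mul_left _ (wt_mono T C V Θ hsub hφ v))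
      · exact crit_mono hsub hφ hZ z h
    have hcX : (insert y X).card = X.card + 1 := Finset.card_insert_of_notMem hyX
    have hcZ : (insert y Z).card = Z.card + 1 := Finset.card_insert_of_notMem hyZ
    have hW' : ∀ v' ∈ V, (∀ x ∈ insert y X, Function.update φ y v x ≠ v') →
        4 * K * (wt T C V Θ (insert y X) (Function.update φ y v) v' + t * D) ≤ n := by
      intro v' hv' hf
      have h1 := hW v' hv' (fun x hx => by
        have h2 := hf x (hsub hx)
        rw [hφ x hx] at h2
        exact h2)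
      refine le_trans (Nat.mul_le_mul_left _ ?_) h1
      have h2 := wt_insert T C V Θ X φ y v hyX v'
      have h3 : (t + 1) * D = t * D + D := by ring
      omega
    have hX' : 4 * K * ((insert y X).card + t + (hubs T D).card) ≤ n := by
      refine le_trans (Nat.mul_le_mul_left _ ?_) hX
      omega
    obtain ⟨Y, ψ, hdis, hψ, hYD, hPψ, hCψ, hCalm⟩ :=
      ih (insert y X) (Function.update φ y v) (insert y Z) hP' hZ' (by omega) hW' hX'
    have e1 : X ∪ insert y Y = insert y X ∪ Y := by
      rw [Finset.union_insert, Finset.insert_union]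
    have e2 : Z ∪ insert y Y = insert y Z ∪ Y := by
      rw [Finset.union_insert, Finset.insert_union]
    refine ⟨insert y Y, ψ, ?_, ?_, ?_, ?_, ?_, ?_⟩
    · rw [Finset.disjoint_insert_right]
      exact ⟨hyX, Finset.disjoint_of_subset_left hsub hdis⟩
    · intro x hx
      rw [hψ x (hsub hx), hφ x hx]
    · intro z hz
      rcases Finset.mem_insert.1 hz with h | h
      · rw [h]; exact hyD
      · exact hYD z h
    · rw [e1]; exact hPψ
    · rw [e1, e2]; exact hCψ
    · rw [e1]; exact hCalm

end H67.AS
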